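import Mathlib

/-!
Rainbow sets from fractional weights: if every colour class has weight at least 1 and every element
meets (with multiplicity) weight at most 1, then there is a conflict free choice of one element of
each colour.
-/

set_option autoImplicit false
set_option linter.unusedSectionVars false

open Finset

namespace Rain64

variable {V : Type*} [Fintype V] [DecidableEq V]

/-- sign of `v` against `T` -/
def sg (ε : V → V → ℝ) (v : V) (T : Finset V) : ℝ := ∏ w ∈ T, ε v w

/-- boundary -/
def bd (ε : V → V → ℝ) (z : Finset V → ℝ) (T : Finset V) : ℝ :=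
  ∑ v ∈ Tᶜ, sg ε v T * z (insert v T)

/-- conflict free subsets of `U` -/
def IsX (conf : V → V → Prop) (U T : Finset V) : Prop :=
  T ⊆ U ∧ ∀ u ∈ T, ∀ v ∈ T, u ≠ v → ¬ conf u v

open Classical in
/-- weighted coboundary -/
noncomputable def dl (ε : V → V → ℝ) (conf : V → V → Prop) (U : Finset V) (β : V → ℝ)
    (z : Finset V → ℝ) (S : Finset V) : ℝ :=
  if IsX conf U S then ∑ v ∈ S, β v * sg ε v (S.erase v) * z (S.erase v) else 0

/-- an antisymmetric sign -/
structure Sign (ε : V → V → ℝ) : Prop where
  sq : ∀ u v, ε u v * ε u v = 1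
  anti : ∀ u v, u ≠ v → ε u v = - ε v u

theorem sg_sq {ε : V → V → ℝ} (h : Sign ε) (v : V) (T : Finset V) : sg ε v T * sg ε v T = 1 := by
  unfold sg
  rw [← Finset.prod_mul_distrib]
  exact Finset.prod_eq_one fun w _ => h.sq v w

theorem sg_insert (ε : V → V → ℝ) (u : V) {v : V} {T : Finset V} (hv : v ∉ T) :
    sg ε u (insert v T) = ε u v * sg ε u T := by
  unfold sg
  rw [Finset.prod_insert hv]

theorem sg_rel {ε : V → V → ℝ} (h : Sign ε) {u v : V} {R : Finset V} (huv : u ≠ v) (hu : u ∉ R)
    (hv : v ∉ R) : sg ε u (insert v R) * sg ε v (insert u R) = - (sg ε u R * sg ε v R) := by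
  rw [sg_insert ε u hv, sg_insert ε v hu, h.anti u v huv]
  have := h.sq v u
  linear_combination (-(sg ε u R * sg ε v R)) * this

theorem bd_bd {ε : V → V → ℝ} (h : Sign ε) (z : Finset V → ℝ) (T : Finset V) :
    bd ε (bd ε z) T = 0 := by
  classical
  set G : V → V → ℝ := fun v u => if v ∉ T ∧ u ∉ T ∧ u ≠ v then
    sg ε v T * (sg ε u (insert v T) * z (insert u (insert v T))) else 0 with hG
  have h1 : bd ε (bd ε z) T = ∑ v, ∑ u, G v u := by
    unfold bd
    have : ∀ v, (if v ∈ Tᶜ then sg ε v T * ∑ u ∈ (insert v T)ᶜ, sg ε u (insert v T) *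
        z (insert u (insert v T)) else 0) = ∑ u, G v u := by
      intro v
      by_cases hv : v ∈ T
      · simp [hG, hv]
      · rw [if_pos (by simpa using hv), Finset.mul_sum, ← Finset.sum_filter_add_sum_filter_not univ
          (fun u => u ∈ (insert v T)ᶜ)]
        have e1 : ∑ u ∈ univ.filter (fun u => ¬ u ∈ (insert v T)ᶜ), G v u = 0 := by
          apply Finset.sum_eq_zero
          intro u hu
          simp only [mem_filter, mem_univ, true_and, mem_compl, mem_insert, not_not] at hu
          simp only [hG]
          rw [if_neg]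
          rintro ⟨_, h2, h3⟩
          rcases hu with hu | hu
          · exact h3 hu
          · exact h2 hu
        rw [e1, add_zero]
        apply Finset.sum_congr
        · ext u; simp
        · intro u hu
          have hu' : u ≠ v ∧ u ∉ T := by
            simpa [not_or] using hu
          simp only [hG]
          rw [if_pos ⟨hv, hu'.2, hu'.1⟩]
    rw [← Finset.sum_congr rfl (fun v _ => this v), ← Finset.sum_filter]
    apply Finset.sum_congr
    · ext v; simp
    · intro v _; rfl
  have anti : ∀ v u, G v u = - G u v := by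
    intro v u
    simp only [hG]
    by_cases hc : v ∉ T ∧ u ∉ T ∧ u ≠ v
    · rw [if_pos hc, if_pos ⟨hc.2.1, hc.1, hc.2.2.symm⟩, Finset.insert_comm u v T]
      rw [sg_insert ε u hc.1, sg_insert ε v hc.2.1, h.anti u v hc.2.2]
      ring
    · rw [if_neg hc, if_neg (fun h' => hc ⟨h'.2.1, h'.1, h'.2.2.symm⟩)]
      simp
  have h2 : ∑ v, ∑ u, G v u = - ∑ v, ∑ u, G v u := by
    conv_lhs => rw [Finset.sum_comm]
    rw [← Finset.sum_neg_distrib]
    apply Finset.sum_congr rfl
    intro v _
    rw [← Finset.sum_neg_distrib]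
    apply Finset.sum_congr rfl
    intro u _
    exact anti u v
  rw [h1]
  linarith

theorem reindex (F : Finset V → V → ℝ) :
    ∑ T : Finset V, ∑ v ∈ T, F (T.erase v) v = ∑ R : Finset V, ∑ v ∈ Rᶜ, F R v := by
  rw [Finset.sum_sigma', Finset.sum_sigma']
  refine Finset.sum_nbij' (fun p => ⟨p.1.erase p.2, p.2⟩) (fun p => ⟨insert p.2 p.1, p.2⟩)
    ?_ ?_ ?_ ?_ ?_
  · rintro ⟨T, v⟩ h
    simp
  · rintro ⟨R, v⟩ h
    simp
  · rintro ⟨T, v⟩ h
    simp only [mem_sigma, mem_univ, true_and] at h
    simp [Finset.insert_erase h]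
  · rintro ⟨R, v⟩ h
    simp only [mem_sigma, mem_univ, true_and, mem_compl] at h
    simp [Finset.erase_insert h]
  · rintro ⟨T, v⟩ h
    rfl

open Classical in
/-- the pointwise formula for a cycle `z` with `bd (dl z) = 0` -/
theorem key {ε : V → V → ℝ} (h : Sign ε) (conf : V → V → Prop) (U : Finset V) (β : V → ℝ)
    (z : Finset V → ℝ) (T : Finset V) (h0 : ∀ v ∈ T, bd ε z (T.erase v) = 0)
    (h1 : bd ε (dl ε conf U β z) T = 0) :
    ((∑ u ∈ Tᶜ with IsX conf U (insert u T), β u) + ∑ v ∈ T, β v) * z T +
      ∑ v ∈ T, ∑ u ∈ Tᶜ with ¬ IsX conf U (insert u T),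
        β v * sg ε v (T.erase v) * sg ε u (T.erase v) * z (insert u (T.erase v)) = 0 := by
  set H : V → V → ℝ := fun v u =>
    β v * sg ε v (T.erase v) * sg ε u (T.erase v) * z (insert u (T.erase v)) with hH
  -- cycles
  have a1 : ∀ v ∈ T, β v * z T + ∑ u ∈ Tᶜ, H v u = 0 := by
    intro v hv
    have e := h0 v hv
    unfold bd at e
    have ec : (T.erase v)ᶜ = insert v Tᶜ := by
      ext x
      simp only [mem_compl, mem_erase, mem_insert]
      by_cases hx : x = v
      · simp [hx]
      · simp [hx]
    rw [ec, Finset.sum_insert (by simpa using hv), Finset.insert_erase hv] at e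
    have e2 : β v * sg ε v (T.erase v) * (sg ε v (T.erase v) * z T +
        ∑ u ∈ Tᶜ, sg ε u (T.erase v) * z (insert u (T.erase v))) = 0 := by
      rw [e, mul_zero]
    have e3 := sg_sq h v (T.erase v)
    have e4 : ∑ u ∈ Tᶜ, H v u = β v * sg ε v (T.erase v) *
        ∑ u ∈ Tᶜ, sg ε u (T.erase v) * z (insert u (T.erase v)) := by
      rw [Finset.mul_sum]
      apply Finset.sum_congr rfl
      intro u _
      simp only [hH]
      ring
    rw [e4]
    linear_combination e2 - β v * z T * e3
  have a2 : (∑ v ∈ T, β v) * z T + ∑ v ∈ T, ∑ u ∈ Tᶜ, H v u = 0 := by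
    rw [Finset.sum_mul, ← Finset.sum_add_distrib]
    exact Finset.sum_eq_zero a1
  have a3 : ∑ v ∈ T, ∑ u ∈ Tᶜ, H v u =
      (∑ v ∈ T, ∑ u ∈ Tᶜ with IsX conf U (insert u T), H v u) +
      ∑ v ∈ T, ∑ u ∈ Tᶜ with ¬ IsX conf U (insert u T), H v u := by
    rw [← Finset.sum_add_distrib]
    apply Finset.sum_congr rfl
    intro v _
    rw [Finset.sum_filter_add_sum_filter_not]
  have a4 : (∑ u ∈ Tᶜ with IsX conf U (insert u T), β u) * z T -
      ∑ v ∈ T, ∑ u ∈ Tᶜ with IsX conf U (insert u T), H v u = 0 := by
    rw [← h1]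
    unfold bd dl
    have e1 : ∀ u ∈ Tᶜ, sg ε u T * (if IsX conf U (insert u T) then
        ∑ v ∈ insert u T, β v * sg ε v ((insert u T).erase v) * z ((insert u T).erase v) else 0)
        = if IsX conf U (insert u T) then β u * z T - ∑ v ∈ T, H v u else 0 := by
      intro u hu
      have hu' : u ∉ T := by simpa using hu
      by_cases hX : IsX conf U (insert u T)
      · rw [if_pos hX, if_pos hX, Finset.sum_insert hu', Finset.erase_insert hu']
        have e2 : ∑ v ∈ T, β v * sg ε v ((insert u T).erase v) * z ((insert u T).erase v) =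
            - (sg ε u T * ∑ v ∈ T, H v u) := by
          rw [Finset.mul_sum, ← Finset.sum_neg_distrib]
          apply Finset.sum_congr rfl
          intro v hv
          have hne : u ≠ v := fun e => hu' (e ▸ hv)
          have e3 : (insert u T).erase v = insert u (T.erase v) := by
            rw [Finset.erase_insert_of_ne hne]
          have e4 := sg_rel h (R := T.erase v) hne (by simp [hu']) (by simp)
          rw [Finset.insert_erase hv] at e4
          rw [e3]
          simp only [hH]
          have e5 := sg_sq h u T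
          have e6 : sg ε v (insert u (T.erase v)) =
              - (sg ε u T * (sg ε u (T.erase v) * sg ε v (T.erase v))) := by
            linear_combination sg ε u T * e4 - sg ε v (insert u (T.erase v)) * e5
          rw [e6]
          ring
        rw [e2]
        have e5 := sg_sq h u T
        linear_combination (β u * z T - ∑ v ∈ T, H v u) * e5
      · rw [if_neg hX, if_neg hX, mul_zero]
    rw [Finset.sum_congr rfl e1, ← Finset.sum_filter, Finset.sum_sub_distrib, Finset.sum_mul]
    congr 1
    rw [Finset.sum_comm]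
  rw [a3] at a2
  linear_combination a2 + a4

open Classical in
/-- the quadratic inequality -/
theorem quad (conf : V → V → Prop) (hconf : ∀ u v, conf u v → conf v u) (a : V → V → ℝ)
    (ha0 : ∀ u v, 0 ≤ a u v) (has : ∀ u v, a u v = a v u)
    (ha1 : ∀ u v, u ≠ v → conf u v → 1 ≤ a u v)
    (hpsd : ∀ f : V → ℝ, 0 ≤ ∑ v, ∑ u, f v * f u * a u v) (U : Finset V) (β : V → ℝ)
    (hβ : ∀ v ∈ U, 0 < β v) (g : V → ℝ) (hg : ∀ v, v ∉ U → g v = 0) :
    - ∑ v ∈ U, g v ^ 2 / β v *
      (∑ u ∈ U, β u * a u v - ∑ u ∈ U with u ≠ v ∧ conf u v, β u) ≤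
      ∑ v ∈ U, ∑ u ∈ U with u ≠ v ∧ conf u v, g v * g u := by
  set k : V → V → ℝ := fun u v => a u v - (if u ≠ v ∧ conf u v then 1 else 0) with hk
  have hk0 : ∀ u v, 0 ≤ k u v := by
    intro u v
    simp only [hk]
    by_cases hc : u ≠ v ∧ conf u v
    · rw [if_pos hc]; linarith [ha1 u v hc.1 hc.2]
    · rw [if_neg hc]; linarith [ha0 u v]
  have hks : ∀ u v, k u v = k v u := by
    intro u v
    simp only [hk]
    rw [has u v]
    by_cases hc : u ≠ v ∧ conf u v
    · rw [if_pos hc, if_pos ⟨hc.1.symm, hconf u v hc.2⟩]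
    · rw [if_neg hc, if_neg (fun h' => hc ⟨h'.1.symm, hconf v u h'.2⟩)]
  have e1 : ∀ v ∈ U, g v ^ 2 / β v *
      (∑ u ∈ U, β u * a u v - ∑ u ∈ U with u ≠ v ∧ conf u v, β u) =
      ∑ u ∈ U, g v ^ 2 / β v * (β u * k u v) := by
    intro v _
    rw [← Finset.mul_sum]
    congr 1
    rw [Finset.sum_filter, ← Finset.sum_sub_distrib]
    apply Finset.sum_congr rfl
    intro u _
    simp only [hk]
    split_ifs <;> ring
  rw [Finset.sum_congr rfl e1]
  have e2 : ∑ v ∈ U, ∑ u ∈ U with u ≠ v ∧ conf u v, g v * g u =
      ∑ v ∈ U, ∑ u ∈ U, (g v * g u * a u v - g v * g u * k u v) := by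
    apply Finset.sum_congr rfl
    intro v _
    rw [Finset.sum_filter]
    apply Finset.sum_congr rfl
    intro u _
    simp only [hk]
    split_ifs <;> ring
  rw [e2]
  have e3 : ∑ v ∈ U, ∑ u ∈ U, (g v * g u * a u v - g v * g u * k u v) =
      ∑ v ∈ U, ∑ u ∈ U, g v * g u * a u v - ∑ v ∈ U, ∑ u ∈ U, g v * g u * k u v := by
    simp only [Finset.sum_sub_distrib]
  rw [e3]
  have e4 : 0 ≤ ∑ v ∈ U, ∑ u ∈ U, g v * g u * a u v := by
    have := hpsd g
    have e5 : ∑ v, ∑ u, g v * g u * a u v = ∑ v ∈ U, ∑ u ∈ U, g v * g u * a u v := by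
      symm
      have e6 : ∀ v, ∑ u ∈ U, g v * g u * a u v = ∑ u, g v * g u * a u v := by
        intro v
        apply Finset.sum_subset (Finset.subset_univ _)
        intro u _ hu
        rw [hg u hu]; ring
      rw [Finset.sum_congr rfl (fun v _ => e6 v)]
      apply Finset.sum_subset (Finset.subset_univ _)
      intro v _ hv
      apply Finset.sum_eq_zero
      intro u _
      rw [hg v hv]; ring
    linarith
  have e5 : ∑ v ∈ U, ∑ u ∈ U, g v * g u * k u v ≤
      ∑ v ∈ U, ∑ u ∈ U, g v ^ 2 / β v * (β u * k u v) := by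
    have e6 : ∑ v ∈ U, ∑ u ∈ U, g v ^ 2 / β v * (β u * k u v) =
        ∑ v ∈ U, ∑ u ∈ U, (1 / 2 * (g v ^ 2 / β v * (β u * k u v)) +
          1 / 2 * (g u ^ 2 / β u * (β v * k u v))) := by
      have e7 : ∑ v ∈ U, ∑ u ∈ U, g u ^ 2 / β u * (β v * k u v) =
          ∑ v ∈ U, ∑ u ∈ U, g v ^ 2 / β v * (β u * k u v) := by
        rw [Finset.sum_comm]
        apply Finset.sum_congr rfl
        intro v _
        apply Finset.sum_congr rfl
        intro u _
        rw [hks u v]
      simp only [Finset.sum_add_distrib, ← Finset.mul_sum]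
      simp only [← Finset.mul_sum] at e7
      rw [e7]
      ring
    rw [e6]
    apply Finset.sum_le_sum
    intro v hv
    apply Finset.sum_le_sum
    intro u hu
    have hbv := hβ v hv
    have hbu := hβ u hu
    have hkk := hk0 u v
    have e8 : g v * g u ≤ 1 / 2 * (g v ^ 2 / β v * β u) + 1 / 2 * (g u ^ 2 / β u * β v) := by
      have e9 : 1 / 2 * (g v ^ 2 / β v * β u) + 1 / 2 * (g u ^ 2 / β u * β v) - g v * g u =
          (g v * β u - g u * β v) ^ 2 / (2 * β u * β v) := by
        field_simp
        ring
      have e10 : 0 ≤ (g v * β u - g u * β v) ^ 2 / (2 * β u * β v) := by positivity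
      linarith
    calc g v * g u * k u v ≤ (1 / 2 * (g v ^ 2 / β v * β u) + 1 / 2 * (g u ^ 2 / β u * β v)) *
        k u v := mul_le_mul_of_nonneg_right e8 hkk
      _ = _ := by ring
  linarith

theorem IsX.mono {conf : V → V → Prop} {U S T : Finset V} (h : IsX conf U T) (hS : S ⊆ T) :
    IsX conf U S :=
  ⟨hS.trans h.1, fun u hu v hv => h.2 u (hS hu) v (hS hv)⟩

theorem isX_insert {conf : V → V → Prop} (hconf : ∀ u v, conf u v → conf v u)
    {U R : Finset V} {u v : V} (huv : u ≠ v) (hu : IsX conf U (insert u R))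
    (hv : IsX conf U (insert v R)) :
    IsX conf U (insert u (insert v R)) ↔ ¬ conf u v := by
  constructor
  · intro h
    exact h.2 u (by simp) v (by simp) huv
  · intro h
    refine ⟨?_, ?_⟩
    · intro x hx
      rw [mem_insert] at hx
      rcases hx with rfl | hx
      · exact hu.1 (by simp)
      · exact hv.1 hx
    · intro x hx y hy hxy hc
      rw [mem_insert] at hx hy
      rcases hx with rfl | hx
      · rcases hy with rfl | hy
        · exact hxy rfl
        · rw [mem_insert] at hy
          rcases hy with rfl | hy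
          · exact h hc
          · exact hu.2 x (by simp) y (by simp [hy]) hxy hc
      · rcases hy with rfl | hy
        · rw [mem_insert] at hx
          rcases hx with rfl | hx
          · exact h (hconf _ _ hc)
          · exact hu.2 x (by simp [hx]) y (by simp) hxy hc
        · exact hv.2 x hx y hy hxy hc

open Classical in
theorem energy {ε : V → V → ℝ} (h : Sign ε) (conf : V → V → Prop)
    (hconf : ∀ u v, conf u v → conf v u) (a : V → V → ℝ)
    (ha0 : ∀ u v, 0 ≤ a u v) (has : ∀ u v, a u v = a v u)
    (ha1 : ∀ u v, u ≠ v → conf u v → 1 ≤ a u v)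
    (hpsd : ∀ f : V → ℝ, 0 ≤ ∑ v, ∑ u, f v * f u * a u v) (U : Finset V) (β : V → ℝ)
    (hβ : ∀ v ∈ U, 0 < β v) (hβ0 : ∀ v, 0 ≤ β v)
    (h2 : ∀ v ∈ U, ∑ u ∈ U, β u * a u v ≤ 1) (m : ℕ) (hm : (m : ℝ) < ∑ v ∈ U, β v)
    (z : Finset V → ℝ) (hz : ∀ T, z T ≠ 0 → IsX conf U T ∧ T.card = m)
    (hc : ∀ T, bd ε z T = 0) (hd : ∀ T, bd ε (dl ε conf U β z) T = 0) : ∀ T, z T = 0 := by
  set w : Finset V → ℝ := fun T => ∏ v ∈ T, β v with hw
  set L : Finset V → ℝ := fun T => (∑ u ∈ Tᶜ with IsX conf U (insert u T), β u) + ∑ v ∈ T, β v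
    with hL
  set K : V → ℝ := fun v => ∑ u ∈ U, β u * a u v - ∑ u ∈ U with u ≠ v ∧ conf u v, β u with hK
  set F : Finset V → V → ℝ := fun R v =>
    ∑ u ∈ (insert v R)ᶜ with ¬ IsX conf U (insert u (insert v R)),
      z (insert v R) / w (insert v R) * (β v * sg ε v R * sg ε u R * z (insert u R)) with hF
  have hw0 : ∀ T, 0 ≤ w T := fun T => Finset.prod_nonneg fun v _ => hβ0 v
  have hwpos : ∀ T, T ⊆ U → 0 < w T := fun T hT => Finset.prod_pos fun v hv => hβ v (hT hv)
  -- the identity
  have s0 : (∑ T, z T ^ 2 / w T * L T) + ∑ R : Finset V, ∑ v ∈ Rᶜ, F R v = 0 := by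
    rw [← reindex, ← Finset.sum_add_distrib]
    apply Finset.sum_eq_zero
    intro T _
    have e := key h conf U β z T (fun v _ => hc _) (hd T)
    have e1 : ∑ v ∈ T, F (T.erase v) v = z T / w T * ∑ v ∈ T,
        ∑ u ∈ Tᶜ with ¬ IsX conf U (insert u T),
        β v * sg ε v (T.erase v) * sg ε u (T.erase v) * z (insert u (T.erase v)) := by
      rw [Finset.mul_sum]
      apply Finset.sum_congr rfl
      intro v hv
      simp only [hF]
      rw [Finset.insert_erase hv, Finset.mul_sum]
    rw [e1]
    have e2 : z T ^ 2 / w T * L T = z T / w T * (L T * z T) := by ring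
    rw [e2, ← mul_add, e, mul_zero]
  -- lower bound for each R
  have c2 : ∀ R : Finset V, - ∑ v ∈ Rᶜ, z (insert v R) ^ 2 / w (insert v R) * K v ≤
      ∑ v ∈ Rᶜ, F R v := by
    intro R
    set g : V → ℝ := fun v => if v ∈ R then 0 else sg ε v R * z (insert v R) with hg
    have hgR : ∀ v, v ∈ R → g v = 0 := fun v hv => by simp [hg, hv]
    have hgn : ∀ v, v ∉ R → g v = sg ε v R * z (insert v R) := fun v hv => by simp [hg, hv]
    have hgX : ∀ v, g v ≠ 0 → v ∉ R ∧ IsX conf U (insert v R) := by
      intro v hv
      have h1 : v ∉ R := fun h' => hv (hgR v h')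
      refine ⟨h1, (hz _ ?_).1⟩
      intro h'
      apply hv
      rw [hgn v h1, h', mul_zero]
    have hgU : ∀ v, v ∉ U → g v = 0 := by
      intro v hv
      by_contra h'
      exact hv ((hgX v h').2.1 (by simp))
    have q := quad conf hconf a ha0 has ha1 hpsd U β hβ g hgU
    have q1 : 1 / w R * (- ∑ v ∈ U, g v ^ 2 / β v * K v) ≤
        1 / w R * ∑ v ∈ U, ∑ u ∈ U with u ≠ v ∧ conf u v, g v * g u :=
      mul_le_mul_of_nonneg_left q (one_div_nonneg.mpr (hw0 R))
    have d1 : ∑ v ∈ Rᶜ, z (insert v R) ^ 2 / w (insert v R) * K v =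
        1 / w R * ∑ v ∈ U, g v ^ 2 / β v * K v := by
      rw [Finset.mul_sum]
      have t1 : ∑ v ∈ U, 1 / w R * (g v ^ 2 / β v * K v) =
          ∑ v, 1 / w R * (g v ^ 2 / β v * K v) := by
        apply Finset.sum_subset (Finset.subset_univ _)
        intro v _ hv
        rw [hgU v hv]; simp
      have t2 : ∑ v ∈ Rᶜ, 1 / w R * (g v ^ 2 / β v * K v) =
          ∑ v, 1 / w R * (g v ^ 2 / β v * K v) := by
        apply Finset.sum_subset (Finset.subset_univ _)
        intro v _ hv
        rw [hgR v (by simpa using hv)]; simp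
      rw [t1, ← t2]
      apply Finset.sum_congr rfl
      intro v hv
      have hv' : v ∉ R := by simpa using hv
      rw [hgn v hv', mul_pow, pow_two (sg ε v R), sg_sq h, one_mul]
      simp only [hw]
      rw [Finset.prod_insert hv']
      simp only [div_eq_mul_inv, mul_inv, one_mul]
      ring
    have d2 : ∑ v ∈ Rᶜ, F R v =
        1 / w R * ∑ v ∈ U, ∑ u ∈ U with u ≠ v ∧ conf u v, g v * g u := by
      rw [Finset.mul_sum]
      have t1 : ∑ v ∈ U, 1 / w R * (∑ u ∈ U with u ≠ v ∧ conf u v, g v * g u) =
          ∑ v, 1 / w R * (∑ u ∈ U with u ≠ v ∧ conf u v, g v * g u) := by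
        apply Finset.sum_subset (Finset.subset_univ _)
        intro v _ hv
        rw [← Finset.mul_sum, hgU v hv]; simp
      have t2 : ∑ v ∈ Rᶜ, 1 / w R * (∑ u ∈ U with u ≠ v ∧ conf u v, g v * g u) =
          ∑ v, 1 / w R * (∑ u ∈ U with u ≠ v ∧ conf u v, g v * g u) := by
        apply Finset.sum_subset (Finset.subset_univ _)
        intro v _ hv
        rw [← Finset.mul_sum, hgR v (by simpa using hv)]; simp
      rw [t1, ← t2]
      apply Finset.sum_congr rfl
      intro v hv
      have hv' : v ∉ R := by simpa using hv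
      simp only [hF]
      by_cases hzv : z (insert v R) = 0
      · have : g v = 0 := by rw [hgn v hv', hzv, mul_zero]
        rw [hzv, this]
        simp
      · have hXv := (hz _ hzv).1
        have hvU : v ∈ U := hXv.1 (by simp)
        have hb := hβ v hvU
        have hwi : w (insert v R) = β v * w R := by
          simp only [hw]; rw [Finset.prod_insert hv']
        have hwR : 0 < w R := hwpos R (fun x hx => hXv.1 (by simp [hx]))
        rw [hwi, Finset.mul_sum, Finset.sum_filter, Finset.sum_filter]
        have t3 : ∑ u ∈ U, (if u ≠ v ∧ conf u v then 1 / w R * (g v * g u) else 0) =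
            ∑ u, (if u ≠ v ∧ conf u v then 1 / w R * (g v * g u) else 0) := by
          apply Finset.sum_subset (Finset.subset_univ _)
          intro u _ hu
          rw [hgU u hu]; simp
        have t4 : ∑ u ∈ (insert v R)ᶜ, (if u ≠ v ∧ conf u v then 1 / w R * (g v * g u) else 0) =
            ∑ u, (if u ≠ v ∧ conf u v then 1 / w R * (g v * g u) else 0) := by
          apply Finset.sum_subset (Finset.subset_univ _)
          intro u _ hu
          have hu' : u = v ∨ u ∈ R := by
            rw [mem_compl, not_not, mem_insert] at hu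
            exact hu
          rcases hu' with rfl | hu'
          · simp
          · rw [hgR u hu']; simp
        rw [t3, ← t4]
        apply Finset.sum_congr rfl
        intro u hu
        have hu' : u ≠ v ∧ u ∉ R := by simpa using hu
        have hterm : z (insert v R) / (β v * w R) *
            (β v * sg ε v R * sg ε u R * z (insert u R)) = 1 / w R * (g v * g u) := by
          rw [hgn v hv', hgn u hu'.2]
          field_simp
        by_cases hgu : g u = 0
        · rw [hterm, hgu]
          simp
        · have hXu := (hgX u hgu).2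
          have hiff := isX_insert hconf hu'.1 hXu hXv
          by_cases hcu : conf u v
          · rw [if_pos (by rw [hiff]; exact fun h' => h' hcu), if_pos ⟨hu'.1, hcu⟩, hterm]
          · rw [if_neg (by rw [hiff]; exact fun h' => h' hcu), if_neg (fun h' => hcu h'.2)]
    rw [d1, d2]
    linarith
  have c3 : (∑ T, z T ^ 2 / w T * L T) - ∑ T : Finset V, ∑ v ∈ T, z T ^ 2 / w T * K v ≤ 0 := by
    have e1 : ∑ T : Finset V, ∑ v ∈ T, z T ^ 2 / w T * K v =
        ∑ R : Finset V, ∑ v ∈ Rᶜ, z (insert v R) ^ 2 / w (insert v R) * K v := by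
      rw [← reindex]
      apply Finset.sum_congr rfl
      intro T _
      apply Finset.sum_congr rfl
      intro v hv
      rw [Finset.insert_erase hv]
    have e2 : - ∑ R : Finset V, ∑ v ∈ Rᶜ, z (insert v R) ^ 2 / w (insert v R) * K v ≤
        ∑ R : Finset V, ∑ v ∈ Rᶜ, F R v := by
      rw [← Finset.sum_neg_distrib]
      exact Finset.sum_le_sum fun R _ => c2 R
    rw [e1]
    linarith
  set n : ℝ := ∑ v ∈ U, β v with hn
  have c4 : ∀ T, z T ≠ 0 → n - m ≤ L T - ∑ v ∈ T, K v := by
    intro T hT
    obtain ⟨hX, hcard⟩ := hz T hT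
    have e1 : ∑ v ∈ T, ∑ u ∈ U, β u * a u v ≤ m := by
      calc ∑ v ∈ T, ∑ u ∈ U, β u * a u v ≤ ∑ v ∈ T, (1 : ℝ) :=
            Finset.sum_le_sum fun v hv => h2 v (hX.1 hv)
        _ = m := by rw [Finset.sum_const, hcard]; simp
    have e2 : n ≤ L T + ∑ v ∈ T, ∑ u ∈ U with u ≠ v ∧ conf u v, β u := by
      have f1 : ∑ v ∈ T, ∑ u ∈ U with u ≠ v ∧ conf u v, β u =
          ∑ u ∈ U, ∑ v ∈ T, if u ≠ v ∧ conf u v then β u else 0 := by
        rw [Finset.sum_comm]
        apply Finset.sum_congr rfl
        intro v _
        rw [Finset.sum_filter]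
      have f2 : ∑ u ∈ U, ((if u ∉ T ∧ IsX conf U (insert u T) then β u else 0) +
          (if u ∈ T then β u else 0)) ≤ L T := by
        rw [Finset.sum_add_distrib]
        simp only [hL]
        apply add_le_add
        · rw [← Finset.sum_filter]
          apply Finset.sum_le_sum_of_subset_of_nonneg
          · intro u hu
            simp only [mem_filter, mem_compl] at hu ⊢
            exact hu.2
          · intro u _ _
            exact hβ0 u
        · rw [← Finset.sum_filter]
          apply Finset.sum_le_sum_of_subset_of_nonneg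
          · intro u hu
            simp only [mem_filter] at hu
            exact hu.2
          · intro u _ _
            exact hβ0 u
      rw [f1]
      refine le_trans ?_ (add_le_add_left f2 _)
      rw [← Finset.sum_add_distrib]
      apply Finset.sum_le_sum
      intro u hu
      have hb := hβ0 u
      have hnn : ∀ v ∈ T, 0 ≤ (if u ≠ v ∧ conf u v then β u else 0) := by
        intro v _
        split_ifs
        · exact hb
        · exact le_refl _
      by_cases hT1 : u ∈ T
      · rw [if_neg (by simp [hT1]), if_pos hT1]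
        have := Finset.sum_nonneg hnn
        linarith
      · by_cases hT2 : IsX conf U (insert u T)
        · rw [if_pos ⟨hT1, hT2⟩, if_neg hT1]
          have := Finset.sum_nonneg hnn
          linarith
        · rw [if_neg (by simp [hT2]), if_neg hT1]
          have : ∃ v ∈ T, conf u v := by
            by_contra hno'
            have hno : ∀ v ∈ T, ¬ conf u v := fun v hv hc' => hno' ⟨v, hv, hc'⟩
            apply hT2
            refine ⟨?_, ?_⟩
            · intro x hx
              rw [mem_insert] at hx
              rcases hx with rfl | hx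
              · exact hu
              · exact hX.1 hx
            · intro x hx y hy hxy hcc
              rw [mem_insert] at hx hy
              rcases hx with rfl | hx
              · rcases hy with rfl | hy
                · exact hxy rfl
                · exact hno y hy hcc
              · rcases hy with rfl | hy
                · exact hno x hx (hconf _ _ hcc)
                · exact hX.2 x hx y hy hxy hcc
          obtain ⟨v, hv, hcv⟩ := this
          have hne : u ≠ v := fun e => hT1 (e ▸ hv)
          have f3 := Finset.single_le_sum hnn hv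
          rw [if_pos ⟨hne, hcv⟩] at f3
          linarith
    have e3 : ∑ v ∈ T, K v = ∑ v ∈ T, ∑ u ∈ U, β u * a u v -
        ∑ v ∈ T, ∑ u ∈ U with u ≠ v ∧ conf u v, β u := by
      simp only [hK]
      rw [Finset.sum_sub_distrib]
    rw [e3]
    linarith
  have c5 : ∑ T, z T ^ 2 / w T * (n - m) ≤ 0 := by
    refine le_trans ?_ c3
    rw [← Finset.sum_sub_distrib]
    apply Finset.sum_le_sum
    intro T _
    rw [← Finset.mul_sum, ← mul_sub]
    by_cases hT : z T = 0
    · rw [hT]; simp
    · exact mul_le_mul_of_nonneg_left (c4 T hT) (div_nonneg (sq_nonneg _) (hw0 T))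
  have hnm : 0 < n - m := by linarith
  have c6 : ∀ T ∈ (univ : Finset (Finset V)), 0 ≤ z T ^ 2 / w T * (n - m) := fun T _ =>
    mul_nonneg (div_nonneg (sq_nonneg _) (hw0 T)) hnm.le
  intro T
  by_contra hT
  have hX := (hz T hT).1
  have hwT := hwpos T hX.1
  have c7 := Finset.single_le_sum c6 (mem_univ T)
  have c8 : 0 < z T ^ 2 / w T * (n - m) := by positivity
  linarith

/-- supported on the conflict free subsets of `U` with `m` elements -/
def Supp (conf : V → V → Prop) (U : Finset V) (m : ℕ) (z : Finset V → ℝ) : Prop :=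
  ∀ T, z T ≠ 0 → IsX conf U T ∧ T.card = m

theorem supp_bd {ε : V → V → ℝ} {conf : V → V → Prop} {U : Finset V} {m : ℕ}
    {y : Finset V → ℝ} (hy : Supp conf U (m + 1) y) : Supp conf U m (bd ε y) := by
  intro T hT
  obtain ⟨v, hv, hne⟩ := Finset.exists_ne_zero_of_sum_ne_zero hT
  have h1 : y (insert v T) ≠ 0 := fun h => hne (by rw [h, mul_zero])
  have hv' : v ∉ T := by simpa using hv
  obtain ⟨hX, hc⟩ := hy _ h1
  refine ⟨hX.mono (Finset.subset_insert _ _), ?_⟩
  rw [Finset.card_insert_of_notMem hv'] at hc
  omega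

theorem supp_dl {ε : V → V → ℝ} {conf : V → V → Prop} {U : Finset V} {β : V → ℝ} {m : ℕ}
    {z : Finset V → ℝ} (hz : Supp conf U m z) : Supp conf U (m + 1) (dl ε conf U β z) := by
  classical
  intro S hS
  unfold dl at hS
  by_cases hX : IsX conf U S
  · rw [if_pos hX] at hS
    obtain ⟨v, hv, hne⟩ := Finset.exists_ne_zero_of_sum_ne_zero hS
    have h1 : z (S.erase v) ≠ 0 := fun h => hne (by rw [h, mul_zero])
    refine ⟨hX, ?_⟩
    have hc := (hz _ h1).2
    rw [Finset.card_erase_of_mem hv] at hc
    have : 0 < S.card := Finset.card_pos.mpr ⟨v, hv⟩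
    omega
  · rw [if_neg hX] at hS
    exact absurd rfl hS

/-- `bd` as a linear map -/
noncomputable def bdL (ε : V → V → ℝ) : (Finset V → ℝ) →ₗ[ℝ] (Finset V → ℝ) where
  toFun z := bd ε z
  map_add' x y := by
    funext T
    simp only [bd, Pi.add_apply, mul_add, Finset.sum_add_distrib]
  map_smul' r x := by
    funext T
    simp only [bd, Pi.smul_apply, smul_eq_mul, RingHom.id_apply, Finset.mul_sum]
    apply Finset.sum_congr rfl
    intro v _
    ring

open Classical in
/-- `dl` as a linear map -/
noncomputable def dlL (ε : V → V → ℝ) (conf : V → V → Prop) (U : Finset V) (β : V → ℝ) :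
    (Finset V → ℝ) →ₗ[ℝ] (Finset V → ℝ) where
  toFun z := dl ε conf U β z
  map_add' x y := by
    funext S
    simp only [dl, Pi.add_apply]
    split_ifs
    · rw [← Finset.sum_add_distrib]
      apply Finset.sum_congr rfl
      intro v _
      ring
    · simp
  map_smul' r x := by
    funext S
    simp only [dl, Pi.smul_apply, smul_eq_mul, RingHom.id_apply]
    split_ifs
    · rw [Finset.mul_sum]
      apply Finset.sum_congr rfl
      intro v _
      ring
    · simp

/-- the cycles of size `m` -/
def cyc (ε : V → V → ℝ) (conf : V → V → Prop) (U : Finset V) (m : ℕ) :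
    Submodule ℝ (Finset V → ℝ) where
  carrier := {z | Supp conf U m z ∧ bdL ε z = 0}
  zero_mem' := ⟨fun T hT => absurd rfl hT, map_zero _⟩
  add_mem' := by
    rintro x y ⟨hx, hx'⟩ ⟨hy, hy'⟩
    refine ⟨?_, by rw [map_add, hx', hy', add_zero]⟩
    intro T hT
    by_cases h : x T = 0
    · apply hy
      intro h'
      apply hT
      simp [h, h']
    · exact hx T h
  smul_mem' := by
    rintro r x ⟨hx, hx'⟩
    refine ⟨?_, by rw [map_smul, hx', smul_zero]⟩
    intro T hT
    apply hx
    intro h
    apply hT
    simp [h]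

theorem exact {ε : V → V → ℝ} (h : Sign ε) (conf : V → V → Prop)
    (hconf : ∀ u v, conf u v → conf v u) (a : V → V → ℝ)
    (ha0 : ∀ u v, 0 ≤ a u v) (has : ∀ u v, a u v = a v u)
    (ha1 : ∀ u v, u ≠ v → conf u v → 1 ≤ a u v)
    (hpsd : ∀ f : V → ℝ, 0 ≤ ∑ v, ∑ u, f v * f u * a u v) (U : Finset V) (β : V → ℝ)
    (hβ : ∀ v ∈ U, 0 < β v) (hβ0 : ∀ v, 0 ≤ β v)
    (h2 : ∀ v ∈ U, ∑ u ∈ U, β u * a u v ≤ 1) (m : ℕ) (hm : (m : ℝ) < ∑ v ∈ U, β v)
    (z : Finset V → ℝ) (hz : Supp conf U m z) (hc : ∀ T, bd ε z T = 0) :
    ∃ y, Supp conf U (m + 1) y ∧ ∀ T, bd ε y T = z T := by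
  have hmap : ∀ x ∈ cyc ε conf U m, (bdL ε ∘ₗ dlL ε conf U β) x ∈ cyc ε conf U m := by
    rintro x ⟨hx, _⟩
    refine ⟨supp_bd (supp_dl hx), ?_⟩
    funext T
    exact bd_bd h _ T
  have hinj : Function.Injective ((bdL ε ∘ₗ dlL ε conf U β).restrict hmap) := by
    rw [injective_iff_map_eq_zero]
    rintro ⟨x, hx, hx'⟩ h0
    have h1 : (bdL ε ∘ₗ dlL ε conf U β) x = 0 := congrArg Subtype.val h0
    have h3 := energy h conf hconf a ha0 has ha1 hpsd U β hβ hβ0 h2 m hm x hx
      (fun T => congrFun hx' T) (fun T => congrFun h1 T)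
    apply Subtype.ext
    funext T
    exact h3 T
  have hsurj := LinearMap.injective_iff_surjective.mp hinj
  obtain ⟨⟨x, hx, hx'⟩, h0⟩ := hsurj ⟨z, hz, funext hc⟩
  refine ⟨dl ε conf U β x, supp_dl hx, ?_⟩
  intro T
  exact congrFun (congrArg Subtype.val h0) T

section Hall

variable {ι : Type*} [Fintype ι] [DecidableEq ι]

/-- a standard antisymmetric sign -/
noncomputable def stdSign (α : Type*) [Fintype α] (u v : α) : ℝ :=
  if Fintype.equivFin α v < Fintype.equivFin α u then -1 else 1

theorem sign_stdSign (α : Type*) [Fintype α] : Sign (stdSign α) := by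
  refine ⟨?_, ?_⟩
  · intro u v
    unfold stdSign
    split_ifs <;> norm_num
  · intro u v huv
    have h : Fintype.equivFin α u ≠ Fintype.equivFin α v := fun h =>
      huv ((Fintype.equivFin α).injective h)
    unfold stdSign
    rcases lt_or_gt_of_ne h with h1 | h1
    · rw [if_neg (not_lt.mpr h1.le), if_pos h1]; norm_num
    · rw [if_pos h1, if_neg (not_lt.mpr h1.le)]

/-- the sign on the elements which comes from the colours -/
noncomputable def colSign (c : V → ι) (u v : V) : ℝ :=
  if c u = c v then stdSign V u v else stdSign ι (c u) (c v)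

theorem sign_colSign (c : V → ι) : Sign (colSign c) := by
  refine ⟨?_, ?_⟩
  · intro u v
    unfold colSign
    split_ifs
    · exact (sign_stdSign V).sq u v
    · exact (sign_stdSign ι).sq _ _
  · intro u v huv
    unfold colSign
    by_cases h : c u = c v
    · rw [if_pos h, if_pos h.symm]
      exact (sign_stdSign V).anti u v huv
    · rw [if_neg h, if_neg (fun h' => h h'.symm)]
      exact (sign_stdSign ι).anti _ _ h

/-- `T` has exactly one element of each colour in `S`, and no other element -/
def Rb (c : V → ι) (S : Finset ι) (T : Finset V) : Prop := Set.InjOn c T ∧ T.image c = S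

theorem rb_count {c : V → ι} {S : Finset ι} {T : Finset V} (h : Rb c S T) (j : ι) :
    (∑ v ∈ T, if j = c v then (1 : ℝ) else 0) = if j ∈ S then 1 else 0 := by
  have h1 := Finset.sum_image (s := T) (g := c) (f := fun k => if j = k then (1 : ℝ) else 0)
    h.1
  rw [← h1, h.2, Finset.sum_ite_eq]

theorem sg_col {c : V → ι} {S : Finset ι} {R : Finset V} (h : Rb c S R) {v : V}
    (hv : c v ∉ S) : sg (colSign c) v R = sg (stdSign ι) (c v) S := by
  unfold sg
  rw [← h.2, Finset.prod_image h.1]
  apply Finset.prod_congr rfl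
  intro w hw
  have : c v ≠ c w := by
    intro e
    apply hv
    rw [e, ← h.2]
    exact Finset.mem_image_of_mem c hw
  unfold colSign
  rw [if_neg this]

open Classical in
theorem rb1 (c : V → ι) (S : Finset ι) (z : Finset V → ℝ) :
    ∑ T : Finset V, (if Rb c S T then ∑ v ∈ Tᶜ, (if c v ∈ S then
      sg (colSign c) v T * z (insert v T) else 0) else 0) = 0 := by
  have hε := sign_colSign c
  set F : Finset V → V → ℝ := fun R v' => if Rb c S (insert v' R) then
    ∑ v ∈ (insert v' R)ᶜ, (if c v = c v' then
      sg (colSign c) v (insert v' R) * z (insert v (insert v' R)) else 0) else 0 with hF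
  have e1 : ∀ T : Finset V, (if Rb c S T then ∑ v ∈ Tᶜ, (if c v ∈ S then
      sg (colSign c) v T * z (insert v T) else 0) else 0) = ∑ v' ∈ T, F (T.erase v') v' := by
    intro T
    by_cases hT : Rb c S T
    · rw [if_pos hT]
      have e2 : ∀ v' ∈ T, F (T.erase v') v' = ∑ v ∈ Tᶜ, (if c v = c v' then (1 : ℝ) else 0) *
          (sg (colSign c) v T * z (insert v T)) := by
        intro v' hv'
        simp only [hF]
        rw [Finset.insert_erase hv', if_pos hT]
        apply Finset.sum_congr rfl
        intro v _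
        split_ifs <;> simp
      rw [Finset.sum_congr rfl e2, Finset.sum_comm]
      apply Finset.sum_congr rfl
      intro v _
      rw [← Finset.sum_mul, rb_count hT]
      split_ifs <;> simp
    · rw [if_neg hT]
      symm
      apply Finset.sum_eq_zero
      intro v' hv'
      simp only [hF]
      rw [Finset.insert_erase hv', if_neg hT]
  rw [Finset.sum_congr rfl (fun T _ => e1 T), reindex]
  apply Finset.sum_eq_zero
  intro R _
  set G : V → V → ℝ := fun v' v => if v' ∉ R ∧ v ∉ R ∧ v ≠ v' ∧ c v = c v' ∧
    Rb c S (insert v' R) then sg (colSign c) v (insert v' R) * z (insert v (insert v' R)) else 0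
    with hG
  have e3 : ∑ v' ∈ Rᶜ, F R v' = ∑ v', ∑ v, G v' v := by
    have : ∑ v', ∑ v, G v' v = ∑ v' ∈ Rᶜ, ∑ v, G v' v := by
      symm
      apply Finset.sum_subset (Finset.subset_univ _)
      intro v' _ hv'
      apply Finset.sum_eq_zero
      intro v _
      simp only [hG]
      rw [if_neg]
      rintro ⟨h1, _⟩
      exact hv' (by simpa using h1)
    rw [this]
    apply Finset.sum_congr rfl
    intro v' hv'
    have hv'' : v' ∉ R := by simpa using hv'
    have e4 : ∑ v, G v' v = ∑ v ∈ (insert v' R)ᶜ, G v' v := by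
      symm
      apply Finset.sum_subset (Finset.subset_univ _)
      intro v _ hv
      simp only [hG]
      rw [if_neg]
      rintro ⟨_, h2, h3, _⟩
      apply hv
      rw [mem_compl, mem_insert, not_or]
      exact ⟨h3, h2⟩
    rw [e4]
    simp only [hF]
    by_cases hX : Rb c S (insert v' R)
    · rw [if_pos hX]
      apply Finset.sum_congr rfl
      intro v hv
      rw [mem_compl, mem_insert, not_or] at hv
      simp only [hG]
      by_cases hcc : c v = c v'
      · rw [if_pos hcc, if_pos ⟨hv'', hv.2, hv.1, hcc, hX⟩]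
      · rw [if_neg hcc, if_neg (fun h => hcc h.2.2.2.1)]
    · rw [if_neg hX]
      symm
      apply Finset.sum_eq_zero
      intro v _
      simp only [hG]
      rw [if_neg (fun h => hX h.2.2.2.2)]
  have key2 : ∀ v' v, v' ∉ R → v ∉ R → v ≠ v' → c v = c v' → Rb c S (insert v' R) →
      Rb c S (insert v R) ∧ G v' v = - G v v' := by
    intro v' v h1 h2 h3 h4 h5
    have hinj : ∀ x y, x ∈ insert v' R → y ∈ insert v' R → c x = c y → x = y :=
      fun x y hx hy h => h5.1 (Finset.mem_coe.mpr hx) (Finset.mem_coe.mpr hy) h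
    have h6 : Rb c S (insert v R) := by
      refine ⟨?_, ?_⟩
      · intro x hx y hy hxy
        rw [Finset.mem_coe, mem_insert] at hx hy
        rcases hx with rfl | hx
        · rcases hy with rfl | hy
          · rfl
          · exfalso
            have := hinj v' y (by simp) (by simp [hy]) (by rw [← h4, hxy])
            exact h1 (this ▸ hy)
        · rcases hy with rfl | hy
          · exfalso
            have := hinj v' x (by simp) (by simp [hx]) (by rw [← h4, ← hxy])
            exact h1 (this ▸ hx)
          · exact hinj x y (by simp [hx]) (by simp [hy]) hxy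
      · rw [Finset.image_insert, h4, ← Finset.image_insert]
        exact h5.2
    refine ⟨h6, ?_⟩
    simp only [hG]
    rw [if_pos ⟨h1, h2, h3, h4, h5⟩, if_pos ⟨h2, h1, h3.symm, h4.symm, h6⟩]
    rw [Finset.insert_comm v v' R, sg_insert _ v h1, sg_insert _ v' h2, hε.anti v v' h3]
    have h7 : sg (colSign c) v R = sg (colSign c) v' R := by
      unfold sg
      apply Finset.prod_congr rfl
      intro w hw
      have h8 : c v' ≠ c w := by
        intro e
        have := hinj v' w (by simp) (by simp [hw]) e
        exact h1 (this ▸ hw)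
      unfold colSign
      rw [if_neg (by rw [h4]; exact h8), if_neg h8, h4]
    rw [h7]
    ring
  have anti : ∀ v' v, G v' v = - G v v' := by
    intro v' v
    by_cases hcnd : v' ∉ R ∧ v ∉ R ∧ v ≠ v' ∧ c v = c v' ∧ Rb c S (insert v' R)
    · exact (key2 v' v hcnd.1 hcnd.2.1 hcnd.2.2.1 hcnd.2.2.2.1 hcnd.2.2.2.2).2
    · have h1 : G v' v = 0 := by
        simp only [hG]
        rw [if_neg hcnd]
      have h2 : G v v' = 0 := by
        simp only [hG]
        rw [if_neg]
        rintro ⟨h3, h4, h5, h6, h7⟩
        exact hcnd ⟨h4, h3, h5.symm, h6.symm, (key2 v v' h3 h4 h5 h6 h7).1⟩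
      rw [h1, h2, neg_zero]
  rw [e3]
  have h2 : ∑ v', ∑ v, G v' v = - ∑ v', ∑ v, G v' v := by
    conv_lhs => rw [Finset.sum_comm]
    rw [← Finset.sum_neg_distrib]
    apply Finset.sum_congr rfl
    intro v _
    rw [← Finset.sum_neg_distrib]
    apply Finset.sum_congr rfl
    intro u _
    exact anti u v
  linarith

open Classical in
theorem rb2 (c : V → ι) (S : Finset ι) (i : ι) (hi : i ∉ S) (z : Finset V → ℝ) :
    ∑ T : Finset V, (if Rb c S T then ∑ v ∈ Tᶜ, (if c v = i then
      sg (colSign c) v T * z (insert v T) else 0) else 0) =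
    sg (stdSign ι) i S * ∑ T : Finset V, (if Rb c (insert i S) T then z T else 0) := by
  set F : Finset V → V → ℝ := fun R v => if Rb c S R ∧ c v = i then
    sg (stdSign ι) i S * z (insert v R) else 0 with hF
  have e1 : ∑ T : Finset V, (if Rb c S T then ∑ v ∈ Tᶜ, (if c v = i then
      sg (colSign c) v T * z (insert v T) else 0) else 0) =
      ∑ R : Finset V, ∑ v ∈ Rᶜ, F R v := by
    apply Finset.sum_congr rfl
    intro R _
    by_cases hR : Rb c S R
    · rw [if_pos hR]
      apply Finset.sum_congr rfl
      intro v _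
      simp only [hF]
      by_cases hv : c v = i
      · rw [if_pos hv, if_pos ⟨hR, hv⟩, sg_col hR (by rw [hv]; exact hi), hv]
      · rw [if_neg hv, if_neg (fun h => hv h.2)]
    · rw [if_neg hR]
      symm
      apply Finset.sum_eq_zero
      intro v _
      simp only [hF]
      rw [if_neg (fun h => hR h.1)]
  rw [e1, ← reindex, Finset.mul_sum]
  apply Finset.sum_congr rfl
  intro T _
  have e2 : ∀ v ∈ T, F (T.erase v) v = (if i = c v then (1 : ℝ) else 0) *
      (if Rb c (insert i S) T then sg (stdSign ι) i S * z T else 0) := by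
    intro v hv
    simp only [hF]
    rw [Finset.insert_erase hv]
    by_cases hvi : c v = i
    · rw [if_pos hvi.symm, one_mul]
      have hiff : (Rb c S (T.erase v) ∧ c v = i) ↔ Rb c (insert i S) T := by
        constructor
        · rintro ⟨⟨h1, h2⟩, _⟩
          have hnot : ∀ w ∈ T.erase v, c w ≠ c v := by
            intro w hw e
            apply hi
            rw [← hvi, ← e, ← h2]
            exact Finset.mem_image_of_mem c hw
          refine ⟨?_, ?_⟩
          · intro x hx y hy hxy
            rw [Finset.mem_coe] at hx hy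
            by_cases hxv : x = v
            · by_cases hyv : y = v
              · rw [hxv, hyv]
              · exact absurd (by rw [← hxy, hxv]) (hnot y (Finset.mem_erase.mpr ⟨hyv, hy⟩))
            · by_cases hyv : y = v
              · exact absurd (by rw [hxy, hyv]) (hnot x (Finset.mem_erase.mpr ⟨hxv, hx⟩))
              · exact h1 (Finset.mem_coe.mpr (Finset.mem_erase.mpr ⟨hxv, hx⟩))
                  (Finset.mem_coe.mpr (Finset.mem_erase.mpr ⟨hyv, hy⟩)) hxy
          · rw [← h2, ← hvi, ← Finset.image_insert, Finset.insert_erase hv]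
        · rintro ⟨h1, h2⟩
          refine ⟨⟨?_, ?_⟩, hvi⟩
          · intro x hx y hy hxy
            rw [Finset.mem_coe] at hx hy
            exact h1 (Finset.mem_coe.mpr (Finset.mem_of_mem_erase hx))
              (Finset.mem_coe.mpr (Finset.mem_of_mem_erase hy)) hxy
          · ext j
            constructor
            · intro hj
              rw [Finset.mem_image] at hj
              obtain ⟨w, hw, rfl⟩ := hj
              have hw' := Finset.mem_erase.mp hw
              have h3 : c w ∈ insert i S := by
                rw [← h2]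
                exact Finset.mem_image_of_mem c hw'.2
              rw [mem_insert] at h3
              rcases h3 with h3 | h3
              · exfalso
                exact hw'.1 (h1 (Finset.mem_coe.mpr hw'.2) (Finset.mem_coe.mpr hv)
                  (by rw [h3, hvi]))
              · exact h3
            · intro hj
              have h3 : j ∈ T.image c := by
                rw [h2]
                exact Finset.mem_insert_of_mem hj
              rw [Finset.mem_image] at h3 ⊢
              obtain ⟨w, hw, rfl⟩ := h3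
              refine ⟨w, Finset.mem_erase.mpr ⟨?_, hw⟩, rfl⟩
              rintro rfl
              exact hi (hvi ▸ hj)
      by_cases hR : Rb c (insert i S) T
      · rw [if_pos (hiff.mpr hR), if_pos hR]
      · rw [if_neg (fun h => hR (hiff.mp h)), if_neg hR]
    · rw [if_neg (fun h => hvi h.2), if_neg (fun h => hvi h.symm), zero_mul]
  rw [Finset.sum_congr rfl e2, ← Finset.sum_mul]
  by_cases hR : Rb c (insert i S) T
  · rw [if_pos hR, if_pos hR, rb_count hR, if_pos (Finset.mem_insert_self i S), one_mul]
  · rw [if_neg hR, if_neg hR, mul_zero, mul_zero]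

theorem dd {ε : ι → ι → ℝ} (h : Sign ε) (D : Finset ι → ℝ) (S : Finset ι) :
    ∑ i ∈ S, sg ε i (S.erase i) * ∑ j ∈ S.erase i, sg ε j ((S.erase i).erase j) *
      D ((S.erase i).erase j) = 0 := by
  classical
  set G : ι → ι → ℝ := fun i j => if i ∈ S ∧ j ∈ S ∧ j ≠ i then
    sg ε i (S.erase i) * (sg ε j ((S.erase i).erase j) * D ((S.erase i).erase j)) else 0 with hG
  have e1 : ∑ i ∈ S, sg ε i (S.erase i) * ∑ j ∈ S.erase i, sg ε j ((S.erase i).erase j) *
      D ((S.erase i).erase j) = ∑ i, ∑ j, G i j := by
    have e2 : ∑ i, ∑ j, G i j = ∑ i ∈ S, ∑ j, G i j := by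
      symm
      apply Finset.sum_subset (Finset.subset_univ _)
      intro i _ hi
      apply Finset.sum_eq_zero
      intro j _
      simp only [hG]
      rw [if_neg (fun h' => hi h'.1)]
    rw [e2]
    apply Finset.sum_congr rfl
    intro i hi
    have e3 : ∑ j, G i j = ∑ j ∈ S.erase i, G i j := by
      symm
      apply Finset.sum_subset (Finset.subset_univ _)
      intro j _ hj
      simp only [hG]
      rw [if_neg]
      rintro ⟨_, h2, h3⟩
      exact hj (Finset.mem_erase.mpr ⟨h3, h2⟩)
    rw [e3, Finset.mul_sum]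
    apply Finset.sum_congr rfl
    intro j hj
    have hj' := Finset.mem_erase.mp hj
    simp only [hG]
    rw [if_pos ⟨hi, hj'.2, hj'.1⟩]
  have anti : ∀ i j, G i j = - G j i := by
    intro i j
    simp only [hG]
    by_cases hc : i ∈ S ∧ j ∈ S ∧ j ≠ i
    · rw [if_pos hc, if_pos ⟨hc.2.1, hc.1, hc.2.2.symm⟩]
      have e4 : (S.erase j).erase i = (S.erase i).erase j := Finset.erase_right_comm
      have e5 : S.erase i = insert j ((S.erase i).erase j) := by
        rw [Finset.insert_erase (Finset.mem_erase.mpr ⟨hc.2.2, hc.2.1⟩)]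
      have e6 : S.erase j = insert i ((S.erase j).erase i) := by
        rw [Finset.insert_erase (Finset.mem_erase.mpr ⟨hc.2.2.symm, hc.1⟩)]
      have e7 : sg ε i (S.erase i) = ε i j * sg ε i ((S.erase i).erase j) := by
        conv_lhs => rw [e5]
        rw [sg_insert ε i (by simp)]
      have e8 : sg ε j (S.erase j) = ε j i * sg ε j ((S.erase j).erase i) := by
        conv_lhs => rw [e6]
        rw [sg_insert ε j (by simp)]
      rw [e7, e8, e4, h.anti i j hc.2.2.symm]
      ring
    · rw [if_neg hc, if_neg (fun h' => hc ⟨h'.2.1, h'.1, h'.2.2.symm⟩)]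
      simp
  have h2 : ∑ i, ∑ j, G i j = - ∑ i, ∑ j, G i j := by
    conv_lhs => rw [Finset.sum_comm]
    rw [← Finset.sum_neg_distrib]
    apply Finset.sum_congr rfl
    intro v _
    rw [← Finset.sum_neg_distrib]
    apply Finset.sum_congr rfl
    intro u _
    exact anti u v
  rw [e1]
  linarith

/-- linear combinations commute with `bd` -/
theorem bd_sum (ε : V → V → ℝ) {κ : Type*} (S : Finset κ) (r : κ → ℝ) (f : κ → Finset V → ℝ)
    (T : Finset V) :
    bd ε (fun T => ∑ i ∈ S, r i * f i T) T = ∑ i ∈ S, r i * bd ε (f i) T := by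
  unfold bd
  simp only [Finset.mul_sum]
  rw [Finset.sum_comm]
  apply Finset.sum_congr rfl
  intro i _
  apply Finset.sum_congr rfl
  intro v _
  ring

open Classical in
theorem chains (c : V → ι) (conf : V → V → Prop)
    (hconf : ∀ u v, conf u v → conf v u) (a : V → V → ℝ)
    (ha0 : ∀ u v, 0 ≤ a u v) (has : ∀ u v, a u v = a v u)
    (ha1 : ∀ u v, u ≠ v → conf u v → 1 ≤ a u v)
    (hpsd : ∀ f : V → ℝ, 0 ≤ ∑ v, ∑ u, f v * f u * a u v) (U : Finset V) (β : V → ℝ)
    (hβ : ∀ v ∈ U, 0 < β v) (hβ0 : ∀ v, 0 ≤ β v)
    (h2 : ∀ v ∈ U, ∑ u ∈ U, β u * a u v ≤ 1)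
    (h1 : ∀ S : Finset ι, S.Nonempty → (S.card : ℝ) - 1 < ∑ v ∈ U with c v ∈ S, β v) (n : ℕ) :
    ∃ C : Finset ι → Finset V → ℝ, ∀ S : Finset ι, S.card ≤ n →
      Supp conf (U.filter (fun v => c v ∈ S)) S.card (C S) ∧ (S = ∅ → C S ∅ = 1) ∧
      (S.Nonempty → ∀ T, bd (colSign c) (C S) T =
        ∑ i ∈ S, sg (stdSign ι) i (S.erase i) * C (S.erase i) T) := by
  induction n with
  | zero =>
    refine ⟨fun _ T => if T = ∅ then 1 else 0, ?_⟩
    intro S hS
    have hS' : S = ∅ := Finset.card_eq_zero.mp (Nat.le_zero.mp hS)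
    subst hS'
    refine ⟨?_, fun _ => by simp, fun h => absurd h (by simp)⟩
    intro T hT
    by_cases h : T = ∅
    · subst h
      refine ⟨⟨by simp, ?_⟩, by simp⟩
      intro u hu
      simp at hu
    · simp [h] at hT
  | succ n ih =>
    obtain ⟨C, hC⟩ := ih
    have step : ∀ S : Finset ι, S.card = n + 1 → ∃ y : Finset V → ℝ,
        Supp conf (U.filter (fun v => c v ∈ S)) (n + 1) y ∧
        ∀ T, bd (colSign c) y T =
          ∑ i ∈ S, sg (stdSign ι) i (S.erase i) * C (S.erase i) T := by
      intro S hS
      have hSne : S.Nonempty := Finset.card_pos.mp (by omega)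
      have hcard : ∀ i ∈ S, (S.erase i).card = n := by
        intro i hi
        rw [Finset.card_erase_of_mem hi, hS]
        rfl
      apply exact (sign_colSign c) conf hconf a ha0 has ha1 hpsd
        (U.filter (fun v => c v ∈ S)) β (fun v hv => hβ v (Finset.mem_filter.mp hv).1) hβ0
      · intro v hv
        refine le_trans ?_ (h2 v (Finset.mem_filter.mp hv).1)
        apply Finset.sum_le_sum_of_subset_of_nonneg (Finset.filter_subset _ _)
        intro u _ _
        exact mul_nonneg (hβ0 u) (ha0 u v)
      · have := h1 S hSne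
        rw [hS] at this
        push_cast at this
        linarith
      · intro T hT
        obtain ⟨i, hi, hne⟩ := Finset.exists_ne_zero_of_sum_ne_zero hT
        have h3 : C (S.erase i) T ≠ 0 := fun h => hne (by rw [h, mul_zero])
        obtain ⟨h4, h5⟩ := (hC (S.erase i) (by rw [hcard i hi])).1 T h3
        refine ⟨⟨?_, h4.2⟩, by rw [h5, hcard i hi]⟩
        intro v hv
        have h6 := Finset.mem_filter.mp (h4.1 hv)
        exact Finset.mem_filter.mpr ⟨h6.1, Finset.mem_of_mem_erase h6.2⟩
      · intro T
        rw [bd_sum]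
        by_cases hn : n = 0
        · subst hn
          apply Finset.sum_eq_zero
          intro i hi
          have h3 : bd (colSign c) (C (S.erase i)) T = 0 := by
            apply Finset.sum_eq_zero
            intro v hv
            have h4 : C (S.erase i) (insert v T) = 0 := by
              by_contra h5
              have h6 := ((hC (S.erase i) (by rw [hcard i hi])).1 _ h5).2
              rw [hcard i hi, Finset.card_insert_of_notMem (by simpa using hv)] at h6
              omega
            rw [h4, mul_zero]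
          rw [h3, mul_zero]
        · have h3 : ∀ i ∈ S, sg (stdSign ι) i (S.erase i) *
              bd (colSign c) (C (S.erase i)) T =
              sg (stdSign ι) i (S.erase i) * ∑ j ∈ S.erase i,
                sg (stdSign ι) j ((S.erase i).erase j) * C ((S.erase i).erase j) T := by
            intro i hi
            rw [(hC (S.erase i) (by rw [hcard i hi])).2.2
              (Finset.card_pos.mp (by rw [hcard i hi]; omega)) T]
          rw [Finset.sum_congr rfl h3]
          exact dd (sign_stdSign ι) (fun Q => C Q T) S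
    choose y hy1 hy2 using step
    have hex : ∃ C' : Finset ι → Finset V → ℝ,
        (∀ (S : Finset ι) (h : S.card = n + 1), C' S = y S h) ∧
        (∀ S : Finset ι, S.card ≠ n + 1 → C' S = C S) :=
      ⟨fun S => if h : S.card = n + 1 then y S h else C S, fun S h => dif_pos h,
        fun S h => dif_neg h⟩
    obtain ⟨C', hC1, hC2⟩ := hex
    refine ⟨C', ?_⟩
    intro S hS
    by_cases h : S.card = n + 1
    · have hSne : S.Nonempty := Finset.card_pos.mp (by omega)
      refine ⟨?_, ?_, ?_⟩
      · rw [hC1 S h, h]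
        exact hy1 S h
      · intro h'
        rw [h'] at h
        simp at h
      · intro _ T
        rw [hC1 S h, hy2 S h T]
        apply Finset.sum_congr rfl
        intro i hi
        rw [hC2 (S.erase i)]
        rw [Finset.card_erase_of_mem hi, h]
        omega
    · have hle : S.card ≤ n := by omega
      obtain ⟨g1, g2, g3⟩ := hC S hle
      refine ⟨?_, ?_, ?_⟩
      · rw [hC2 S h]; exact g1
      · intro h'
        rw [hC2 S h]; exact g2 h'
      · intro hne T
        rw [hC2 S h, g3 hne T]
        apply Finset.sum_congr rfl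
        intro i hi
        rw [hC2 (S.erase i)]
        rw [Finset.card_erase_of_mem hi]
        omega

open Classical in
/-- **Rainbow theorem**, general form: a fractional weight with every class of weight (nearly) at
least 1 and every vertex of positive weight seeing weight at most 1 gives a conflict free choice. -/
theorem rainbow (c : V → ι) (conf : V → V → Prop)
    (hconf : ∀ u v, conf u v → conf v u) (a : V → V → ℝ)
    (ha0 : ∀ u v, 0 ≤ a u v) (has : ∀ u v, a u v = a v u)
    (ha1 : ∀ u v, u ≠ v → conf u v → 1 ≤ a u v)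
    (hpsd : ∀ f : V → ℝ, 0 ≤ ∑ v, ∑ u, f v * f u * a u v) (β : V → ℝ) (hβ0 : ∀ v, 0 ≤ β v)
    (h2 : ∀ v, 0 < β v → ∑ u, β u * a u v ≤ 1)
    (h1 : ∀ S : Finset ι, S.Nonempty → (S.card : ℝ) - 1 < ∑ v with c v ∈ S, β v) :
    ∃ t : ι → V, (∀ x, c (t x) = x) ∧ (∀ x, 0 < β (t x)) ∧
      ∀ x y, x ≠ y → ¬ conf (t x) (t y) := by
  set U : Finset V := univ.filter (fun v => 0 < β v) with hU
  have hUm : ∀ v, v ∈ U ↔ 0 < β v := fun v => by simp [hU]
  have h2' : ∀ v ∈ U, ∑ u ∈ U, β u * a u v ≤ 1 := by
    intro v hv
    refine le_trans ?_ (h2 v ((hUm v).mp hv))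
    apply Finset.sum_le_sum_of_subset_of_nonneg (Finset.subset_univ _)
    intro u _ _
    exact mul_nonneg (hβ0 u) (ha0 u v)
  have h1' : ∀ S : Finset ι, S.Nonempty → (S.card : ℝ) - 1 < ∑ v ∈ U with c v ∈ S, β v := by
    intro S hS
    refine lt_of_lt_of_le (h1 S hS) (le_of_eq ?_)
    rw [Finset.sum_filter, Finset.sum_filter]
    symm
    apply Finset.sum_subset (Finset.subset_univ _)
    intro v _ hv
    have : β v = 0 := le_antisymm (not_lt.mp (fun h => hv ((hUm v).mpr h))) (hβ0 v)
    rw [this]
    simp
  obtain ⟨C, hC⟩ := chains c conf hconf a ha0 has ha1 hpsd U β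
    (fun v hv => (hUm v).mp hv) hβ0 h2' h1' (Fintype.card ι)
  have hcard : ∀ S : Finset ι, S.card ≤ Fintype.card ι := fun S => Finset.card_le_univ S
  have hone : ∀ n : ℕ, ∀ S : Finset ι, S.card = n →
      ∑ T : Finset V, (if Rb c S T then C S T else 0) = 1 := by
    intro n
    induction n with
    | zero =>
      intro S hS
      have hS' : S = ∅ := Finset.card_eq_zero.mp hS
      subst hS'
      rw [Finset.sum_eq_single ∅]
      · rw [if_pos ⟨by simp, by simp⟩]
        exact (hC ∅ (by simp)).2.1 rfl
      · intro T _ hT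
        rw [if_neg]
        rintro ⟨_, h3⟩
        exact hT (Finset.image_eq_empty.mp h3)
      · intro h3
        exact absurd (mem_univ _) h3
    | succ n ih =>
      intro S hS
      have hSne : S.Nonempty := Finset.card_pos.mp (by omega)
      obtain ⟨i, hi⟩ := hSne
      obtain ⟨g1, _, g3⟩ := hC S (hcard S)
      have g4 := g3 ⟨i, hi⟩
      have hi' : i ∉ S.erase i := by simp
      have hins : insert i (S.erase i) = S := Finset.insert_erase hi
      have hc1 : (S.erase i).card = n := by
        rw [Finset.card_erase_of_mem hi, hS]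
        rfl
      -- left side
      have e1 : ∑ T : Finset V, (if Rb c (S.erase i) T then bd (colSign c) (C S) T else 0) =
          sg (stdSign ι) i (S.erase i) *
            ∑ T : Finset V, (if Rb c S T then C S T else 0) := by
        have r1 := rb1 c (S.erase i) (C S)
        have r2 := rb2 c (S.erase i) i hi' (C S)
        rw [hins] at r2
        rw [← r2]
        have r3 : ∑ T : Finset V, (if Rb c (S.erase i) T then bd (colSign c) (C S) T else 0) =
            (∑ T : Finset V, (if Rb c (S.erase i) T then ∑ v ∈ Tᶜ, (if c v = i then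
              sg (colSign c) v T * C S (insert v T) else 0) else 0)) +
            ∑ T : Finset V, (if Rb c (S.erase i) T then ∑ v ∈ Tᶜ, (if c v ∈ S.erase i then
              sg (colSign c) v T * C S (insert v T) else 0) else 0) := by
          rw [← Finset.sum_add_distrib]
          apply Finset.sum_congr rfl
          intro T _
          by_cases hT : Rb c (S.erase i) T
          · rw [if_pos hT, if_pos hT, if_pos hT, ← Finset.sum_add_distrib]
            unfold bd
            apply Finset.sum_congr rfl
            intro v _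
            by_cases hz : C S (insert v T) = 0
            · rw [hz]; simp
            · have h3 := (Finset.mem_filter.mp ((g1 _ hz).1.1 (Finset.mem_insert_self v T))).2
              by_cases hvi : c v = i
              · rw [if_pos hvi, if_neg (by rw [hvi]; exact hi'), add_zero]
              · rw [if_neg hvi, if_pos (Finset.mem_erase.mpr ⟨hvi, h3⟩), zero_add]
          · rw [if_neg hT, if_neg hT, if_neg hT, add_zero]
        rw [r3, r1, add_zero]
      -- right side
      have e2 : ∑ T : Finset V, (if Rb c (S.erase i) T then bd (colSign c) (C S) T else 0) =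
          sg (stdSign ι) i (S.erase i) := by
        have e3 : ∀ T : Finset V, (if Rb c (S.erase i) T then bd (colSign c) (C S) T else 0) =
            sg (stdSign ι) i (S.erase i) *
              (if Rb c (S.erase i) T then C (S.erase i) T else 0) := by
          intro T
          by_cases hT : Rb c (S.erase i) T
          · rw [if_pos hT, if_pos hT, g4 T]
            rw [Finset.sum_eq_single i]
            · intro j hj hji
              have h3 : C (S.erase j) T = 0 := by
                by_contra h4
                have h5 := ((hC (S.erase j) (hcard _)).1 T h4).1.1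
                have h6 : j ∈ S.erase i := Finset.mem_erase.mpr ⟨hji, hj⟩
                rw [← hT.2, Finset.mem_image] at h6
                obtain ⟨v, hv, hvj⟩ := h6
                have h7 := (Finset.mem_filter.mp (h5 hv)).2
                rw [hvj] at h7
                simp at h7
              rw [h3, mul_zero]
            · intro h3
              exact absurd hi h3
          · rw [if_neg hT, if_neg hT, mul_zero]
        rw [Finset.sum_congr rfl (fun T _ => e3 T), ← Finset.mul_sum, ih _ hc1, mul_one]
      rw [e1] at e2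
      have e5 := sg_sq (sign_stdSign ι) i (S.erase i)
      have e6 : sg (stdSign ι) i (S.erase i) ≠ 0 := by
        intro h0
        rw [h0] at e5
        simp at e5
      exact mul_left_cancel₀ e6 (by rw [e2, mul_one])
  have h5 := hone _ univ rfl
  have h6 : ∑ T : Finset V, (if Rb c univ T then C univ T else 0) ≠ 0 := by
    rw [h5]; exact one_ne_zero
  obtain ⟨T, _, hT⟩ := Finset.exists_ne_zero_of_sum_ne_zero h6
  have hRb : Rb c univ T := by
    by_contra h7
    rw [if_neg h7] at hT
    exact hT rfl
  rw [if_pos hRb] at hT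
  obtain ⟨hX, _⟩ := (hC univ (hcard _)).1 T hT
  have hex : ∀ x : ι, ∃ v ∈ T, c v = x := by
    intro x
    have : x ∈ T.image c := by rw [hRb.2]; exact mem_univ x
    rw [Finset.mem_image] at this
    exact this
  choose t ht1 ht2 using hex
  refine ⟨t, ht2, ?_, ?_⟩
  · intro x
    have := (Finset.mem_filter.mp (hX.1 (ht1 x))).1
    exact (hUm _).mp this
  · intro x y hxy
    apply hX.2 (t x) (ht1 x) (t y) (ht1 y)
    intro h7
    apply hxy
    rw [← ht2 x, ← ht2 y, h7]

open Classical in
theorem psd_fib {K : Type*} (r : V → K) (f : V → ℝ) :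
    0 ≤ ∑ v, ∑ u, f v * f u * (if r u = r v then (1 : ℝ) else 0) := by
  have e1 : ∀ v, ∑ u, f v * f u * (if r u = r v then (1 : ℝ) else 0) =
      f v * ∑ u with r u = r v, f u := by
    intro v
    rw [Finset.mul_sum, Finset.sum_filter]
    apply Finset.sum_congr rfl
    intro u _
    split_ifs <;> simp
  rw [Finset.sum_congr rfl (fun v _ => e1 v)]
  rw [← Finset.sum_fiberwise_of_maps_to (t := univ.image r)
    (fun v _ => Finset.mem_image_of_mem r (mem_univ v))]
  apply Finset.sum_nonneg
  intro x _
  have e2 : ∑ v with r v = x, f v * ∑ u with r u = r v, f u =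
      (∑ v with r v = x, f v) * (∑ v with r v = x, f v) := by
    rw [Finset.sum_mul]
    apply Finset.sum_congr rfl
    intro v hv
    rw [(Finset.mem_filter.mp hv).2]
  rw [e2]
  exact mul_self_nonneg _

open Classical in
theorem class_sum (c : V → ι) (β : V → ℝ) (h1 : ∀ x, 1 ≤ ∑ v with c v = x, β v)
    (S : Finset ι) : (S.card : ℝ) - 1 < ∑ v with c v ∈ S, β v := by
  have e1 : ∑ x ∈ S, ∑ v with c v = x, β v = ∑ v with c v ∈ S, β v := by
    rw [← Finset.sum_fiberwise_of_maps_to (s := univ.filter (fun v => c v ∈ S)) (t := S)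
      (fun v hv => (Finset.mem_filter.mp hv).2)]
    apply Finset.sum_congr rfl
    intro x hx
    apply Finset.sum_congr
    · ext v
      simp only [mem_filter, mem_univ, true_and]
      constructor
      · intro h
        exact ⟨h ▸ hx, h⟩
      · intro h
        exact h.2
    · intro v _
      rfl
  have e2 : (S.card : ℝ) ≤ ∑ x ∈ S, ∑ v with c v = x, β v := by
    calc (S.card : ℝ) = ∑ x ∈ S, (1 : ℝ) := by simp
      _ ≤ _ := Finset.sum_le_sum fun x _ => h1 x
  linarith

open Classical in
/-- **Rainbow theorem for coordinates**: `V` a finite set (of triples, say), `c` its colour (user),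
`r j` its coordinates.  If a weight `β ≥ 0` gives every user weight at least 1 and if for every `v`
with `β v > 0` the sum over `j` of the weight of the fibre of `r j` through `v` is at most 1, then
every user `x` can choose `t x` of positive weight so that all coordinates are different. -/
theorem rainbowJ {J : Type*} [Fintype J] {K : J → Type*} (c : V → ι) (r : ∀ j, V → K j)
    (β : V → ℝ) (hβ0 : ∀ v, 0 ≤ β v) (h1 : ∀ x, 1 ≤ ∑ v with c v = x, β v)
    (h2 : ∀ v, 0 < β v → ∑ j, ∑ u with r j u = r j v, β u ≤ 1) :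
    ∃ t : ι → V, (∀ x, c (t x) = x) ∧ (∀ x, 0 < β (t x)) ∧
      ∀ j, Function.Injective (fun x => r j (t x)) := by
  obtain ⟨t, t1, t2, t3⟩ := rainbow c (fun u v => ∃ j, r j u = r j v)
    (fun u v ⟨j, h⟩ => ⟨j, h.symm⟩)
    (fun u v => ∑ j, if r j u = r j v then (1 : ℝ) else 0)
    (fun u v => Finset.sum_nonneg fun j _ => by split_ifs <;> norm_num)
    (fun u v => Finset.sum_congr rfl fun j _ => by
      by_cases h : r j u = r j v
      · rw [if_pos h, if_pos h.symm]
      · rw [if_neg h, if_neg (fun h' => h h'.symm)])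
    (fun u v _ ⟨j, h⟩ => by
      have h3 : ∀ i ∈ (univ : Finset J), (0 : ℝ) ≤ if r i u = r i v then (1 : ℝ) else 0 :=
        fun i _ => by split_ifs <;> norm_num
      have h4 := Finset.single_le_sum h3 (mem_univ j)
      rw [if_pos h] at h4
      exact h4)
    (fun f => by
      have e1 : ∑ v, ∑ u, f v * f u * (∑ j, if r j u = r j v then (1 : ℝ) else 0) =
          ∑ j, ∑ v, ∑ u, f v * f u * (if r j u = r j v then (1 : ℝ) else 0) := by
        simp only [Finset.mul_sum]
        conv_rhs => rw [Finset.sum_comm]
        apply Finset.sum_congr rfl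
        intro v _
        rw [Finset.sum_comm]
      rw [e1]
      exact Finset.sum_nonneg fun j _ => psd_fib (r j) f)
    β hβ0
    (fun v hv => by
      refine le_trans (le_of_eq ?_) (h2 v hv)
      simp only [Finset.mul_sum]
      rw [Finset.sum_comm]
      apply Finset.sum_congr rfl
      intro j _
      rw [Finset.sum_filter]
      apply Finset.sum_congr rfl
      intro u _
      split_ifs <;> simp)
    (fun S _ => class_sum c β h1 S)
  refine ⟨t, t1, t2, ?_⟩
  intro j x y hxy
  by_contra hne
  exact t3 x y hne ⟨j, hxy⟩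

open Classical in
/-- the case of two coordinates (rows `κ` and lines `γ`) -/
theorem rainbow2 {K G : Type*} (c : V → ι) (κ : V → K) (γ : V → G)
    (β : V → ℝ) (hβ0 : ∀ v, 0 ≤ β v) (h1 : ∀ x, 1 ≤ ∑ v with c v = x, β v)
    (h2 : ∀ v, 0 < β v → (∑ u with κ u = κ v, β u) + ∑ u with γ u = γ v, β u ≤ 1) :
    ∃ t : ι → V, (∀ x, c (t x) = x) ∧ (∀ x, 0 < β (t x)) ∧
      Function.Injective (fun x => κ (t x)) ∧ Function.Injective (fun x => γ (t x)) := by
  obtain ⟨t, t1, t2, t3⟩ := rainbow c (fun u v => κ u = κ v ∨ γ u = γ v)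
    (fun u v h => h.imp Eq.symm Eq.symm)
    (fun u v => (if κ u = κ v then (1 : ℝ) else 0) + if γ u = γ v then (1 : ℝ) else 0)
    (fun u v => by split_ifs <;> norm_num)
    (fun u v => by
      congr 1
      · by_cases h : κ u = κ v
        · rw [if_pos h, if_pos h.symm]
        · rw [if_neg h, if_neg (fun h' => h h'.symm)]
      · by_cases h : γ u = γ v
        · rw [if_pos h, if_pos h.symm]
        · rw [if_neg h, if_neg (fun h' => h h'.symm)])
    (fun u v _ h => by
      rcases h with h | h
      · rw [if_pos h]; split_ifs <;> norm_num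
      · rw [if_pos h]; split_ifs <;> norm_num)
    (fun f => by
      have e1 := psd_fib κ f
      have e2 := psd_fib γ f
      simp only [mul_add, Finset.sum_add_distrib]
      exact add_nonneg e1 e2)
    β hβ0
    (fun v hv => by
      refine le_trans (le_of_eq ?_) (h2 v hv)
      simp only [mul_add, Finset.sum_add_distrib]
      congr 1
      · rw [Finset.sum_filter]
        apply Finset.sum_congr rfl
        intro u _
        split_ifs <;> simp
      · rw [Finset.sum_filter]
        apply Finset.sum_congr rfl
        intro u _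
        split_ifs <;> simp)
    (fun S _ => class_sum c β h1 S)
  refine ⟨t, t1, t2, ?_, ?_⟩
  · intro x y hxy
    by_contra hne
    exact t3 x y hne (Or.inl hxy)
  · intro x y hxy
    by_contra hne
    exact t3 x y hne (Or.inr hxy)

end Hall

end Rain64
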