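import Pool.Statements.S00354
import Pool.Agent.Helper90.HC.Main

set_option autoImplicit false
open Pool Pool.MP_a3ca44_ag

namespace Pool.Agent.S00354

/-- The negation of the preceding statement: There is a real constant c such that every reduced complex plane curve of degree d with at least one singular point has (d² minus the sum of squared multiplicities of its singular points) divided by the number of singular points at least c. -/
theorem result :
    ¬ (∃ c : ℝ, ∀ (d : ℕ) (F : MvPolynomial (Fin 3) ℂ), F.IsHomogeneous d → Squarefree F →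
      {p : Projectivization ℂ (Fin 3 → ℂ) |
          MvPolynomial.eval p.rep F = 0 ∧
            ∀ i : Fin 3, MvPolynomial.eval p.rep (MvPolynomial.pderiv i F) = 0}.Nonempty →
      c ≤ (((d : ℝ) ^ 2 -
            ∑ᶠ p ∈ {p : Projectivization ℂ (Fin 3 → ℂ) |
                MvPolynomial.eval p.rep F = 0 ∧
                  ∀ i : Fin 3, MvPolynomial.eval p.rep (MvPolynomial.pderiv i F) = 0},
              (((sInf {k : ℕ | ∃ s ∈ (MvPolynomial.aeval
                    (fun i : Fin 3 =>
                      (MvPolynomial.C (p.rep i) + MvPolynomial.X i : MvPolynomial (Fin 3) ℂ))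
                    F).support, ∑ j : Fin 3, s j = k} : ℕ) : ℝ) ^ 2)) /
          (({p : Projectivization ℂ (Fin 3 → ℂ) |
              MvPolynomial.eval p.rep F = 0 ∧
                ∀ i : Fin 3, MvPolynomial.eval p.rep (MvPolynomial.pderiv i F) = 0}.ncard : ℕ) : ℝ))) := by
  rintro ⟨c, h⟩
  obtain ⟨d, F, h1, h2, h3, h4⟩ := Pool.Agent.Helper90.HC.unbounded c
  exact absurd (h d F h1 h2 h3) (not_le.2 h4)

end Pool.Agent.S00354
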