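import Pool.Statements.S00536
import Pool.Agent.Helper66.QuadMain

set_option autoImplicit false
open Pool Pool.MP_eefc19_ag

namespace Pool.Agent.S00536

/-- The negation of the preceding statement: For any field k and polynomial ring in m variables over k, if an ideal is generated by n homogeneous quadrics and has height h, then R/I has projective dimension at most h(n−h+1) as an R-module. -/
theorem result :
    ¬ (∀ (k : Type) [Field k] (m n h : ℕ) (f : Fin n → MvPolynomial (Fin m) k),
      (∀ i, (f i).IsHomogeneous 2) →
      (Ideal.span (Set.range f)).height = (h : ℕ∞) →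
      CategoryTheory.HasProjectiveDimensionLE
        (ModuleCat.of (MvPolynomial (Fin m) k)
          (MvPolynomial (Fin m) k ⧸ Ideal.span (Set.range f)))
        (h * (n - h + 1))) := by
  intro H
  have h1 := Helper66.le_height_quadIdeal ℚ
  have h2 := Helper66.height_quadIdeal_le ℚ
  obtain ⟨h, hh⟩ : ∃ h : ℕ, (Helper66.quadIdeal ℚ).height = (h : ℕ∞) := by
    have : (Helper66.quadIdeal ℚ).height ≠ ⊤ := by
      intro h; rw [h] at h2; exact absurd h2 (by simp)
    exact ⟨_, (ENat.natCast_toNat this).symm⟩
  rw [hh] at h1 h2
  have h1' : 11 ≤ h := by exact_mod_cast h1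
  have h2' : h ≤ 12 := by exact_mod_cast h2
  have key := H ℚ 24 12 h (Helper66.quads ℚ) (Helper66.quads_isHomogeneous ℚ) hh
  refine Helper66.not_pd_le ℚ (h * (12 - h + 1)) ?_ key
  interval_cases h <;> norm_num

end Pool.Agent.S00536
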