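import Pool.Statements.S00786
import Pool.Agent.Helper88.Nav9

set_option autoImplicit false
open Pool Pool.MP_1420ee_al

namespace Pool.Agent.S00786

/-- The negation of the preceding statement: For every finite solvable group G and Sylow subgroups G_p, if each G_p has an irreducible complex representation of degree d_p, then G has an irreducible complex representation of degree at least the product of the d_p over primes dividing ∣G∣. -/
theorem result :
    ¬ (∀ (G : Type) [Group G] [Finite G], IsSolvable G →
      ∀ (P : (p : ℕ) → Sylow p G) (d : ℕ → ℕ),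
        (∀ p ∈ (Nat.card G).primeFactors,
          ∃ V : FDRep ℂ ↥(P p).toSubgroup,
            CategoryTheory.Simple V ∧ Module.finrank ℂ V = d p) →
        ∃ W : FDRep ℂ G, CategoryTheory.Simple W ∧
          ∏ p ∈ (Nat.card G).primeFactors, d p ≤ Module.finrank ℂ W) := by
  intro h
  obtain ⟨P, d, h1, h2⟩ := Pool.Agent.Helper88.Nav.main
  obtain ⟨W, hW, h3⟩ :=
    h Pool.Agent.Helper88.Nav.G Pool.Agent.Helper88.Nav.solvable_G P d h1
  exact absurd h3 (not_le.mpr (h2 W hW))

end Pool.Agent.S00786
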