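import Pool.Statements.S00878
import Pool.Agent.Helper8.NubCounter

set_option autoImplicit false
open scoped Pointwise
open Pool Pool.MP_1dd661_al

namespace Pool.Agent.S00878

open Pool.Agent.Helper8.NubCounter in
theorem no_list (l : List (MulAut G)) (hl : ∀ a ∈ l, a ∈ H)
    (heq : (⋂ (U : Subgroup G)
            (_ : IsCompact (U : Set G) ∧ IsOpen (U : Set G) ∧ ∀ a ∈ H, Tidy a U),
            (U : Set G)) =
          (l.map (fun a => ⋂ (U : Subgroup G)
              (_ : IsCompact (U : Set G) ∧ IsOpen (U : Set G) ∧ Tidy a U),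
              (U : Set G))).prod) : False := by
  -- the number of elements of the list decides the block
  have hch : ∀ k : Fin l.length, ∃ (s : Equiv.Perm X) (N : ℕ)
      (v : ZMod (l.length + 1) → ℚ), Phi s = l.get k ∧ 0 < N ∧
      ∀ lam : ZMod (l.length + 1) → ℚ, ∑ d, v d * lam d = 0 →
        (s ^ N) (⟨⟨l.length, lam⟩, (0, 0)⟩ : X) = ⟨⟨l.length, lam⟩, (0, 0)⟩ := by
    intro k
    obtain ⟨s, hs, hsk⟩ := hl (l.get k) (List.get_mem l k)
    obtain ⟨N, v, hN, hv⟩ := exists_period l.length hs
    exact ⟨s, N, v, hsk, hN, hv⟩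
  choose s N v hs hN hv using hch
  let f : (ZMod (l.length + 1) → ℚ) →ₗ[ℚ] (Fin l.length → ℚ) :=
    Matrix.mulVecLin (Matrix.of v)
  have hker : LinearMap.ker f ≠ ⊥ := by
    apply LinearMap.ker_ne_bot_of_finrank_lt
    simp [ZMod.card]
  obtain ⟨lam, hlam, hne⟩ := (Submodule.ne_bot_iff _).mp hker
  have hlam' : ∀ k, ∑ d, v k d * lam d = 0 := by
    intro k
    have := congrFun (LinearMap.mem_ker.mp hlam) k
    simpa [f, Matrix.mulVecLin_apply, Matrix.mulVec, dotProduct] using this
  let i : Idx := ⟨l.length, lam⟩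
  let x : X := ⟨i, (0, 0)⟩
  have hmem : (Pi.mulSingle x u0 : G) ∈ (⋂ (U : Subgroup G)
            (_ : IsCompact (U : Set G) ∧ IsOpen (U : Set G) ∧ ∀ a ∈ H, Tidy a U),
            (U : Set G)) := by
    simp only [Set.mem_iInter]
    rintro U ⟨_, hUo, hUt⟩
    exact single_mem hUo hUt i hne
  rw [heq] at hmem
  have hsub : (l.map (fun a => ⋂ (U : Subgroup G)
              (_ : IsCompact (U : Set G) ∧ IsOpen (U : Set G) ∧ Tidy a U),
              (U : Set G))).prod ⊆ (K x : Set G) := by
    apply List.prod_induction (fun S : Set G => S ⊆ (K x : Set G))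
    · intro S T hS hT
      rintro _ ⟨g, hg, h, hh, rfl⟩
      exact (K x).mul_mem (hS hg) (hT hh)
    · rintro _ rfl
      exact (K x).one_mem
    · intro S hS
      obtain ⟨a, ha, rfl⟩ := List.mem_map.mp hS
      obtain ⟨k, rfl⟩ := List.mem_iff_get.mp ha
      refine Set.Subset.trans ?_ (UU_le_K (s k) x)
      have hper : ((s k) ^ (N k)) x = x := hv k lam (hlam' k)
      apply Set.iInter₂_subset (UU (s k) x)
      refine ⟨?_, isOpen_UU (hN k) hper, ?_⟩
      · exact (Subgroup.isClosed_of_isOpen _ (isOpen_UU (hN k) hper)).isCompact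
      · rw [← hs k]
        exact tidy_UU (hN k) hper
  have h1 : (Pi.mulSingle x u0 : G) x = 1 := hsub hmem
  rw [Pi.mulSingle_eq_same] at h1
  exact u0_ne h1

/-- The negation of the preceding statement: For a t.d.l.c. group G and a finitely generated flat group H of topological automorphisms, there are finitely many distinct elements of H whose nubs multiply, as sets, to the nub of H. -/
theorem result :
    ¬ (∀ (G : Type) [Group G] [TopologicalSpace G] [IsTopologicalGroup G]
      [LocallyCompactSpace G] [TotallyDisconnectedSpace G]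
      (H : Subgroup (MulAut G)) (tidy : MulAut G → Subgroup G → Prop),
      (∀ (a : MulAut G) (U : Subgroup G), tidy a U ↔
          ((U : Set G) =
              (⋂ n : ℕ, Set.image (⇑(a ^ n)) (U : Set G)) *
                (⋂ n : ℕ, Set.image (⇑(a⁻¹ ^ n)) (U : Set G)) ∧
            IsClosed (⋃ m : ℕ, Set.image (⇑(a ^ m))
                (⋂ n : ℕ, Set.image (⇑(a ^ n)) (U : Set G))))) →
      (∀ a ∈ H, Continuous (⇑a)) →
      H.FG →
      (∃ U : Subgroup G, IsCompact (U : Set G) ∧ IsOpen (U : Set G) ∧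
          ∀ a ∈ H, tidy a U) →
      ∃ l : List (MulAut G), l.Nodup ∧ (∀ a ∈ l, a ∈ H) ∧
        (⋂ (U : Subgroup G)
            (_ : IsCompact (U : Set G) ∧ IsOpen (U : Set G) ∧ ∀ a ∈ H, tidy a U),
            (U : Set G)) =
          (l.map (fun a => ⋂ (U : Subgroup G)
              (_ : IsCompact (U : Set G) ∧ IsOpen (U : Set G) ∧ tidy a U),
              (U : Set G))).prod) := by
  intro hall
  obtain ⟨l, -, hl, heq⟩ := hall Pool.Agent.Helper8.NubCounter.G
    Pool.Agent.Helper8.NubCounter.H Pool.Agent.Helper8.NubCounter.Tidy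
    (fun _ _ => Iff.rfl)
    (by
      rintro _ ⟨s, -, rfl⟩
      exact continuous_pi (fun y => continuous_apply _))
    Pool.Agent.Helper8.NubCounter.H_fg
    ⟨⊤, by simpa using isCompact_univ, by simp, fun a _ =>
      Pool.Agent.Helper8.NubCounter.tidy_top a⟩
  exact no_list l hl heq

end Pool.Agent.S00878
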