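import Pool.Statements.S00940
import Pool.Agent.Chern.ProdS

set_option autoImplicit false
open Pool Pool.MP_23213a_al

namespace Pool.Agent.S00940

/-- The negation of the preceding statement: There is a group G = AB, with A and B Chernikov subgroups, such that G is not Chernikov. Chernikov means having a normal finite-index subgroup that is abelian, divisible and satisfies the minimal condition on subgroups. -/
theorem result :
    ¬ (∃ (G : Type) (_ : Group G) (A B : Subgroup G),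
      (∃ N : Subgroup ↥A, N.Normal ∧ N.index ≠ 0 ∧
        (∀ x ∈ N, ∀ y ∈ N, x * y = y * x) ∧
        (∀ x ∈ N, ∀ n : ℕ, 0 < n → ∃ y ∈ N, y ^ n = x) ∧
        WellFoundedLT (Subgroup ↥N)) ∧
      (∃ N : Subgroup ↥B, N.Normal ∧ N.index ≠ 0 ∧
        (∀ x ∈ N, ∀ y ∈ N, x * y = y * x) ∧
        (∀ x ∈ N, ∀ n : ℕ, 0 < n → ∃ y ∈ N, y ^ n = x) ∧
        WellFoundedLT (Subgroup ↥N)) ∧
      (∀ g : G, ∃ a ∈ A, ∃ b ∈ B, a * b = g) ∧
      ¬ (∃ N : Subgroup G, N.Normal ∧ N.index ≠ 0 ∧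
        (∀ x ∈ N, ∀ y ∈ N, x * y = y * x) ∧
        (∀ x ∈ N, ∀ n : ℕ, 0 < n → ∃ y ∈ N, y ^ n = x) ∧
        WellFoundedLT (Subgroup ↥N))) := by
  rintro ⟨G, _, A, B, hA, hB, hAB, hG⟩
  exact hG (Pool.Agent.Chern.chernikov_of_prod A B hA hB hAB)

end Pool.Agent.S00940
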