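import Pool.Statements.S01159
import Pool.Agent.Helper85.BTE.Rank1
import Pool.Agent.Helper85.BTE.Comp
import Pool.Agent.Helper85.BTE.IA

set_option autoImplicit false
open Pool Pool.MP_35732b_al

namespace Pool.Agent.S01159

open Helper85.BTE

/-- Domination in rank `n + 1`. -/
def D (n : ℕ) (u v : FreeGroup (Fin (n + 1))) : Prop := Dom u v

theorem d_iff (n : ℕ) (u v : FreeGroup (Fin (n + 1))) : D n u v ↔
    (v = 1 ∧ u = 1) ∨ (n = 0 ∧ v ≠ 1) ∨ (1 ≤ n ∧ v ≠ 1 ∧ DomCert u v) := by
  unfold D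
  by_cases hv : v = 1
  · subst hv
    rw [dom_one_iff]
    simp
  · rcases Nat.eq_zero_or_pos n with hn | hn
    · subst hn
      simp only [hv, false_and, not_false_eq_true, ne_eq, and_self, true_or, or_true, iff_true]
      exact dom_rank1 u v hv
    · have hn0 : n ≠ 0 := by omega
      have hn1 : 1 ≤ n := hn
      simp only [hv, false_and, not_false_eq_true, ne_eq, hn0, hn1, true_and, false_or]
      exact ⟨fun h => cert_of_dom h, fun h => dom_of_cert (by omega) hv h⟩

theorem not_d_iff (n : ℕ) (u v : FreeGroup (Fin (n + 1))) : ¬ D n u v ↔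
    (v = 1 ∧ u ≠ 1) ∨ (1 ≤ n ∧ v ≠ 1 ∧ NonDomCert u v) := by
  have hIA : IAStatement (n + 1) := fun ψ h6 u k hk hfix => isConj_of_isConj_pow ψ h6 u k hk hfix
  unfold D
  by_cases hv : v = 1
  · subst hv
    rw [dom_one_iff]
    simp
  · rcases Nat.eq_zero_or_pos n with hn | hn
    · subst hn
      simp only [hv, false_and, nonpos_iff_eq_zero, one_ne_zero, or_self, iff_false, not_not]
      exact dom_rank1 u v hv
    · have hn1 : 1 ≤ n := hn
      simp only [hv, false_and, not_false_eq_true, ne_eq, hn1, true_and, false_or]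
      constructor
      · intro h
        by_contra h2
        exact h (dom_of_no_cert hIA (by omega) hv h2)
      · intro h
        exact not_dom_of_cert hIA h

theorem both_iff (n : ℕ) (u v : FreeGroup (Fin (n + 1))) :
    (D n u v ∧ D n v u) ↔ ∃ C : ℕ, ∀ φ : FreeGroup (Fin (n + 1)) ≃* FreeGroup (Fin (n + 1)),
      len (φ u) ≤ C * len (φ v) ∧ len (φ v) ≤ C * len (φ u) := by
  constructor
  · rintro ⟨⟨C, hC⟩, ⟨C', hC'⟩⟩
    refine ⟨C + C', fun φ => ?_⟩
    have h1 := hC φ
    have h2 := hC' φ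
    rw [← two_len, ← two_len] at h1 h2
    constructor
    · have : C * len (φ v) ≤ (C + C') * len (φ v) := Nat.mul_le_mul_right _ (by omega)
      have h3 : C * (2 * len (φ v)) = 2 * (C * len (φ v)) := by ring
      omega
    · have : C' * len (φ u) ≤ (C + C') * len (φ u) := Nat.mul_le_mul_right _ (by omega)
      have h3 : C' * (2 * len (φ u)) = 2 * (C' * len (φ u)) := by ring
      omega
  · rintro ⟨C, hC⟩
    constructor
    · refine ⟨C, fun φ => ?_⟩
      have h1 := (hC φ).1
      rw [← two_len, ← two_len]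
      have h3 : C * (2 * len (φ v)) = 2 * (C * len (φ v)) := by ring
      omega
    · refine ⟨C, fun φ => ?_⟩
      have h1 := (hC φ).2
      rw [← two_len, ← two_len]
      have h3 : C * (2 * len (φ u)) = 2 * (C * len (φ u)) := by ring
      omega

/-- There is an algorithm that, given a rank n and two words u, v in F_n, decides whether some constant C gives cyclic length of φ(u) at most C times that of φ(v), and conversely, for every automorphism φ. -/
theorem result :
    ComputablePred (fun p : ℕ × List (ℕ × Bool) × List (ℕ × Bool) =>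
      ∃ C : ℕ, ∀ φ : FreeGroup (Fin (p.1 + 1)) ≃* FreeGroup (Fin (p.1 + 1)),
        sInf (Set.range (fun g : FreeGroup (Fin (p.1 + 1)) =>
            FreeGroup.norm (g * φ (FreeGroup.mk (p.2.1.map (fun x =>
              ((⟨x.1 % (p.1 + 1), Nat.mod_lt x.1 (Nat.succ_pos p.1)⟩ : Fin (p.1 + 1)), x.2)))) * g⁻¹)))
          ≤ C * sInf (Set.range (fun g : FreeGroup (Fin (p.1 + 1)) =>
            FreeGroup.norm (g * φ (FreeGroup.mk (p.2.2.map (fun x =>
              ((⟨x.1 % (p.1 + 1), Nat.mod_lt x.1 (Nat.succ_pos p.1)⟩ : Fin (p.1 + 1)), x.2)))) * g⁻¹)))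
        ∧
        sInf (Set.range (fun g : FreeGroup (Fin (p.1 + 1)) =>
            FreeGroup.norm (g * φ (FreeGroup.mk (p.2.2.map (fun x =>
              ((⟨x.1 % (p.1 + 1), Nat.mod_lt x.1 (Nat.succ_pos p.1)⟩ : Fin (p.1 + 1)), x.2)))) * g⁻¹)))
          ≤ C * sInf (Set.range (fun g : FreeGroup (Fin (p.1 + 1)) =>
            FreeGroup.norm (g * φ (FreeGroup.mk (p.2.1.map (fun x =>
              ((⟨x.1 % (p.1 + 1), Nat.mod_lt x.1 (Nat.succ_pos p.1)⟩ : Fin (p.1 + 1)), x.2)))) * g⁻¹)))) := by
  refine (computable_of_certs D d_iff not_d_iff).of_eq ?_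
  intro p
  exact both_iff p.1 (ev p.1 p.2.1) (ev p.1 p.2.2)

end Pool.Agent.S01159
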