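import Pool.Statements.S01171
import Pool.Agent.Helper74.Final

set_option autoImplicit false
open Pool Pool.MP_3628ce_al

namespace Pool.Agent.S01171

/-- In the free non-associative ring on 3 generators modulo the congruence generated by the laws (aa)b=a(ab) and (ba)a=b(aa), if n times f is zero for some positive n then f is zero; i.e. the free alternative ring on 3 generators is torsion-free. -/
theorem result :
    ∀ (f : MonoidAlgebra ℤ (FreeMagma (Fin 3))) (n : ℕ), 0 < n →
      RingConGen.Rel
        (fun (p q : MonoidAlgebra ℤ (FreeMagma (Fin 3))) =>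
          ∃ a b : MonoidAlgebra ℤ (FreeMagma (Fin 3)),
            (p = (a * a) * b ∧ q = a * (a * b)) ∨ (p = (b * a) * a ∧ q = b * (a * a)))
        (n • f) 0 →
      RingConGen.Rel
        (fun (p q : MonoidAlgebra ℤ (FreeMagma (Fin 3))) =>
          ∃ a b : MonoidAlgebra ℤ (FreeMagma (Fin 3)),
            (p = (a * a) * b ∧ q = a * (a * b)) ∨ (p = (b * a) * a ∧ q = b * (a * a)))
        f 0 := by
  intro f n hn h
  have h1 : Pool.Agent.Helper74.mk (n • f) = Pool.Agent.Helper74.mk 0 :=
    (Pool.Agent.Helper74.mk_eq_iff (n • f) 0).mpr h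
  have h2 : n • Pool.Agent.Helper74.mk f = 0 := by
    rw [← map_nsmul, h1, map_zero]
  have h3 := Pool.Agent.Helper74.FA_torsion_free _ n hn h2
  exact (Pool.Agent.Helper74.mk_eq_iff f 0).mp (by rw [h3, map_zero])

end Pool.Agent.S01171
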