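import Pool.Statements.S02848
import Pool.Agent.PFI.FIN

set_option autoImplicit false
open Pool Pool.MP_b906c2_al

namespace Pool.Agent.S02848

/-- The negation of the preceding statement: For every n, the least p such that every sum of squares in the rational function field ℝ(X_1,…,X_n) is a sum of p squares equals 2^n. -/
theorem result :
    ¬ (∀ n : ℕ,
      sInf {p : ℕ | ∀ x : FractionRing (MvPolynomial (Fin n) ℝ), IsSumSq x →
        ∃ f : Fin p → FractionRing (MvPolynomial (Fin n) ℝ), x = ∑ i, f i ^ 2} = 2 ^ n) := by
  exact Pool.Agent.PFI.not_main

end Pool.Agent.S02848
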