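import Pool.Statements.S03491
import Pool.Agent.Helper94.Liou.Misc

set_option autoImplicit false
open Pool Pool.MP_ef2645_al

namespace Pool.Agent.S03491

/-- Some infinite, finitely generated, simple group has an invariant finitely additive probability mean on all subsets and a symmetric, finitely supported, generating probability measure admitting a bounded non-constant harmonic function. -/
theorem result :
    ∃ (G : Type) (_ : Group G), Infinite G ∧ Group.FG G ∧ IsSimpleGroup G ∧
      (∃ m : Set G → ℝ, m Set.univ = 1 ∧ (∀ A : Set G, 0 ≤ m A) ∧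
        (∀ A B : Set G, Disjoint A B → m (A ∪ B) = m A + m B) ∧
        (∀ (g : G) (A : Set G), m ((fun x => g * x) '' A) = m A)) ∧
      ∃ μ : G →₀ ℝ, (∀ g : G, 0 ≤ μ g) ∧ Finsupp.sum μ (fun _ w => w) = 1 ∧
        (∀ g : G, μ g⁻¹ = μ g) ∧ Subgroup.closure (↑μ.support : Set G) = ⊤ ∧
        ∃ f : G → ℝ, (∃ C : ℝ, ∀ g : G, |f g| ≤ C) ∧
          (∀ g : G, f g = Finsupp.sum μ (fun s w => w * f (g * s))) ∧
          ∃ a b : G, f a ≠ f b := by
  classical
  obtain ⟨f, hb, hf, hne⟩ := Agent.Helper94.Liou.exists_harmonic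
  refine ⟨Agent.Helper94.Liou.G, inferInstance, Agent.Helper94.Liou.G_infinite,
    Agent.Helper94.Liou.G_fg, Agent.Helper94.Liou.G_simple, Agent.Helper94.Liou.G_amenable,
    Agent.Helper94.Liou.μG, Agent.Helper94.Liou.μG_nonneg, Agent.Helper94.Liou.μG_total,
    Agent.Helper94.Liou.μG_symm, Agent.Helper94.Liou.μG_gen, f, hb, ?_, ?_⟩
  · intro g
    rw [Agent.Helper94.Liou.μG_sum, hf]
  · exact ⟨_, _, hne⟩

end Pool.Agent.S03491
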