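import Pool.Statements.S03678

set_option autoImplicit false
open Pool Pool.MP_01e6d0_an

namespace Pool.Agent.S03678

section Abstract

variable {V : Type*} [AddCommGroup V] [Module ℝ V]

/-- `lam` is unbounded on `K` for the quadratic form of `B`. -/
def Unb (B : V →ₗ[ℝ] V →ₗ[ℝ] ℝ) (lam : V →ₗ[ℝ] ℝ) (K : Submodule ℝ V) : Prop :=
  ∀ ε : ℝ, 0 < ε → ∃ u ∈ K, lam u = 1 ∧ B u u < ε

/-- `ell` is bounded for the quadratic form of `B`. -/
def Bd (B : V →ₗ[ℝ] V →ₗ[ℝ] ℝ) (ell : V →ₗ[ℝ] ℝ) : Prop :=
  ∃ C : ℝ, 0 ≤ C ∧ ∀ u, (ell u) ^ 2 ≤ C * B u u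

variable (B : V →ₗ[ℝ] V →ₗ[ℝ] ℝ) (hs : ∀ u v, B u v = B v u) (hp : ∀ u, u ≠ 0 → 0 < B u u)

include hp in
lemma nonneg (u : V) : 0 ≤ B u u := by
  by_cases h : u = 0
  · simp [h]
  · exact (hp u h).le

include hs hp in
lemma cs (u v : V) : (B u v) ^ 2 ≤ B u u * B v v := by
  by_cases h : v = 0
  · simp [h]
  have hv := hp v h
  have h1 := nonneg B hp (u - (B u v / B v v) • v)
  have h2 : B (u - (B u v / B v v) • v) (u - (B u v / B v v) • v) =
      B u u - (B u v) ^ 2 / B v v := by
    simp only [map_sub, map_smul, LinearMap.sub_apply, LinearMap.smul_apply, smul_eq_mul]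
    rw [hs v u]
    field_simp
    ring
  rw [h2] at h1
  have h3 : (B u v) ^ 2 / B v v ≤ B u u := by linarith
  rwa [div_le_iff₀ hv] at h3

include hs hp in
lemma bd_left (s : V) : Bd B (B s) :=
  ⟨B s s, nonneg B hp s, fun u => cs B hs hp s u⟩

omit hs in
include hp in
lemma unb_inf_ker (lam ell : V →ₗ[ℝ] ℝ) (K : Submodule ℝ V) (h : Unb B lam K)
    (hb : Bd B ell) : Unb B lam (K ⊓ LinearMap.ker ell) := by
  by_cases hK : ∀ u ∈ K, ell u = 0
  · intro ε hε
    obtain ⟨u, hu, h1, h2⟩ := h ε hε
    exact ⟨u, ⟨hu, by simpa using hK u hu⟩, h1, h2⟩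
  · push Not at hK
    obtain ⟨w0, hw0, hw0'⟩ := hK
    obtain ⟨C, hC, hCb⟩ := hb
    set w : V := (ell w0)⁻¹ • w0 with hw
    have hwK : w ∈ K := K.smul_mem _ hw0
    have hw1 : ell w = 1 := by
      simp [hw, hw0']
    intro ε hε
    set b := lam w with hbdef
    set c := B w w with hcdef
    have hc : 0 ≤ c := nonneg B hp w
    set D : ℝ := 4 * C * b ^ 2 + 1 + (8 + 8 * C * c) / ε with hD
    have hDpos : 0 < D := by
      have : 0 ≤ (8 + 8 * C * c) / ε := by positivity
      have : 0 ≤ 4 * C * b ^ 2 := by positivity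
      linarith
    obtain ⟨u, hu, hu1, hu2⟩ := h (1 / D) (by positivity)
    have huu := nonneg B hp u
    set a := ell u with ha
    have ha2 : a ^ 2 ≤ C * B u u := hCb u
    have ha3 : a ^ 2 ≤ C * (1 / D) :=
      ha2.trans (mul_le_mul_of_nonneg_left hu2.le hC)
    have hab : (a * b) ^ 2 ≤ 1 / 4 := by
      have h1 : (a * b) ^ 2 ≤ C * (1 / D) * b ^ 2 := by
        rw [mul_pow]
        exact mul_le_mul_of_nonneg_right ha3 (sq_nonneg b)
      have h2 : C * (1 / D) * b ^ 2 ≤ 1 / 4 := by
        have h3 : 4 * C * b ^ 2 ≤ D := by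
          have : 0 ≤ (8 + 8 * C * c) / ε := by positivity
          rw [hD]; linarith
        rw [show C * (1 / D) * b ^ 2 = (C * b ^ 2) / D by ring, div_le_iff₀ hDpos]
        linarith
      exact h1.trans h2
    have hab' : 1 / 2 ≤ 1 - a * b := by
      have : |a * b| ≤ 1 / 2 := by
        apply abs_le_of_sq_le_sq _ (by norm_num)
        linarith [hab]
      have := (abs_le.mp this).2
      linarith
    set x : ℝ := 1 - a * b with hx
    have hxpos : 0 < x := by linarith
    refine ⟨x⁻¹ • (u - a • w), ⟨K.smul_mem _ (K.sub_mem hu (K.smul_mem _ hwK)), ?_⟩, ?_, ?_⟩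
    · simp [hw1, ← ha]
    · simp only [map_smul, map_sub, smul_eq_mul, hu1, ← hbdef, ← hx]
      field_simp
    · have h1 : B (x⁻¹ • (u - a • w)) (x⁻¹ • (u - a • w)) = x⁻¹ ^ 2 * B (u - a • w) (u - a • w) := by
        simp only [map_smul, LinearMap.smul_apply, smul_eq_mul]
        ring
      have h2 : B (u - a • w) (u - a • w) + B (u + a • w) (u + a • w) =
          2 * B u u + 2 * a ^ 2 * c := by
        simp only [map_sub, map_add, map_smul, LinearMap.sub_apply, LinearMap.add_apply,
          LinearMap.smul_apply, smul_eq_mul]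
        rw [hcdef]; ring
      have h3 := nonneg B hp (u + a • w)
      have h4 := nonneg B hp (u - a • w)
      have h5 : B (u - a • w) (u - a • w) ≤ 2 * (1 / D) + 2 * (C * (1 / D)) * c := by
        have : 2 * a ^ 2 * c ≤ 2 * (C * (1 / D)) * c :=
          mul_le_mul_of_nonneg_right (by linarith) hc
        linarith
      have h6 : x⁻¹ ^ 2 ≤ 4 := by
        have : x⁻¹ ≤ 2 := by
          rw [inv_le_comm₀ hxpos (by norm_num)]
          linarith
        have h0 : 0 ≤ x⁻¹ := by positivity
        nlinarith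
      rw [h1]
      have h7 : x⁻¹ ^ 2 * B (u - a • w) (u - a • w) ≤
          4 * (2 * (1 / D) + 2 * (C * (1 / D)) * c) :=
        mul_le_mul h6 h5 h4 (by norm_num)
      refine lt_of_le_of_lt h7 ?_
      have h8 : 4 * (2 * (1 / D) + 2 * (C * (1 / D)) * c) = (8 + 8 * C * c) / D := by
        field_simp
        ring
      rw [h8, div_lt_iff₀ hDpos, hD, mul_add, mul_div_cancel₀ _ hε.ne']
      have : 0 ≤ 4 * C * b ^ 2 := by positivity
      nlinarith

include hs hp in
lemma unb_finset (lam ψ : V →ₗ[ℝ] ℝ) (h : Unb B lam ⊤) (hψ : Bd B ψ) (S : Set V)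
    (hS : S.Finite) (ε : ℝ) (hε : 0 < ε) :
    ∃ u, (∀ s ∈ S, B s u = 0) ∧ ψ u = 0 ∧ lam u = 1 ∧ B u u < ε := by
  have key : Unb B lam ((⨅ s ∈ S, LinearMap.ker (B s)) ⊓ LinearMap.ker ψ) := by
    apply unb_inf_ker B hp _ _ _ _ hψ
    induction S, hS using Set.Finite.induction_on with
    | empty => simpa using h
    | insert ha hS ih =>
      rw [iInf_insert, inf_comm]
      exact unb_inf_ker B hp _ _ _ ih (bd_left B hs hp _)
  obtain ⟨u, hu, h1, h2⟩ := key ε hε
  simp only [Submodule.mem_inf, Submodule.mem_iInf, LinearMap.mem_ker] at hu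
  exact ⟨u, hu.1, hu.2, h1, h2⟩

lemma exists_v (ψ : V →ₗ[ℝ] ℝ) (hnr : ∀ v0, ∃ v, ψ v ≠ B v0 v) (E : Finset V) (r : V)
    (hr : ∀ e ∈ E, B e r = 0) (hrr : B r r ≠ 0) :
    ∃ v, (∀ e ∈ E, B e v = 0) ∧ ψ v = 0 ∧ B r v = 1 := by
  classical
  by_contra hcon
  push Not at hcon
  have hz : ∀ v, (∀ e ∈ E, B e v = 0) → ψ v = 0 → B r v = 0 := by
    intro v h1 h2
    by_contra h3
    apply hcon ((B r v)⁻¹ • v)
    · intro e he
      simp [h1 e he]
    · simp [h2]
    · simp [h3]
  let L : Option E → (V →ₗ[ℝ] ℝ) := fun o => match o with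
    | none => ψ
    | some e => B e.1
  have hmem : B r ∈ Submodule.span ℝ (Set.range L) := by
    apply mem_span_of_iInf_ker_le_ker
    intro v hv
    simp only [Submodule.mem_iInf, LinearMap.mem_ker] at hv ⊢
    exact hz v (fun e he => hv (some ⟨e, he⟩)) (hv none)
  rw [Submodule.mem_span_range_iff_exists_fun] at hmem
  obtain ⟨c, hc⟩ := hmem
  rw [Fintype.sum_option] at hc
  have hc' : ∀ v, c none * ψ v + ∑ e : E, c (some e) * B e.1 v = B r v := by
    intro v
    have := congrArg (fun f : V →ₗ[ℝ] ℝ => f v) hc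
    simpa [L, LinearMap.add_apply, LinearMap.sum_apply] using this
  by_cases h0 : c none = 0
  · have h1 := hc' r
    rw [h0, zero_mul, zero_add] at h1
    apply hrr
    rw [← h1]
    apply Finset.sum_eq_zero
    intro e _
    rw [hr e.1 e.2, mul_zero]
  · obtain ⟨v, hv⟩ := hnr ((c none)⁻¹ • (r - ∑ e : E, c (some e) • e.1))
    apply hv
    have h1 := hc' v
    simp only [map_smul, map_sub, map_sum, LinearMap.smul_apply, LinearMap.sub_apply,
      LinearMap.sum_apply, smul_eq_mul]
    rw [← h1]
    field_simp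
    ring

/-- A finite good system. -/
structure Good (lam ψ : V →ₗ[ℝ] ℝ) (E : Finset V) : Prop where
  ne : ∀ v ∈ E, v ≠ 0
  ort : ∀ v ∈ E, ∀ w ∈ E, v ≠ w → B v w = 0
  pr : ∀ v ∈ E, lam v = 0 ∨ ψ v = 0

include hs hp in
lemma step (lam ψ : V →ₗ[ℝ] ℝ) (hlam : Unb B lam ⊤) (hψ : Bd B ψ)
    (hnr : ∀ v0, ∃ v, ψ v ≠ B v0 v) (E : Finset V) (hE : Good B lam ψ E) (d : V) :
    ∃ E' : Finset V, E ⊆ E' ∧ Good B lam ψ E' ∧ d ∈ Submodule.span ℝ (E' : Set V) := by
  classical
  set P : V := ∑ e ∈ E, (B e d / B e e) • e with hP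
  have hPmem : P ∈ Submodule.span ℝ (E : Set V) :=
    Submodule.sum_mem _ fun e he => Submodule.smul_mem _ _ (Submodule.subset_span he)
  set r : V := d - P with hr
  have hd : d = r + P := by simp [hr]
  have hrE : ∀ e ∈ E, B e r = 0 := by
    intro e he
    rw [hr, map_sub, hP, map_sum, Finset.sum_eq_single e]
    · have := (hp e (hE.ne e he)).ne'
      rw [map_smul, smul_eq_mul]
      field_simp
      ring
    · intro b hb hbe
      rw [map_smul, hE.ort e he b hb (Ne.symm hbe), smul_zero]
    · intro h; exact absurd he h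
  by_cases hr0 : r = 0
  · refine ⟨E, subset_rfl, hE, ?_⟩
    rw [hd, hr0, zero_add]
    exact hPmem
  have hrr := hp r hr0
  by_cases hcase : lam r = 0 ∨ ψ r = 0
  · refine ⟨insert r E, Finset.subset_insert _ _, ⟨?_, ?_, ?_⟩, ?_⟩
    · intro v hv
      rcases Finset.mem_insert.mp hv with rfl | hv
      · exact hr0
      · exact hE.ne v hv
    · intro v hv w hw hvw
      rcases Finset.mem_insert.mp hv with h1 | hv
      · rcases Finset.mem_insert.mp hw with h2 | hw
        · exact absurd (h1.trans h2.symm) hvw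
        · rw [h1, hs]; exact hrE w hw
      · rcases Finset.mem_insert.mp hw with h2 | hw
        · rw [h2]; exact hrE v hv
        · exact hE.ort v hv w hw hvw
    · intro v hv
      rcases Finset.mem_insert.mp hv with h1 | hv
      · rw [h1]; exact hcase
      · exact hE.pr v hv
    · rw [hd]
      apply Submodule.add_mem
      · exact Submodule.subset_span (by simp)
      · exact Submodule.span_mono (by simp) hPmem
  · push Not at hcase
    obtain ⟨ha, hψr⟩ := hcase
    obtain ⟨v, hvE, hψv, hrv⟩ := exists_v B ψ hnr E r hrE hrr.ne'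
    have hv0 : v ≠ 0 := by
      rintro rfl
      simp at hrv
    set a := lam r with hadef
    set b := lam v with hbdef
    set c := B v v with hcdef
    have hc : 0 < c := hp v hv0
    set q : ℝ := (a - b / (2 * c)) ^ 2 + 1 with hq
    have hqpos : 0 < q := by positivity
    obtain ⟨h0, hh0S, hψh0, hlamh0, hh0ε⟩ := unb_finset B hs hp lam ψ hlam hψ
      (insert r (insert v (E : Set V))) ((E.finite_toSet.insert v).insert r)
      (1 / (4 * c * q)) (by positivity)
    have hh0r : B r h0 = 0 := hh0S r (by simp)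
    have hh0v : B v h0 = 0 := hh0S v (by simp)
    have hh0E : ∀ e ∈ E, B e h0 = 0 := fun e he => hh0S e (by simp [he])
    set η := B h0 h0 with hη
    have hη0 : 0 ≤ η := nonneg B hp h0
    -- solve the quadratic equation
    obtain ⟨t, -, ht⟩ : ∃ t ∈ Set.Icc (0 : ℝ) (1 / (2 * c)),
        η * (a - t * b) ^ 2 + c * t ^ 2 - t = 0 := by
      have hcont : ContinuousOn (fun t : ℝ => η * (a - t * b) ^ 2 + c * t ^ 2 - t)
          (Set.Icc (0 : ℝ) (1 / (2 * c))) := by
        apply Continuous.continuousOn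
        fun_prop
      have hle : (0 : ℝ) ≤ 1 / (2 * c) := by positivity
      have := intermediate_value_Icc' hle hcont
      have h0mem : (0 : ℝ) ∈ Set.Icc
          (η * (a - (1 / (2 * c)) * b) ^ 2 + c * (1 / (2 * c)) ^ 2 - (1 / (2 * c)))
          (η * (a - 0 * b) ^ 2 + c * 0 ^ 2 - 0) := by
        constructor
        · have h1 : η * (a - (1 / (2 * c)) * b) ^ 2 ≤ 1 / (4 * c * q) * q := by
            have h2 : (a - (1 / (2 * c)) * b) ^ 2 ≤ q := by
              rw [hq, show (1 / (2 * c)) * b = b / (2 * c) by ring]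
              linarith
            exact mul_le_mul hh0ε.le h2 (sq_nonneg _) (by positivity)
          have h3 : 1 / (4 * c * q) * q = 1 / (4 * c) := by
            field_simp
          have h4 : c * (1 / (2 * c)) ^ 2 - (1 / (2 * c)) = - (1 / (4 * c)) := by
            field_simp
            ring
          linarith
        · have : 0 ≤ η * (a - 0 * b) ^ 2 := by positivity
          linarith
      exact this h0mem
    set h : V := (a - t * b) • h0 + t • v with hh
    set g : V := r - h with hg
    have hlamh : lam h = a := by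
      rw [hh, map_add, map_smul, map_smul, hlamh0, ← hbdef, smul_eq_mul, smul_eq_mul]
      ring
    have hψh : ψ h = 0 := by
      rw [hh, map_add, map_smul, map_smul, hψh0, hψv]
      simp
    have hhE : ∀ e ∈ E, B e h = 0 := by
      intro e he
      rw [hh, map_add, map_smul, map_smul, hh0E e he, hvE e he]
      simp
    have hgE : ∀ e ∈ E, B e g = 0 := by
      intro e he
      rw [hg, map_sub, hrE e he, hhE e he, sub_zero]
    have hrh : B r h = t := by
      rw [hh, map_add, map_smul, map_smul, hh0r, hrv]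
      simp
    have hhh : B h h = η * (a - t * b) ^ 2 + c * t ^ 2 := by
      have e1 : B h0 v = 0 := by rw [hs]; exact hh0v
      rw [hh]
      simp only [map_add, map_smul, LinearMap.add_apply, LinearMap.smul_apply, smul_eq_mul,
        e1, hh0v, ← hη, ← hcdef]
      ring
    have hgh : B g h = 0 := by
      rw [hg, map_sub, LinearMap.sub_apply, hrh, hhh]
      linarith
    have hlamg : lam g = 0 := by
      rw [hg, map_sub, hlamh, ← hadef, sub_self]
    have hg0 : g ≠ 0 := by
      intro h1
      apply hψr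
      have : ψ g = ψ r := by rw [hg, map_sub, hψh, sub_zero]
      rw [← this, h1, map_zero]
    have hh0' : h ≠ 0 := by
      intro h1
      apply ha
      rw [← hlamh, h1, map_zero]
    refine ⟨insert g (insert h E), fun x hx => by simp [hx], ⟨?_, ?_, ?_⟩, ?_⟩
    · intro x hx
      rcases Finset.mem_insert.mp hx with rfl | hx
      · exact hg0
      rcases Finset.mem_insert.mp hx with rfl | hx
      · exact hh0'
      · exact hE.ne x hx
    · intro x hx y hy hxy
      rcases Finset.mem_insert.mp hx with h1 | hx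
      · rcases Finset.mem_insert.mp hy with h2 | hy
        · exact absurd (h1.trans h2.symm) hxy
        rcases Finset.mem_insert.mp hy with h2 | hy
        · rw [h1, h2]; exact hgh
        · rw [h1, hs]; exact hgE y hy
      rcases Finset.mem_insert.mp hx with h1 | hx
      · rcases Finset.mem_insert.mp hy with h2 | hy
        · rw [h1, h2, hs]; exact hgh
        rcases Finset.mem_insert.mp hy with h2 | hy
        · exact absurd (h1.trans h2.symm) hxy
        · rw [h1, hs]; exact hhE y hy
      · rcases Finset.mem_insert.mp hy with h2 | hy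
        · rw [h2]; exact hgE x hx
        rcases Finset.mem_insert.mp hy with h2 | hy
        · rw [h2]; exact hhE x hx
        · exact hE.ort x hx y hy hxy
    · intro x hx
      rcases Finset.mem_insert.mp hx with h1 | hx
      · rw [h1]; exact Or.inl hlamg
      rcases Finset.mem_insert.mp hx with h1 | hx
      · rw [h1]; exact Or.inr hψh
      · exact hE.pr x hx
    · have hr' : r = g + h := by simp [hg]
      rw [hd, hr']
      apply Submodule.add_mem
      · apply Submodule.add_mem
        · exact Submodule.subset_span (by simp)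
        · exact Submodule.subset_span (by simp)
      · apply Submodule.span_mono _ hPmem
        intro x hx
        simp only [Finset.coe_insert, Set.mem_insert_iff]
        exact Or.inr (Or.inr hx)

end Abstract

section Concrete

open Polynomial MeasureTheory

/-- The bilinear form `∫₀¹ p q` on polynomials. -/
noncomputable def BB : ℝ[X] →ₗ[ℝ] ℝ[X] →ₗ[ℝ] ℝ :=
  LinearMap.mk₂ ℝ (fun p q => ∫ t in (0:ℝ)..1, p.eval t * q.eval t)
    (by
      intro p q r
      simp only [eval_add, add_mul]
      exact intervalIntegral.integral_add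
        ((p.continuous.mul r.continuous).intervalIntegrable _ _)
        ((q.continuous.mul r.continuous).intervalIntegrable _ _))
    (by
      intro c p q
      simp only [eval_smul, smul_eq_mul, mul_assoc]
      exact intervalIntegral.integral_const_mul _ _)
    (by
      intro p q r
      simp only [eval_add, mul_add]
      exact intervalIntegral.integral_add
        ((p.continuous.mul q.continuous).intervalIntegrable _ _)
        ((p.continuous.mul r.continuous).intervalIntegrable _ _))
    (by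
      intro c p q
      simp only [eval_smul, smul_eq_mul]
      rw [← intervalIntegral.integral_const_mul]
      congr 1
      ext t
      ring)

lemma BB_apply (p q : ℝ[X]) : BB p q = ∫ t in (0:ℝ)..1, p.eval t * q.eval t := rfl

lemma BB_symm (p q : ℝ[X]) : BB p q = BB q p := by
  simp only [BB_apply, mul_comm]

lemma exists_eval_ne (p : ℝ[X]) (hp : p ≠ 0) : ∃ t ∈ Set.Icc (0:ℝ) 1, p.eval t ≠ 0 := by
  by_contra hcon
  push Not at hcon
  apply hp
  apply eq_zero_of_infinite_isRoot
  exact (Set.Icc_infinite (zero_lt_one' ℝ)).mono fun t ht => hcon t ht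

lemma BB_pos (p : ℝ[X]) (hp : p ≠ 0) : 0 < BB p p := by
  obtain ⟨t, ht, hpt⟩ := exists_eval_ne p hp
  rw [BB_apply]
  refine intervalIntegral.integral_pos zero_lt_one (p.continuous.mul p.continuous).continuousOn
    (fun x _ => mul_self_nonneg _) ⟨t, ht, mul_self_pos.mpr hpt⟩

/-- The function `√(1+t)`. -/
noncomputable def ff (t : ℝ) : ℝ := Real.sqrt (1 + t)

lemma ff_cont : Continuous ff := by
  unfold ff
  fun_prop

/-- The functional `p ↦ ∫₀¹ √(1+t) p(t) dt`. -/
noncomputable def psi : ℝ[X] →ₗ[ℝ] ℝ where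
  toFun p := ∫ t in (0:ℝ)..1, ff t * p.eval t
  map_add' p q := by
    simp only [eval_add, mul_add]
    exact intervalIntegral.integral_add
        ((ff_cont.mul p.continuous).intervalIntegrable _ _)
        ((ff_cont.mul q.continuous).intervalIntegrable _ _)
  map_smul' c p := by
    simp only [eval_smul, smul_eq_mul, RingHom.id_apply]
    rw [← intervalIntegral.integral_const_mul]
    congr 1
    ext t
    ring

lemma psi_apply (p : ℝ[X]) : psi p = ∫ t in (0:ℝ)..1, ff t * p.eval t := rfl

lemma psi_bd : Bd BB psi := by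
  refine ⟨∫ t in (0:ℝ)..1, ff t * ff t,
    intervalIntegral.integral_nonneg zero_le_one (fun _ _ => mul_self_nonneg _), ?_⟩
  intro p
  by_cases hp : p = 0
  · simp [hp]
  have hpos := BB_pos p hp
  set x : ℝ := psi p / BB p p with hx
  have h1 : 0 ≤ ∫ t in (0:ℝ)..1, (ff t - x * p.eval t) * (ff t - x * p.eval t) :=
    intervalIntegral.integral_nonneg zero_le_one (fun _ _ => mul_self_nonneg _)
  have h2 : ∫ t in (0:ℝ)..1, (ff t - x * p.eval t) * (ff t - x * p.eval t) =
      (∫ t in (0:ℝ)..1, ff t * ff t) - 2 * x * psi p + x ^ 2 * BB p p := by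
    have e : ∀ t : ℝ, (ff t - x * p.eval t) * (ff t - x * p.eval t) =
        ff t * ff t - 2 * x * (ff t * p.eval t) + x ^ 2 * (p.eval t * p.eval t) := by
      intro t; ring
    simp only [e]
    rw [intervalIntegral.integral_add, intervalIntegral.integral_sub,
      intervalIntegral.integral_const_mul, intervalIntegral.integral_const_mul, psi_apply,
      BB_apply]
    · exact (ff_cont.mul ff_cont).intervalIntegrable _ _
    · exact (continuous_const.mul (ff_cont.mul p.continuous)).intervalIntegrable _ _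
    · exact ((ff_cont.mul ff_cont).sub
        (continuous_const.mul (ff_cont.mul p.continuous))).intervalIntegrable _ _
    · exact (continuous_const.mul (p.continuous.mul p.continuous)).intervalIntegrable _ _
  rw [h2] at h1
  have h3 : (∫ t in (0:ℝ)..1, ff t * ff t) - 2 * x * psi p + x ^ 2 * BB p p =
      (∫ t in (0:ℝ)..1, ff t * ff t) - (psi p) ^ 2 / BB p p := by
    rw [hx]
    field_simp
    ring
  rw [h3] at h1
  have h4 : (psi p) ^ 2 / BB p p ≤ ∫ t in (0:ℝ)..1, ff t * ff t := by linarith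
  rwa [div_le_iff₀ hpos] at h4

lemma unb_leval : Unb BB (leval (0:ℝ)) ⊤ := by
  intro ε hε
  obtain ⟨n, hn⟩ := exists_nat_gt (1 / ε)
  refine ⟨(1 - X) ^ n, trivial, by simp [leval], ?_⟩
  rw [BB_apply]
  have h1 : ∀ t : ℝ, ((1 - X : ℝ[X]) ^ n).eval t * ((1 - X : ℝ[X]) ^ n).eval t =
      (1 - t) ^ (2 * n) := by
    intro t
    simp only [eval_pow, eval_sub, eval_one, eval_X]
    ring
  simp only [h1]
  rw [intervalIntegral.integral_comp_sub_left (fun x => x ^ (2 * n)), integral_pow]
  have h2 : (1:ℝ) < ε * n := by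
    rw [div_lt_iff₀ hε] at hn
    linarith
  have h3 : (0:ℝ) < 2 * n + 1 := by positivity
  have h4 : (0:ℝ) ≤ (n:ℝ) := Nat.cast_nonneg n
  push_cast
  simp only [sub_zero, sub_self, one_pow, ne_eq, Nat.add_eq_zero_iff, mul_eq_zero,
    OfNat.ofNat_ne_zero, false_or, one_ne_zero, and_false, not_false_eq_true, zero_pow]
  rw [div_lt_iff₀ h3]
  nlinarith

lemma psi_nr (v0 : ℝ[X]) : ∃ v, psi v ≠ BB v0 v := by
  by_contra hcon
  push Not at hcon
  set D : ℝ → ℝ := fun t => ff t - v0.eval t with hD
  have hDc : Continuous D := ff_cont.sub v0.continuous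
  have hDp : ∀ p : ℝ[X], ∫ t in (0:ℝ)..1, D t * p.eval t = 0 := by
    intro p
    have h1 := hcon p
    rw [psi_apply, BB_apply] at h1
    have h2 : ∀ t, D t * p.eval t = ff t * p.eval t - v0.eval t * p.eval t := by
      intro t; simp only [hD]; ring
    simp only [h2]
    rw [intervalIntegral.integral_sub, h1, sub_self]
    · exact (ff_cont.mul p.continuous).intervalIntegrable _ _
    · exact (v0.continuous.mul p.continuous).intervalIntegrable _ _
  obtain ⟨M, hM⟩ := isCompact_Icc.exists_bound_of_continuousOn (s := Set.Icc (0:ℝ) 1)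
    hDc.continuousOn
  have hM0 : 0 ≤ M := (norm_nonneg _).trans (hM 0 (by simp))
  have hDD : ∀ ε : ℝ, 0 < ε → ∫ t in (0:ℝ)..1, D t * D t ≤ M * ε := by
    intro ε hε
    obtain ⟨p, hp⟩ := exists_polynomial_near_of_continuousOn 0 1 D hDc.continuousOn ε hε
    have h1 : ∫ t in (0:ℝ)..1, D t * D t = ∫ t in (0:ℝ)..1, D t * (D t - p.eval t) := by
      have h2 : ∀ t, D t * (D t - p.eval t) = D t * D t - D t * p.eval t := by
        intro t; ring
      simp only [h2]
      rw [intervalIntegral.integral_sub, hDp, sub_zero]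
      · exact (hDc.mul hDc).intervalIntegrable _ _
      · exact (hDc.mul p.continuous).intervalIntegrable _ _
    rw [h1]
    have h3 : ∫ t in (0:ℝ)..1, D t * (D t - p.eval t) ≤ ∫ t in (0:ℝ)..1, M * ε := by
      apply intervalIntegral.integral_mono_on zero_le_one
      · exact (hDc.mul (hDc.sub p.continuous)).intervalIntegrable _ _
      · exact continuous_const.intervalIntegrable _ _
      · intro t ht
        have h4 := hM t ht
        have h5 := (hp t ht).le
        rw [Real.norm_eq_abs] at h4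
        calc D t * (D t - p.eval t) ≤ |D t * (D t - p.eval t)| := le_abs_self _
          _ = |D t| * |p.eval t - D t| := by rw [abs_mul, abs_sub_comm (D t)]
          _ ≤ M * ε := mul_le_mul h4 h5 (abs_nonneg _) hM0
    simpa using h3
  have hD0 : ∀ t ∈ Set.Icc (0:ℝ) 1, D t = 0 := by
    intro t ht
    by_contra hne
    have hpos : 0 < ∫ t in (0:ℝ)..1, D t * D t :=
      intervalIntegral.integral_pos zero_lt_one (hDc.mul hDc).continuousOn
        (fun x _ => mul_self_nonneg _) ⟨t, ht, mul_self_pos.mpr hne⟩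
    have h1 := hDD ((∫ t in (0:ℝ)..1, D t * D t) / (2 * (M + 1))) (by positivity)
    have h2 : M * ((∫ t in (0:ℝ)..1, D t * D t) / (2 * (M + 1))) ≤
        (∫ t in (0:ℝ)..1, D t * D t) / 2 := by
      rw [mul_div_assoc', div_le_div_iff₀ (by positivity) (by positivity)]
      nlinarith
    linarith
  have hpoly : v0 ^ 2 - (1 + X) = 0 := by
    apply eq_zero_of_infinite_isRoot
    refine (Set.Icc_infinite (zero_lt_one' ℝ)).mono fun t ht => ?_
    have h1 := hD0 t ht
    have h2 : v0.eval t = Real.sqrt (1 + t) := by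
      simp only [hD, ff] at h1
      linarith
    simp only [Set.mem_ofPred_eq, IsRoot.def, eval_sub, eval_pow, eval_add, eval_one, eval_X, h2]
    rw [Real.sq_sqrt (by linarith [ht.1]), sub_self]
  have h1 : v0 ^ 2 = X + C 1 := by
    rw [sub_eq_zero] at hpoly
    rw [hpoly, C_1, add_comm]
  have h2 : (v0 ^ 2).natDegree = 2 * v0.natDegree := natDegree_pow v0 2
  rw [h1, natDegree_X_add_C] at h2
  omega

/-- There is an orthogonal system of polynomials spanning all polynomials, each member of which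
vanishes at `0` or is orthogonal to `√(1+t)`. -/
lemma exists_system : ∃ e : ℕ → ℝ[X], Function.Injective e ∧ (∀ n, e n ≠ 0) ∧
    (∀ m n, m ≠ n → BB (e m) (e n) = 0) ∧
    (∀ n, (e n).eval 0 = 0 ∨ psi (e n) = 0) ∧
    (∀ p : ℝ[X], p ∈ Submodule.span ℝ (Set.range e)) := by
  classical
  let S := {E : Finset ℝ[X] // Good BB (leval (0:ℝ)) psi E}
  have hstep : ∀ (s : S) (n : ℕ), ∃ s' : S, s.1 ⊆ s'.1 ∧
      (X ^ n : ℝ[X]) ∈ Submodule.span ℝ (s'.1 : Set ℝ[X]) := by
    intro s n
    obtain ⟨E', h1, h2, h3⟩ := step BB BB_symm BB_pos (leval (0:ℝ)) psi unb_leval psi_bd psi_nr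
      s.1 s.2 (X ^ n)
    exact ⟨⟨E', h2⟩, h1, h3⟩
  choose nxt hn1 hn2 using hstep
  let s0 : S := ⟨∅, ⟨by simp, by simp, by simp⟩⟩
  let sq : ℕ → S := fun n => Nat.rec s0 (fun k s => nxt s k) n
  have hsq : ∀ n, sq (n + 1) = nxt (sq n) n := fun n => rfl
  have hmono : Monotone (fun n => (sq n).1) := by
    apply monotone_nat_of_le_succ
    intro n
    rw [hsq]
    exact hn1 _ _
  let U : Set ℝ[X] := ⋃ n, ((sq n).1 : Set ℝ[X])
  have hspan : ∀ p : ℝ[X], p ∈ Submodule.span ℝ U := by
    intro p
    have hX : ∀ n : ℕ, (X ^ n : ℝ[X]) ∈ Submodule.span ℝ U := by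
      intro n
      have h1 := hn2 (sq n) n
      rw [← hsq] at h1
      exact Submodule.span_mono (Set.subset_iUnion (fun n => ((sq n).1 : Set ℝ[X])) (n + 1)) h1
    rw [p.as_sum_range_C_mul_X_pow]
    apply Submodule.sum_mem
    intro i _
    rw [← smul_eq_C_mul]
    exact Submodule.smul_mem _ _ (hX i)
  have hcount : U.Countable := Set.countable_iUnion fun n => (sq n).1.countable_toSet
  have hinf : U.Infinite := by
    intro hfin
    apply Polynomial.not_finite (R := ℝ)
    rw [Module.finite_def]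
    have : (⊤ : Submodule ℝ ℝ[X]) = Submodule.span ℝ U := by
      symm
      rw [eq_top_iff]
      intro p _
      exact hspan p
    rw [this]
    exact Submodule.fg_span hfin
  have : Countable U := hcount.to_subtype
  have : Infinite U := hinf.to_subtype
  obtain ⟨hden⟩ := nonempty_denumerable U
  let eqv : ℕ ≃ U := (Denumerable.eqv U).symm
  have hgood : ∀ x ∈ U, ∀ y ∈ U, ∃ n, x ∈ (sq n).1 ∧ y ∈ (sq n).1 := by
    intro x hx y hy
    obtain ⟨m, hm⟩ := Set.mem_iUnion.mp hx
    obtain ⟨k, hk⟩ := Set.mem_iUnion.mp hy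
    exact ⟨max m k, hmono (le_max_left m k) hm, hmono (le_max_right m k) hk⟩
  refine ⟨fun n => (eqv n).1, ?_, ?_, ?_, ?_, ?_⟩
  · exact Subtype.val_injective.comp eqv.injective
  · intro n
    obtain ⟨k, hk, -⟩ := hgood _ (eqv n).2 _ (eqv n).2
    exact (sq k).2.ne _ hk
  · intro m n hmn
    obtain ⟨k, hk1, hk2⟩ := hgood _ (eqv m).2 _ (eqv n).2
    apply (sq k).2.ort _ hk1 _ hk2
    intro h
    exact hmn (eqv.injective (Subtype.ext h))
  · intro n
    obtain ⟨k, hk, -⟩ := hgood _ (eqv n).2 _ (eqv n).2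
    exact (sq k).2.pr _ hk
  · intro p
    have : Set.range (fun n => (eqv n).1) = U := by
      ext x
      constructor
      · rintro ⟨n, rfl⟩
        exact (eqv n).2
      · intro hx
        exact ⟨eqv.symm ⟨x, hx⟩, by simp⟩
    rw [this]
    exact hspan p

end Concrete

/-- The negation of the preceding statement: For every system of nonzero continuous functions on [0,1] that is L²-orthogonal and uniformly dense in C[0,1], each continuous f is a uniform limit of finite combinations of those φ_n with nonzero Fourier coefficient of f. -/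
theorem result :
    ¬ (∀ φ : ℕ → ℝ → ℝ,
      (∀ n, ContinuousOn (φ n) (Set.Icc (0:ℝ) 1)) →
      (∀ n, ∃ t ∈ Set.Icc (0:ℝ) 1, φ n t ≠ 0) →
      (∀ m n : ℕ, m ≠ n → ∫ t in (0:ℝ)..1, φ m t * φ n t = 0) →
      (∀ g : ℝ → ℝ, ContinuousOn g (Set.Icc (0:ℝ) 1) → ∀ ε : ℝ, ε > 0 →
        ∃ s : Finset ℕ, ∃ c : ℕ → ℝ,
          ∀ t ∈ Set.Icc (0:ℝ) 1, |g t - ∑ i ∈ s, c i * φ i t| < ε) →
      ∀ f : ℝ → ℝ, ContinuousOn f (Set.Icc (0:ℝ) 1) → ∀ ε : ℝ, ε > 0 →
        ∃ s : Finset ℕ, (∀ i ∈ s, ∫ t in (0:ℝ)..1, f t * φ i t ≠ 0) ∧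
          ∃ c : ℕ → ℝ, ∀ t ∈ Set.Icc (0:ℝ) 1, |f t - ∑ i ∈ s, c i * φ i t| < ε) := by
  intro hall
  obtain ⟨e, -, hne, hort, hpr, hspan⟩ := exists_system
  obtain ⟨s, hs, c, hc⟩ := hall (fun n t => (e n).eval t)
    (fun n => (e n).continuous.continuousOn)
    (fun n => exists_eval_ne (e n) (hne n))
    (fun m n hmn => hort m n hmn)
    (by
      intro g hg ε hε
      obtain ⟨p, hp⟩ := exists_polynomial_near_of_continuousOn 0 1 g hg ε hε
      have h1 := hspan p
      rw [Finsupp.mem_span_range_iff_exists_finsupp] at h1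
      obtain ⟨c, hc⟩ := h1
      refine ⟨c.support, c, ?_⟩
      intro t ht
      have h2 : ∑ i ∈ c.support, c i * (e i).eval t = p.eval t := by
        rw [← hc, Finsupp.sum, Polynomial.eval_finsetSum]
        simp
      rw [h2, abs_sub_comm]
      exact hp t ht)
    ff ff_cont.continuousOn 1 one_pos
  have h0 := hc 0 (by simp)
  have h1 : ∑ i ∈ s, c i * (e i).eval 0 = 0 := by
    apply Finset.sum_eq_zero
    intro i hi
    rcases hpr i with h | h
    · rw [h, mul_zero]
    · exact absurd h (hs i hi)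
  rw [h1] at h0
  simp [ff] at h0

end Pool.Agent.S03678
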