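import Pool.Statements.S04648
import Pool.Agent.Helper59.Lit.Final

set_option autoImplicit false
open Pool Pool.MP_50285b_an

namespace Pool.Agent.S04648

/-- The negation of the preceding statement: There is a constant c>0 such that for every n≥1, every polynomial of degree n with all coefficients ±1 has a complex zero z with 1 − c/n < ∣z∣ < 1 + c/n. -/
theorem result :
    ¬ (∃ c : ℝ, 0 < c ∧
      ∀ n : ℕ, 1 ≤ n →
        ∀ a : ℕ → ℤ, (∀ j ∈ Finset.range (n + 1), a j = 1 ∨ a j = -1) →
          ∃ z : ℂ,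
            (∑ j ∈ Finset.range (n + 1), ((a j : ℤ) : ℂ) * z ^ j) = 0 ∧
            1 - c / (n : ℝ) < ‖z‖ ∧ ‖z‖ < 1 + c / (n : ℝ)) := by
  exact Pool.Agent.Helper59.Lit.answer

end Pool.Agent.S04648
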