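import Pool.Statements.S04849
import Pool.Agent.Helper56.Assemble

set_option autoImplicit false
open MeasureTheory ProbabilityTheory
open Pool Pool.MP_61c8ab_an

namespace Pool.Agent.S04849

/-- There are q≥2 and C such that, for all N≥n with n large, with probability →1 uniformly in N, the norm whose unit ball is a random Gaussian image of the N-dim cross-polytope in ℝ^n has cotype-q constant at most C. -/
theorem result :
    ∃ q : ℝ, 2 ≤ q ∧ ∃ C : ℝ, 0 < C ∧ ∀ ε : ℝ, 0 < ε → ∃ n₀ : ℕ, ∀ n N : ℕ, n₀ ≤ n → n ≤ N →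
      1 - ε ≤ ((Measure.pi (fun _ : Fin N => Measure.pi (fun _ : Fin n => gaussianReal 0 1)))
        {g : Fin N → Fin n → ℝ |
          (∀ y : Fin n → ℝ, ∃ t : Fin N → ℝ, ∑ j, t j • g j = y) ∧
          ∀ nrm : (Fin n → ℝ) → ℝ,
            (∀ y : Fin n → ℝ, nrm y =
              sInf {s : ℝ | ∃ t : Fin N → ℝ, ∑ j, t j • g j = y ∧ ∑ j, |t j| = s}) →
            ∀ (m : ℕ) (x : Fin m → Fin n → ℝ),
              (∑ i, nrm (x i) ^ q) ^ (1 / q) ≤
                C * ((1 / (2 : ℝ) ^ m) *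
                  ∑ σ : Fin m → Bool, nrm (∑ i, (if σ i then (1 : ℝ) else -1) • x i))}).toReal := by
  obtain ⟨d0, hd0⟩ := exists_nat_ge (8 * Helper56.Cube.QQ * (25600 * 76801 + 1))
  set d : ℕ := d0 + 1 with hd
  have hd1 : 1 ≤ d := by omega
  have hdQ : 8 * Helper56.Cube.QQ * (25600 * 76801 + 1) ≤ ((3200 * d : ℕ) : ℝ) := by
    refine hd0.trans ?_
    have : d0 ≤ 3200 * d := by omega
    exact_mod_cast this
  have hk0 : (0 : ℝ) < ((3200 * d : ℕ) : ℝ) := by
    have : 0 < 3200 * d := by omega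
    exact_mod_cast this
  obtain ⟨t0, ht0⟩ := exists_pow_lt_of_lt_one
    (show (0 : ℝ) < 1 / 2 / ((3200 * d : ℕ) : ℝ) by positivity) (show (3 / 4 : ℝ) < 1 by norm_num)
  set t : ℕ := t0 + 1 with ht
  have hkt : (3 / 4 : ℝ) ^ t * ((3200 * d : ℕ) : ℝ) ≤ 1 / 2 := by
    have h1 : (3 / 4 : ℝ) ^ t ≤ 1 / 2 / ((3200 * d : ℕ) : ℝ) := by
      refine le_trans ?_ ht0.le
      exact pow_le_pow_of_le_one (by norm_num) (by norm_num) (by omega)
    rwa [le_div_iff₀ hk0] at h1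
  refine ⟨((2 * t : ℕ) : ℝ), ?_, 4 * ((3200 * d : ℕ) : ℝ), by positivity, ?_⟩
  · have : 2 ≤ 2 * t := by omega
    exact_mod_cast this
  intro ε hε
  obtain ⟨n1, hn1⟩ := exists_nat_ge (320 / ε)
  refine ⟨max 960 n1, fun n N hn hnN => ?_⟩
  have hn960 : 960 ≤ n := le_trans (le_max_left _ _) hn
  have hnn1 : n1 ≤ n := le_trans (le_max_right _ _) hn
  have hn0 : (0 : ℝ) < n := by
    have : 0 < n := by omega
    exact_mod_cast this
  have hsmall : 4 * Real.exp (-(n : ℝ) / 80) ≤ ε := by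
    have h1 : (320 : ℝ) / ε ≤ n := hn1.trans (by exact_mod_cast hnn1)
    have h2 : 320 ≤ n * ε := by rwa [div_le_iff₀ hε] at h1
    have h3 : (n : ℝ) / 80 ≤ Real.exp ((n : ℝ) / 80) := by
      have := Real.add_one_le_exp ((n : ℝ) / 80); linarith
    have h4 : Real.exp (-(n : ℝ) / 80) = (Real.exp ((n : ℝ) / 80))⁻¹ := by
      rw [← Real.exp_neg]; congr 1; ring
    rw [h4, ← div_eq_mul_inv, div_le_iff₀ (Real.exp_pos _)]
    nlinarith
  obtain ⟨E, hE, hgood⟩ := Helper56.Cube.main_regimes n N hn960 hnN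
  set S : Set (Fin N → Fin n → ℝ) := {g : Fin N → Fin n → ℝ |
          (∀ y : Fin n → ℝ, ∃ t : Fin N → ℝ, ∑ j, t j • g j = y) ∧
          ∀ nrm : (Fin n → ℝ) → ℝ,
            (∀ y : Fin n → ℝ, nrm y =
              sInf {s : ℝ | ∃ t : Fin N → ℝ, ∑ j, t j • g j = y ∧ ∑ j, |t j| = s}) →
            ∀ (m : ℕ) (x : Fin m → Fin n → ℝ),
              (∑ i, nrm (x i) ^ ((2 * t : ℕ) : ℝ)) ^ (1 / ((2 * t : ℕ) : ℝ)) ≤
                (4 * ((3200 * d : ℕ) : ℝ)) * ((1 / (2 : ℝ) ^ m) *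
                  ∑ σ : Fin m → Bool, nrm (∑ i, (if σ i then (1 : ℝ) else -1) • x i))} with hS
  have hsub : Sᶜ ⊆ E := by
    intro g hg
    by_contra hgE
    apply hg
    have hG := hgood g hgE
    refine ⟨hG.1, fun nrm hnrm m x => ?_⟩
    have hq : nrm = Helper56.Cube.qn g := funext hnrm
    subst hq
    have h1 := Helper56.Cube.cotype_of_good g hG d t hd1 (by omega) hdQ hkt m x
    rw [Helper56.Cube.avg_real] at h1
    simpa [Helper56.Cube.sg] using h1
  have h1 : (Helper56.Cube.mu N n).real Sᶜ ≤ ε :=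
    (measureReal_mono hsub).trans (hE.trans hsmall)
  have h2 : (1 : ℝ) ≤ (Helper56.Cube.mu N n).real S + (Helper56.Cube.mu N n).real Sᶜ := by
    have h3 := measureReal_union_le (μ := Helper56.Cube.mu N n) S Sᶜ
    rw [Set.union_compl_self, probReal_univ] at h3
    exact h3
  have h3 : 1 - ε ≤ (Helper56.Cube.mu N n).real S := by linarith
  exact h3

end Pool.Agent.S04849
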