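import Pool.Statements.S05110
import Pool.Agent.Helper26.LeoFinal

set_option autoImplicit false
open Filter
open Pool Pool.MP_79be58_an

namespace Pool.Agent.S05110

/-- The negation of the preceding statement: For ρ>0 and entire f of order at most ρ and finite type with positive indicator and simple zeros, if ln∣f'(z)∣/∣z∣^ρ minus the indicator of f' at arg z tends to 0 along the zeros z, then f has completely regular growth. -/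
theorem result :
    ¬ (∀ ρ : ℝ, 0 < ρ → ∀ f : ℂ → ℂ, Differentiable ℂ f →
    (∃ C : ℝ, ∀ z : ℂ, ‖f z‖ ≤ C * Real.exp (C * ‖z‖ ^ ρ)) →
    ∀ h h' : ℝ → ℝ,
    (∀ φ : ℝ,
      (∀ ε : ℝ, 0 < ε → ∀ᶠ r : ℝ in atTop,
        ‖f ((r : ℂ) * Complex.exp ((φ : ℂ) * Complex.I))‖ ≤ Real.exp ((h φ + ε) * r ^ ρ)) ∧
      (∀ ε : ℝ, 0 < ε → ∃ᶠ r : ℝ in atTop,
        Real.exp ((h φ - ε) * r ^ ρ) ≤ ‖f ((r : ℂ) * Complex.exp ((φ : ℂ) * Complex.I))‖)) →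
    (∀ φ : ℝ,
      (∀ ε : ℝ, 0 < ε → ∀ᶠ r : ℝ in atTop,
        ‖deriv f ((r : ℂ) * Complex.exp ((φ : ℂ) * Complex.I))‖ ≤ Real.exp ((h' φ + ε) * r ^ ρ)) ∧
      (∀ ε : ℝ, 0 < ε → ∃ᶠ r : ℝ in atTop,
        Real.exp ((h' φ - ε) * r ^ ρ) ≤ ‖deriv f ((r : ℂ) * Complex.exp ((φ : ℂ) * Complex.I))‖)) →
    (∀ φ : ℝ, 0 < h φ) →
    (∀ z : ℂ, f z = 0 → deriv f z ≠ 0) →
    (∀ ε : ℝ, 0 < ε → ∃ R : ℝ, ∀ z : ℂ, f z = 0 → R ≤ ‖z‖ →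
        |Real.log ‖deriv f z‖ / ‖z‖ ^ ρ - h' (Complex.arg z)| < ε) →
    ∃ E : Set ℝ, E ⊆ Set.Ioi 0 ∧
      Tendsto (fun r : ℝ => (MeasureTheory.volume (E ∩ Set.Ioo 0 r)).toReal / r) atTop (nhds 0) ∧
      ∀ ε : ℝ, 0 < ε → ∃ R : ℝ, ∀ r : ℝ, R ≤ r → r ∉ E → ∀ φ : ℝ,
        Real.exp ((h φ - ε) * r ^ ρ) ≤ ‖f ((r : ℂ) * Complex.exp ((φ : ℂ) * Complex.I))‖ ∧
        ‖f ((r : ℂ) * Complex.exp ((φ : ℂ) * Complex.I))‖ ≤ Real.exp ((h φ + ε) * r ^ ρ)) := by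
  intro H
  obtain ⟨E, _, hT, hreg⟩ := H (4/3) (by norm_num) Helper26.Leo.ff Helper26.Leo.ff_diff
    Helper26.Leo.ff_growth Helper26.Leo.hI Helper26.Leo.hI'
    (fun φ => ⟨(Helper26.Leo.ind_spec (Helper26.Leo.hI_up φ) (Helper26.Leo.hI_low φ)).1,
      (Helper26.Leo.ind_spec (Helper26.Leo.hI_up φ) (Helper26.Leo.hI_low φ)).2.1⟩)
    (fun φ => ⟨(Helper26.Leo.ind_spec (Helper26.Leo.hI'_up φ) (Helper26.Leo.hI'_low φ)).1,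
      (Helper26.Leo.ind_spec (Helper26.Leo.hI'_up φ) (Helper26.Leo.hI'_low φ)).2.1⟩)
    Helper26.Leo.hI_pos
    (fun z hz => by
      obtain ⟨n, rfl⟩ := (Helper26.Leo.ff_zero_iff z).1 hz
      exact Helper26.Leo.deriv_ne_zero n)
    (fun ε hε => Helper26.Leo.zero_cond hε)
  refine Helper26.Leo.not_regular E hT (fun ε hε => ?_)
  obtain ⟨R, hR⟩ := hreg ε hε
  exact ⟨R, fun r hr hrE φ => (hR r hr hrE φ).1⟩

end Pool.Agent.S05110
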