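import Pool.Statements.S05143
import Pool.Agent.MP_7c5cdb.All.RFinal
import Pool.Agent.MP_7c5cdb.All.RowF23

set_option autoImplicit false
open MeasureTheory
open Pool Pool.MP_7c5cdb_an

namespace Pool.Agent.S05143

/-- For every d not congruent to 1 mod 4 and every Euclidean ball B in R^d, some set S of translation-modulation pairs makes the Gabor system of the ball's indicator complete in L2(R^d) with two-sided Riesz bounds, i.e. a Riesz basis. -/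
theorem result :
  ∀ d : ℕ, d % 4 ≠ 1 → ∀ (z : Fin d → ℝ) (r : ℝ), 0 < r →
    ∃ S : Set ((Fin d → ℝ) × (Fin d → ℝ)),
    ∃ A B : ℝ, 0 < A ∧ 0 < B ∧
    (∀ F : Finset ((Fin d → ℝ) × (Fin d → ℝ)), (↑F : Set ((Fin d → ℝ) × (Fin d → ℝ))) ⊆ S →
      ∀ c : (Fin d → ℝ) × (Fin d → ℝ) → ℂ,
        A * ∑ p ∈ F, ‖c p‖ ^ 2 ≤
          ∫ x : Fin d → ℝ, ‖∑ p ∈ F, c p *
            (Complex.exp (2 * (Real.pi : ℂ) * Complex.I * ((∑ i, p.2 i * x i : ℝ) : ℂ)) *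
              Set.indicator {y : Fin d → ℝ | ∑ i, (y i - z i) ^ 2 < r ^ 2}
                (fun _ => (1 : ℂ)) (x - p.1))‖ ^ 2 ∧
        ∫ x : Fin d → ℝ, ‖∑ p ∈ F, c p *
            (Complex.exp (2 * (Real.pi : ℂ) * Complex.I * ((∑ i, p.2 i * x i : ℝ) : ℂ)) *
              Set.indicator {y : Fin d → ℝ | ∑ i, (y i - z i) ^ 2 < r ^ 2}
                (fun _ => (1 : ℂ)) (x - p.1))‖ ^ 2
          ≤ B * ∑ p ∈ F, ‖c p‖ ^ 2) ∧
    (∀ f : (Fin d → ℝ) → ℂ, MemLp f 2 volume → ∀ ε : ℝ, 0 < ε →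
      ∃ F : Finset ((Fin d → ℝ) × (Fin d → ℝ)),
        (↑F : Set ((Fin d → ℝ) × (Fin d → ℝ))) ⊆ S ∧
        ∃ c : (Fin d → ℝ) × (Fin d → ℝ) → ℂ,
          ∫ x : Fin d → ℝ, ‖f x - ∑ p ∈ F, c p *
            (Complex.exp (2 * (Real.pi : ℂ) * Complex.I * ((∑ i, p.2 i * x i : ℝ) : ℂ)) *
              Set.indicator {y : Fin d → ℝ | ∑ i, (y i - z i) ^ 2 < r ^ 2}
                (fun _ => (1 : ℂ)) (x - p.1))‖ ^ 2 < ε) := by
  intro d _ z r hr
  rcases Nat.eq_zero_or_pos d with rfl | hd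
  · exact Pool.Agent.MP7c5cdb.All.exists_ball_zero z r hr
  · exact Pool.Agent.MP7c5cdb.All.exists_ball_of_radius
      (Pool.Agent.MP7c5cdb.All.exists_ball_radius hd) z r hr

end Pool.Agent.S05143
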