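import Pool.Statements.S05418
import Pool.Agent.Helper43.Land12

set_option autoImplicit false
open MeasureTheory
open Pool Pool.MP_92d530_an

namespace Pool.Agent.S05418

/-- The negation of the preceding statement: In every dimension d≥1 and for every bound M, there is C>0 such that any real weak solution of −Δu+Vu=0 with real ∣V∣≤M and ∣u(x)∣≤e^{−C∣x∣} vanishes almost everywhere. -/
theorem result :
    ¬ (∀ d : ℕ, 1 ≤ d → ∀ M : ℝ, 0 < M → ∃ C : ℝ, 0 < C ∧
      ∀ V u : EuclideanSpace ℝ (Fin d) → ℝ, Measurable V → Measurable u →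
        (∀ x, |V x| ≤ M) →
        (∀ x, |u x| ≤ Real.exp (-(C * ‖x‖))) →
        (∀ φ : EuclideanSpace ℝ (Fin d) → ℝ, ContDiff ℝ 2 φ → HasCompactSupport φ →
          ∫ x, (-(u x * ∑ i : Fin d,
                  iteratedFDeriv ℝ 2 φ x (fun _ => EuclideanSpace.single i (1 : ℝ)))
                + V x * u x * φ x) = 0) →
        ∀ᵐ x ∂(volume : Measure (EuclideanSpace ℝ (Fin d))), u x = 0) := by
  intro H
  obtain ⟨C, hC, h⟩ := H 3 (by norm_num) 2 (by norm_num)
  obtain ⟨V, u, hVc, huc, hV, hu, hw, x0, hx0⟩ :=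
    Pool.Agent.Helper43.Landis.main (max C 1) (le_max_right _ _)
  have hae := h V u hVc.measurable huc.measurable (fun x => (hV x).trans (by norm_num))
    (fun x => (hu x).trans (Real.exp_le_exp.mpr (neg_le_neg
      (mul_le_mul_of_nonneg_right (le_max_left _ _) (norm_nonneg _)))))
    (fun φ hφ hs => hw φ hφ hs)
  have hcont : Continuous fun _ : EuclideanSpace ℝ (Fin 3) => (0 : ℝ) := continuous_const
  have heq := (Continuous.ae_eq_iff_eq (volume : Measure (EuclideanSpace ℝ (Fin 3))) huc hcont).mp hae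
  exact hx0 (congrFun heq x0)

end Pool.Agent.S05418
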