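import Pool.Statements.S06582
import Pool.Agent.MBD.Unb
import Pool.Agent.MBD.Walsh

set_option autoImplicit false
open Pool Pool.MP_ec81d5_an

namespace Pool.Agent.S06582

/-- The negation of the preceding statement: For each real p>1 there is C>0 such that for all n, d and every real function on the n-cube of degree at most d, the p-norm of its Laplacian (multiplying each Walsh coefficient by ∣S∣) is at most C·d times the p-norm of the function. -/
theorem result :
    ¬ (∀ p : ℝ, 1 < p → ∃ C : ℝ, 0 < C ∧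
      ∀ n d : ℕ, ∀ c : Finset (Fin n) → ℝ,
        (∀ S : Finset (Fin n), d < S.card → c S = 0) →
        (∑ x : Fin n → Bool,
            |∑ S : Finset (Fin n), (S.card : ℝ) * c S *
                ∏ i ∈ S, (if x i then (1 : ℝ) else -1)| ^ p)
          ≤ (C * (d : ℝ)) ^ p *
            ∑ x : Fin n → Bool,
              |∑ S : Finset (Fin n), c S *
                  ∏ i ∈ S, (if x i then (1 : ℝ) else -1)| ^ p) := by
  intro h
  obtain ⟨C, hC, hall⟩ := h (201 / 200) (by norm_num)
  obtain ⟨ι, i1, i2, d, f, hf, hK⟩ := Pool.Agent.MBD.H59.binary_unbounded C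
  obtain ⟨G, hG, hn1, hn2⟩ := Pool.Agent.MBD.G59.exists_fin_reindex hf (201 / 200)
  obtain ⟨c, hc, hF, hL⟩ := Pool.Agent.MBD.G59.walsh_form hG
  have hmain := hall _ d c hc
  simp_rw [hF, hL] at hmain
  have hcard : (0 : ℝ) < Fintype.card (Fin (Fintype.card ι) → Bool) := by
    have : 0 < Fintype.card (Fin (Fintype.card ι) → Bool) := Fintype.card_pos
    exact_mod_cast this
  have hCd : 0 ≤ C * (d : ℝ) := by positivity
  have h1 : Pool.Agent.MBD.mean (fun x => |Pool.Agent.MBD.lap G x| ^ (201 / 200 : ℝ)) ≤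
      (C * (d : ℝ)) ^ (201 / 200 : ℝ) *
        Pool.Agent.MBD.mean (fun x => |G x| ^ (201 / 200 : ℝ)) := by
    unfold Pool.Agent.MBD.mean
    rw [← mul_div_assoc]
    exact div_le_div_of_nonneg_right hmain hcard.le
  have h2 : Pool.Agent.MBD.nrm (201 / 200) (Pool.Agent.MBD.lap G) ≤
      C * d * Pool.Agent.MBD.nrm (201 / 200) G := by
    unfold Pool.Agent.MBD.nrm
    calc (Pool.Agent.MBD.mean fun x => |Pool.Agent.MBD.lap G x| ^ (201 / 200 : ℝ)) ^
          (1 / (201 / 200 : ℝ))
        ≤ ((C * (d : ℝ)) ^ (201 / 200 : ℝ) *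
            Pool.Agent.MBD.mean (fun x => |G x| ^ (201 / 200 : ℝ))) ^ (1 / (201 / 200 : ℝ)) := by
          apply Real.rpow_le_rpow _ h1 (by norm_num)
          unfold Pool.Agent.MBD.mean
          positivity
      _ = C * d * (Pool.Agent.MBD.mean (fun x => |G x| ^ (201 / 200 : ℝ))) ^
          (1 / (201 / 200 : ℝ)) := by
          rw [Real.mul_rpow (by positivity) (by unfold Pool.Agent.MBD.mean; positivity),
            ← Real.rpow_mul hCd]
          norm_num
  rw [hn1, hn2] at h2
  exact absurd hK (not_lt.mpr h2)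

end Pool.Agent.S06582
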