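import Pool.Statements.S06658
import Pool.Agent.Helper89.FPV

set_option autoImplicit false
open Pool Pool.MP_f1354d_an

namespace Pool.Agent.S06658

/-- The negation of the preceding statement: For every real Banach space X and maximally monotone A from X to subsets of X*, and every open convex U meeting dom A: any (x,x*) with x in U monotonically related to all graph points over U lies in the graph (type FPV). -/
theorem result :
    ¬ (∀ (X : Type) [NormedAddCommGroup X] [NormedSpace ℝ X] [CompleteSpace X]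
      (A : X → Set (X →L[ℝ] ℝ)),
      ((∀ x y : X, ∀ xs ∈ A x, ∀ ys ∈ A y, 0 ≤ (xs - ys) (x - y)) ∧
        (∀ (x : X) (xs : X →L[ℝ] ℝ),
          (∀ y : X, ∀ ys ∈ A y, 0 ≤ (xs - ys) (x - y)) → xs ∈ A x)) →
      ∀ U : Set X, IsOpen U → Convex ℝ U → (∃ y ∈ U, (A y).Nonempty) →
        ∀ x ∈ U, ∀ xs : X →L[ℝ] ℝ,
          (∀ y ∈ U, ∀ ys ∈ A y, 0 ≤ (xs - ys) (x - y)) → xs ∈ A x) := by
  intro h
  obtain ⟨A, hA, U, hU, hconv, hne, x, hx, xs, hrel, hnot⟩ := Pool.Agent.Helper89.FPV.main
  exact hnot (h Pool.Agent.Helper89.FPV.X A hA U hU hconv hne x hx xs hrel)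

end Pool.Agent.S06658
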