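import Pool.Statements.S06931
import Pool.Agent.P6.Frozen
import Pool.Agent.P6.Main
-- import your own Pool.Agent.* helpers here

set_option autoImplicit false
open Pool Pool.MP_035085_co

namespace Pool.Agent.S06931

/-- For every full-dimensional convex polytope in 6-space, given by its vertex set, any three pairs of six distinct vertices can be joined by three pairwise vertex-disjoint paths in the polytope's edge graph. -/
theorem result :
    ∀ S : Finset (EuclideanSpace ℝ (Fin 6)),
      (interior (convexHull ℝ (S : Set (EuclideanSpace ℝ (Fin 6))))).Nonempty →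
      (∀ x ∈ S, x ∈ Set.extremePoints ℝ (convexHull ℝ (S : Set (EuclideanSpace ℝ (Fin 6))))) →
      ∀ s t : Fin 3 → S, Function.Injective (Sum.elim s t) →
        ∃ p : ∀ i, (SimpleGraph.fromRel (fun a b : S =>
              ∃ ℓ : EuclideanSpace ℝ (Fin 6) →ₗ[ℝ] ℝ,
                ℓ b.1 = ℓ a.1 ∧
                ∀ x ∈ S, ℓ x ≤ ℓ a.1 ∧ (ℓ x = ℓ a.1 → x ∈ segment ℝ a.1 b.1))).Walk (s i) (t i),
          (∀ i, (p i).IsPath) ∧
          ∀ i j, i ≠ j → List.Disjoint (p i).support (p j).support :=
  Pool.Agent.P6.frozen_of_univ fun S h hd x y a b c d hx hy ha hb hc hdd hn =>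
    Pool.Agent.P6.linked3 h hd hx hy ha hb hc hdd hn

end Pool.Agent.S06931
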