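import Pool.Statements.S07802
import Pool.Agent.Helper37.Lat.L9

set_option autoImplicit false
open scoped InnerProductSpace
open Pool Pool.MP_2a19ed_co

namespace Pool.Agent.S07802

/-- The negation of the preceding statement: For all large d, outside a meagre set of symmetric convex bodies C in d-space, C is smooth and every densest lattice for C is unique up to scaling, eutactic and perfect with respect to C, and has exactly 2d² minimal vectors. -/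
theorem result :
    ¬ (∃ d₀ : ℕ, ∀ d : ℕ, d₀ ≤ d →
    IsMeagre {K : {K : TopologicalSpace.NonemptyCompacts (EuclideanSpace ℝ (Fin d)) //
        Convex ℝ (K : Set (EuclideanSpace ℝ (Fin d))) ∧
        (interior (K : Set (EuclideanSpace ℝ (Fin d)))).Nonempty ∧
        ∀ x ∈ (K : Set (EuclideanSpace ℝ (Fin d))), -x ∈ (K : Set (EuclideanSpace ℝ (Fin d)))} |
      ¬ ((∀ x ∈ frontier (K.1 : Set (EuclideanSpace ℝ (Fin d))),
            ∃! u : EuclideanSpace ℝ (Fin d), ‖u‖ = 1 ∧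
              ∀ y ∈ (K.1 : Set (EuclideanSpace ℝ (Fin d))), ⟪y - x, u⟫_ℝ ≤ 0) ∧
        ∀ (Λ : Module.Basis (Fin d) ℝ (EuclideanSpace ℝ (Fin d)) → Set (EuclideanSpace ℝ (Fin d))),
          (∀ b, Λ b = (Submodule.span ℤ (Set.range ⇑b) : Set (EuclideanSpace ℝ (Fin d)))) →
        ∀ (lam : Module.Basis (Fin d) ℝ (EuclideanSpace ℝ (Fin d)) → ℝ),
          (∀ b, lam b = sInf (gauge (K.1 : Set (EuclideanSpace ℝ (Fin d))) '' (Λ b \ {0}))) →
        ∀ (ρ : Module.Basis (Fin d) ℝ (EuclideanSpace ℝ (Fin d)) → ℝ),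
          (∀ b, ρ b = lam b ^ d / |(EuclideanSpace.basisFun (Fin d) ℝ).toBasis.det ⇑b|) →
        ∀ b : Module.Basis (Fin d) ℝ (EuclideanSpace ℝ (Fin d)), (∀ b', ρ b' ≤ ρ b) →
        ∀ M : Set (EuclideanSpace ℝ (Fin d)),
          M = {l | l ∈ Λ b ∧ l ≠ 0 ∧ gauge (K.1 : Set (EuclideanSpace ℝ (Fin d))) l = lam b} →
          (∀ b', (∀ b'', ρ b'' ≤ ρ b') →
              ∃ α : ℝ, 0 < α ∧ Λ b' = (fun y => α • y) '' Λ b) ∧
          (∃ u : EuclideanSpace ℝ (Fin d) → EuclideanSpace ℝ (Fin d),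
              (∀ l ∈ M, ‖u l‖ = 1 ∧
                ∀ y ∈ (K.1 : Set (EuclideanSpace ℝ (Fin d))), ⟪y, u l⟫_ℝ ≤ ⟪l, u l⟫_ℝ / lam b) ∧
              (∃ c : EuclideanSpace ℝ (Fin d) → ℝ, (∀ l ∈ M, 0 < c l) ∧
                ∑ᶠ l ∈ M, c l • (innerSL ℝ ((⟪l, u l⟫_ℝ)⁻¹ • l)).smulRight (u l)
                  = ContinuousLinearMap.id ℝ (EuclideanSpace ℝ (Fin d))) ∧
              Submodule.span ℝ
                ((fun l => (innerSL ℝ ((⟪l, u l⟫_ℝ)⁻¹ • l)).smulRight (u l)) '' M) = ⊤) ∧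
          M.ncard = 2 * d ^ 2)}) := by
  rintro ⟨d₀, h⟩
  set d := max d₀ 2 with hd
  have hd2 : 2 ≤ d := le_max_right _ _
  have hm := h d (le_max_left _ _)
  obtain ⟨U, hUo, hUne, hU⟩ := Pool.Agent.Helper37.Lat.few_minimal hd2
  haveI := Pool.Agent.Helper37.Lat.baireBody (E := EuclideanSpace ℝ (Fin d))
  refine not_isMeagre_of_isOpen hUo hUne (hm.mono ?_)
  intro K hK
  obtain ⟨b, hb1, hb2⟩ := hU K hK
  rintro ⟨-, h2⟩
  have h3 := h2 Pool.Agent.Helper37.Lat.Lam (fun _ => rfl)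
    (Pool.Agent.Helper37.Lat.lamf (K.1 : Set (EuclideanSpace ℝ (Fin d)))) (fun _ => rfl)
    (Pool.Agent.Helper37.Lat.rho (K.1 : Set (EuclideanSpace ℝ (Fin d)))) (fun _ => rfl)
    b hb1 _ rfl
  exact absurd h3.2.2 (ne_of_lt hb2)

end Pool.Agent.S07802
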