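import Pool.Statements.S08056
import Pool.Agent.Helper20.LPX.Main

set_option autoImplicit false
open Pool Pool.MP_351dfc_co

namespace Pool.Agent.S08056

/-- The negation of the preceding statement: Every finite loopless digraph has a set of pairwise nonadjacent vertices that contains at least one vertex of every longest directed path. -/
theorem result :
    ¬ (∀ (V : Type) [Fintype V] (D : Digraph V),
      (∀ v : V, ¬ D.Adj v v) →
      ∃ S : Set V,
        (∀ u ∈ S, ∀ v ∈ S, ¬ D.Adj u v) ∧
        ∀ (k : ℕ) (f : Fin (k + 1) → V),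
          Function.Injective f →
          (∀ i : Fin k, D.Adj (f i.castSucc) (f i.succ)) →
          (∀ (m : ℕ) (g : Fin (m + 1) → V),
              Function.Injective g →
              (∀ i : Fin m, D.Adj (g i.castSucc) (g i.succ)) → m ≤ k) →
          ∃ i : Fin (k + 1), f i ∈ S) := by
  intro hmain
  obtain ⟨S, hS, hall⟩ := hmain (Fin 20 × Fin 13) Pool.Agent.Helper20.LPX.D0
    Pool.Agent.Helper20.LPX.D0_irrefl
  exact Pool.Agent.Helper20.LPX.D0_main S hS
    (fun f hf ha => hall 19 f hf ha (fun m g hg hga => Pool.Agent.Helper20.LPX.D0_bound m g hg hga))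

end Pool.Agent.S08056
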