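import Pool.Statements.S08207
import Pool.Agent.Helper63.Common.Final

set_option autoImplicit false
open Pool Pool.MP_3b56a7_co

namespace Pool.Agent.S08207

/-- Some integer linear equation with nonzero coefficients is not r-common on {1..n} for some r≥3, yet is s-common for some 2≤s<r. Here s-common means every s-colouring has asymptotically at least s^(1-k) of all solutions monochromatic. -/
theorem result :
    ∃ k : ℕ, ∃ a : Fin k → ℤ, (∀ i, a i ≠ 0) ∧ ∃ r s : ℕ, 3 ≤ r ∧ 2 ≤ s ∧ s < r ∧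
      (¬ ∀ ε : ℝ, 0 < ε → ∃ N : ℕ, ∀ n : ℕ, N ≤ n → ∀ c : Fin n → Fin r,
          ((((r : ℝ) ^ (k - 1))⁻¹ - ε) *
              ((Finset.univ.filter (fun x : Fin k → Fin n =>
                  ∑ i, a i * (((x i : ℕ) : ℤ) + 1) = 0)).card : ℝ))
            ≤ ((Finset.univ.filter (fun x : Fin k → Fin n =>
                  ∑ i, a i * (((x i : ℕ) : ℤ) + 1) = 0 ∧
                    ∀ i j : Fin k, c (x i) = c (x j))).card : ℝ)) ∧
      (∀ ε : ℝ, 0 < ε → ∃ N : ℕ, ∀ n : ℕ, N ≤ n → ∀ c : Fin n → Fin s,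
          ((((s : ℝ) ^ (k - 1))⁻¹ - ε) *
              ((Finset.univ.filter (fun x : Fin k → Fin n =>
                  ∑ i, a i * (((x i : ℕ) : ℤ) + 1) = 0)).card : ℝ))
            ≤ ((Finset.univ.filter (fun x : Fin k → Fin n =>
                  ∑ i, a i * (((x i : ℕ) : ℤ) + 1) = 0 ∧
                    ∀ i j : Fin k, c (x i) = c (x j))).card : ℝ)) := by
  exact Pool.Agent.Helper63.Common.final

end Pool.Agent.S08207
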