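import Pool.Statements.S09154
-- import your own Pool.Agent.* helpers here
import Pool.Agent.Helper38.Stretch.Main

set_option autoImplicit false
open Pool Pool.MP_621e06_co

namespace Pool.Agent.S09154

/-- label vectors: booleans versus `ZMod 2` -/
def toZ (n : ℕ) : (Fin n → Bool) ≃ (Fin n → ZMod 2) where
  toFun x i := Helper38.Stretch.bzm (x i)
  invFun z i := Helper38.Stretch.zb (z i)
  left_inv x := by
    funext i
    exact Helper38.Stretch.zb_bzm (x i)
  right_inv z := by
    funext i
    exact Helper38.Stretch.bzm_zb (z i)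

lemma toZ_update {n : ℕ} (x : Fin n → Bool) (i : Fin n) :
    toZ n (Function.update x i (!x i)) = toZ n x + Pi.single i 1 := by
  funext k
  by_cases hk : k = i
  · subst hk
    simp only [toZ, Equiv.coe_fn_mk, Function.update_self, Pi.add_apply, Pi.single_eq_same]
    cases x k <;> decide
  · simp only [toZ, Equiv.coe_fn_mk, Function.update_of_ne hk, Pi.add_apply,
      Pi.single_eq_of_ne hk, add_zero]

/-- The negation of the preceding statement: There are sets A_n of half the points of the (n+1)-cube such that, for any C, for all large n every bijection from the n-cube onto A_n has average edge stretch (mean Hamming distance of images of adjacent points) above C. -/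
theorem result :
    ¬ (∃ A : ∀ n : ℕ, Finset (Fin (n + 1) → Bool),
      (∀ n, (A n).card = 2 ^ n) ∧
      ∀ C : ℝ, ∃ N : ℕ, ∀ n ≥ N,
        ∀ f : (Fin n → Bool) → (Fin (n + 1) → Bool),
          Function.Injective f → Set.range f = (↑(A n) : Set (Fin (n + 1) → Bool)) →
          C < (∑ x : Fin n → Bool, ∑ i : Fin n,
                (hammingDist (f x) (f (Function.update x i (!x i))) : ℝ)) /
              ((n : ℝ) * 2 ^ n)) := by
  rintro ⟨A, hA, h⟩
  obtain ⟨N0, hN0⟩ := h Helper38.Stretch.CC
  have hCJ := Helper38.Stretch.CJ_pos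
  obtain ⟨m, ⟨h1, h2, h3, h4, h5, h6, h7, h8, h9, h10, h11, h12⟩, hmN⟩ :=
    ((Helper38.Stretch.params Helper38.Stretch.CJ (2 * Helper38.Stretch.CJ) hCJ.le
      (by positivity)).and (Filter.eventually_ge_atTop N0)).exists
  obtain ⟨n, hn⟩ : ∃ n : ℕ, n = m ^ 32 := ⟨_, rfl⟩
  obtain ⟨f, hinj, hrange, hst⟩ := Helper38.Stretch.main_exists m hn h1 h2 h3 h4 h5 h6 h7 h8 h9
    h10 h11 h12 (A n) (hA n)
  have hm1 : 1 ≤ m := by omega
  have hnN : n ≥ N0 := by
    rw [hn]
    exact hmN.trans (Nat.le_self_pow (by norm_num) m)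
  have hn1 : 0 < n := by rw [hn]; positivity
  have hlt := hN0 n hnN (fun x => f (toZ n x)) (hinj.comp (toZ n).injective) (by
    rw [← hrange]
    exact (toZ n).surjective.range_comp f)
  have hsum : (∑ x : Fin n → Bool, ∑ i : Fin n,
      (hammingDist (f (toZ n x)) (f (toZ n (Function.update x i (!x i)))) : ℝ)) =
      ∑ j : Fin n, ∑ x, (hammingDist (f x) (f (x + Pi.single j 1)) : ℝ) := by
    rw [Finset.sum_comm]
    apply Finset.sum_congr rfl
    intro i _
    exact Fintype.sum_equiv (toZ n) _ _ (fun x => by rw [toZ_update])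
  have hpos : (0 : ℝ) < (n : ℝ) * 2 ^ n := by positivity
  rw [hsum, lt_div_iff₀ hpos] at hlt
  have : Helper38.Stretch.CC * ((n : ℝ) * 2 ^ n) = Helper38.Stretch.CC * n * 2 ^ n := by ring
  linarith

end Pool.Agent.S09154
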