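import Pool.Statements.S09583
import Pool.Agent.Helper40.Eval

set_option autoImplicit false
open Pool Pool.MP_770436_co

namespace Pool.Agent.S09583

/-- For each k ≥ 1 there is C such that, for every finite graph whose maximum over distinct vertex pairs of the number of edge-disjoint connecting paths is exactly k, every complex root z of its chromatic polynomial satisfies ∣z − 1∣ ≤ C. -/
theorem result :
    ∀ k : ℕ, 0 < k → ∃ C : ℝ, ∀ (V : Type) [Fintype V] (G : SimpleGraph V),
      ((∃ u v : V, u ≠ v ∧ ∃ p : Fin k → G.Walk u v,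
          (∀ i, (p i).IsPath) ∧ Pairwise (fun i j => List.Disjoint (p i).edges (p j).edges)) ∧
       (∀ u v : V, u ≠ v → ¬ ∃ p : Fin (k + 1) → G.Walk u v,
          (∀ i, (p i).IsPath) ∧ Pairwise (fun i j => List.Disjoint (p i).edges (p j).edges))) →
      ∀ P : Polynomial ℂ,
        (∀ n : ℕ, P.eval (n : ℂ) = ((Nat.card (G.Coloring (Fin n)) : ℕ) : ℂ)) →
        ∀ z : ℂ, P.IsRoot z → ‖z - 1‖ ≤ C := by
  intro k hk
  refine ⟨(k : ℝ) * 2 ^ (k + 3) + 1, ?_⟩
  intro V _ G hG P hP z hz
  classical
  by_contra hcon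
  push Not at hcon
  have h1 : (k : ℝ) * 2 ^ (k + 3) ≤ ‖z‖ := by
    have h2 : ‖z - 1‖ ≤ ‖z‖ + 1 := by
      have := norm_sub_le z 1
      simpa using this
    linarith
  exact Helper40.zero_free k hk G
    (fun u v huv => Helper40.exists_cut_of_no_paths k u v huv (hG.2 u v huv)) P hP z h1 hz

end Pool.Agent.S09583
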