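import Pool.Statements.S09675
import Pool.Agent.Helper40.Surf.QuadMain
import Pool.Agent.Helper65.Quad.All

set_option autoImplicit false
open Classical
open Pool Pool.MP_7c526b_co

namespace Pool.Agent.S09675

/-- There is c>0 such that for all large n some closed connected surface, triangulated by straight triangles embedded in R^3, has exactly n vertices and at least c·n^2 edges. -/
theorem result :
  ∃ c : ℝ, 0 < c ∧ ∃ N : ℕ, ∀ n : ℕ, N ≤ n →
    ∃ K : Geometry.SimplicialComplex ℝ (EuclideanSpace ℝ (Fin 3)),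
      K.faces.Finite ∧
      (∀ s ∈ K.faces, s.card ≤ 3) ∧
      (∀ s ∈ K.faces, ∃ t ∈ K.faces, s ⊆ t ∧ t.card = 3) ∧
      (∀ e ∈ K.faces, e.card = 2 →
        {t : Finset (EuclideanSpace ℝ (Fin 3)) | t ∈ K.faces ∧ e ⊆ t ∧ t.card = 3}.ncard = 2) ∧
      (∀ v : EuclideanSpace ℝ (Fin 3), ({v} : Finset (EuclideanSpace ℝ (Fin 3))) ∈ K.faces →
        (SimpleGraph.fromRel
          (fun a b : {a : EuclideanSpace ℝ (Fin 3) //
              a ≠ v ∧ ({v, a} : Finset (EuclideanSpace ℝ (Fin 3))) ∈ K.faces} =>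
            ({v, a.1, b.1} : Finset (EuclideanSpace ℝ (Fin 3))) ∈ K.faces)).Connected) ∧
      (SimpleGraph.fromRel
          (fun a b : {x : EuclideanSpace ℝ (Fin 3) //
              ({x} : Finset (EuclideanSpace ℝ (Fin 3))) ∈ K.faces} =>
            ({a.1, b.1} : Finset (EuclideanSpace ℝ (Fin 3))) ∈ K.faces)).Connected ∧
      {x : EuclideanSpace ℝ (Fin 3) |
          ({x} : Finset (EuclideanSpace ℝ (Fin 3))) ∈ K.faces}.ncard = n ∧
      c * (n : ℝ) ^ 2 ≤
        (({s : Finset (EuclideanSpace ℝ (Fin 3)) | s ∈ K.faces ∧ s.card = 2}.ncard : ℕ) : ℝ) := by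
  exact Pool.Agent.Helper40.Surf.quad_main (T := Pool.Agent.Helper65.Quad.TT)
    (pos := Pool.Agent.Helper65.Quad.pos)
    (fun _ hN => Pool.Agent.Helper65.Quad.isComb_TT hN)
    (fun _ hN => Pool.Agent.Helper65.Quad.isGeom_TT hN)
    (fun _ _ => Pool.Agent.Helper65.Quad.card_TT)
    (fun _ _ => Pool.Agent.Helper65.Quad.verts_TT)

end Pool.Agent.S09675
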