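import Pool.Statements.S10277
import Pool.Agent.Helper42.Unav.Lower
import Pool.Agent.Helper14.Unav.Final

set_option autoImplicit false
open Pool Pool.MP_973f56_co

namespace Pool.Agent.S10277

/-- For r at least 2 and ε>0 there are constants c, C, K, N so that for n ≥ N and K n^(r-1) ≤ e ≤ n^(r-ε), the max size of an r-graph in every n-vertex e-edge r-graph is within factors c, C of min(e^(r/(r-1))/n^(r-1+1/(r-1)), e^(1/r)). -/
theorem result :
    ∀ r : ℕ, 2 ≤ r → ∀ ε : ℝ, 0 < ε →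
      ∃ c C K : ℝ, 0 < c ∧ 0 < C ∧ ∃ N : ℕ, ∀ n e : ℕ, N ≤ n →
        K * (n : ℝ) ^ (r - 1) ≤ (e : ℝ) → (e : ℝ) ≤ (n : ℝ) ^ ((r : ℝ) - ε) →
        (∃ H : Finset (Finset (Fin n)), (∀ h ∈ H, h.card = r) ∧
            c * min ((e : ℝ) ^ ((r : ℝ) / ((r : ℝ) - 1)) /
                  (n : ℝ) ^ ((r : ℝ) - 1 + 1 / ((r : ℝ) - 1)))
                ((e : ℝ) ^ (1 / (r : ℝ))) ≤ (H.card : ℝ) ∧
            ∀ G : Finset (Finset (Fin n)), (∀ g ∈ G, g.card = r) → G.card = e →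
              ∃ φ : Fin n ↪ Fin n, ∀ h ∈ H, h.map φ ∈ G) ∧
        (∀ H : Finset (Finset (Fin n)), (∀ h ∈ H, h.card = r) →
            (∀ G : Finset (Finset (Fin n)), (∀ g ∈ G, g.card = r) → G.card = e →
              ∃ φ : Fin n ↪ Fin n, ∀ h ∈ H, h.map φ ∈ G) →
            (H.card : ℝ) ≤ C * min ((e : ℝ) ^ ((r : ℝ) / ((r : ℝ) - 1)) /
                  (n : ℝ) ^ ((r : ℝ) - 1 + 1 / ((r : ℝ) - 1)))
                ((e : ℝ) ^ (1 / (r : ℝ)))) := by
  exact Helper14.Unav.final Pool.Agent.Helper42.Unav.lower_comb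

end Pool.Agent.S10277
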