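import Pool.Statements.S10616

set_option autoImplicit false
open Pool Pool.MP_a6f6ae_co

namespace Pool.Agent.S10616

/-- The Apery numbers `B_n`. -/
def B (n : ℕ) : ℕ := ∑ k ∈ Finset.range (n + 1), (n.choose k) ^ 2 * ((n + k).choose k)

/-- The coefficients of the test polynomial. -/
def p : Fin 11 → ℤ :=
  ![395143245, -1795321300, 2780054526, -2115402831, 920990421, -247374186, 42405127,
    -4651015, 315915, -12104, 200]

/-- The shifted Hankel form of `B` is negative at `p`. -/
theorem quad_neg :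
    (∑ i : Fin 11, ∑ j : Fin 11, p i * p j * (B (i.val + j.val + 1) : ℤ)) = -51489496226402 := by
  decide +kernel

/-- No measure on the nonnegative reals has the moments `B n`. -/
theorem no_B (μ : MeasureTheory.Measure ℝ) (h0 : μ (Set.Iio 0) = 0)
    (h : ∀ n : ℕ, ∫⁻ x, ENNReal.ofReal (x ^ n) ∂μ = ((B n : ℕ) : ENNReal)) : False := by
  have hnn : ∀ᵐ x ∂μ, (0 : ℝ) ≤ x := by
    rw [MeasureTheory.ae_iff]
    convert h0 using 2
    ext x
    simp
  have hint : ∀ n : ℕ, MeasureTheory.Integrable (fun x : ℝ => x ^ n) μ := by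
    intro n
    refine ⟨(measurable_id.pow_const n).aestronglyMeasurable, ?_⟩
    rw [MeasureTheory.hasFiniteIntegral_iff_ofReal]
    · rw [h n]
      exact ENNReal.natCast_lt_top _
    · filter_upwards [hnn] with x hx
      exact pow_nonneg hx n
  have hmom : ∀ n : ℕ, ∫ x : ℝ, x ^ n ∂μ = (B n : ℝ) := by
    intro n
    rw [MeasureTheory.integral_eq_lintegral_of_nonneg_ae]
    · rw [h n]
      simp
    · filter_upwards [hnn] with x hx
      exact pow_nonneg hx n
    · exact (measurable_id.pow_const n).aestronglyMeasurable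
  have hexp : ∀ x : ℝ, x * (∑ i : Fin 11, (p i : ℝ) * x ^ i.val) ^ 2
      = ∑ i : Fin 11, ∑ j : Fin 11, ((p i : ℝ) * (p j : ℝ)) * x ^ (i.val + j.val + 1) := by
    intro x
    rw [sq, Finset.sum_mul_sum, Finset.mul_sum]
    refine Finset.sum_congr rfl fun i _ => ?_
    rw [Finset.mul_sum]
    refine Finset.sum_congr rfl fun j _ => ?_
    ring
  have hI : ∫ x : ℝ, x * (∑ i : Fin 11, (p i : ℝ) * x ^ i.val) ^ 2 ∂μ = -51489496226402 := by
    simp_rw [hexp]
    rw [MeasureTheory.integral_finsetSum]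
    · have : ∀ i : Fin 11, ∫ x : ℝ, ∑ j : Fin 11, ((p i : ℝ) * (p j : ℝ)) * x ^ (i.val + j.val + 1) ∂μ
          = ∑ j : Fin 11, ((p i : ℝ) * (p j : ℝ)) * (B (i.val + j.val + 1) : ℝ) := by
        intro i
        rw [MeasureTheory.integral_finsetSum]
        · refine Finset.sum_congr rfl fun j _ => ?_
          rw [MeasureTheory.integral_const_mul, hmom]
        · intro j _
          exact (hint _).const_mul _
      simp_rw [this]
      have hq := congrArg (fun z : ℤ => (z : ℝ)) quad_neg
      push_cast at hq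
      exact hq
    · intro i _
      exact MeasureTheory.integrable_finsetSum _ fun j _ => (hint _).const_mul _
  have hpos : 0 ≤ ∫ x : ℝ, x * (∑ i : Fin 11, (p i : ℝ) * x ^ i.val) ^ 2 ∂μ := by
    refine MeasureTheory.integral_nonneg_of_ae ?_
    filter_upwards [hnn] with x hx
    exact mul_nonneg hx (sq_nonneg _)
  rw [hI] at hpos
  norm_num at hpos

/-- The negation of the preceding statement: There is a measure on the nonnegative reals whose n-th moments are the Apéry numbers A_n = sum of C(n,k)^2 C(n+k,k)^2, and another whose n-th moments are B_n = sum of C(n,k)^2 C(n+k,k), for all n. -/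
theorem result :
    ¬ ((∃ μ : MeasureTheory.Measure ℝ, μ (Set.Iio 0) = 0 ∧ ∀ n : ℕ,
      ∫⁻ x, ENNReal.ofReal (x ^ n) ∂μ =
        ((∑ k ∈ Finset.range (n + 1), (n.choose k) ^ 2 * ((n + k).choose k) ^ 2 : ℕ) : ENNReal)) ∧
    (∃ μ : MeasureTheory.Measure ℝ, μ (Set.Iio 0) = 0 ∧ ∀ n : ℕ,
      ∫⁻ x, ENNReal.ofReal (x ^ n) ∂μ =
        ((∑ k ∈ Finset.range (n + 1), (n.choose k) ^ 2 * ((n + k).choose k) : ℕ) : ENNReal))) := by
  rintro ⟨-, μ, h0, h⟩
  exact no_B μ h0 h

end Pool.Agent.S10616
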