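import Pool.Statements.S10933
import Pool.Agent.Helper55.Final

set_option autoImplicit false
open Pool Pool.MP_b4ba96_co

namespace Pool.Agent.S10933

open Pool.Agent.Helper55.BE in
lemma exists_min (n : ℕ) : ∃ G : SimpleGraph (Fin n), (∃ G' : SimpleGraph (Fin n), Valid G') →
    (Valid G ∧ ∀ G' : SimpleGraph (Fin n), Valid G' → G.indepNum ≤ G'.indepNum) := by
  classical
  by_cases h : ∃ G' : SimpleGraph (Fin n), Valid G'
  · have hk : ∃ k : ℕ, ∃ G : SimpleGraph (Fin n), Valid G ∧ G.indepNum = k := by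
      obtain ⟨G', hG'⟩ := h
      exact ⟨_, G', hG', rfl⟩
    obtain ⟨G, hG, hGk⟩ := Nat.find_spec hk
    refine ⟨G, fun _ => ⟨hG, fun G' hG' => ?_⟩⟩
    rw [hGk]
    exact Nat.find_min' hk ⟨G', hG', rfl⟩
  · exact ⟨⊥, fun h' => absurd h' h⟩

/-- There are graphs G_n on n vertices such that, for all large n, G_n is K4-free, has no isolated vertex, and its most repeated degree occurs exactly 4 times, with independence number divided by n tending to 0. -/
theorem result :
    ∃ N : ℕ, ∃ G : (n : ℕ) → SimpleGraph (Fin n),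
      (∀ n ≥ N,
        (G n).CliqueFree 4 ∧
        (∀ v : Fin n, 1 ≤ ((G n).neighborSet v).ncard) ∧
        (∀ d : ℕ, {v : Fin n | ((G n).neighborSet v).ncard = d}.ncard ≤ 4) ∧
        (∃ d : ℕ, {v : Fin n | ((G n).neighborSet v).ncard = d}.ncard = 4)) ∧
      Filter.Tendsto (fun n : ℕ => ((G n).indepNum : ℝ) / (n : ℝ)) Filter.atTop (nhds 0) := by
  choose G hG using exists_min
  obtain ⟨N, hN⟩ := Pool.Agent.Helper55.BE.exists_valid 10 le_rfl
  refine ⟨N, G, fun n hn => ?_, ?_⟩
  · obtain ⟨G', hG', _⟩ := hN n hn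
    exact (hG n ⟨G', hG'⟩).1
  · rw [Metric.tendsto_atTop]
    intro ε hε
    obtain ⟨b, hb⟩ := exists_nat_gt (1 / ε)
    obtain ⟨n₀, hn₀⟩ := Pool.Agent.Helper55.BE.exists_valid (max 10 b) (le_max_left _ _)
    refine ⟨max n₀ 1, fun n hn => ?_⟩
    obtain ⟨G', hG', hle⟩ := hn₀ n ((le_max_left _ _).trans hn)
    have hn1 : 1 ≤ n := (le_max_right _ _).trans hn
    have h1 := (hG n ⟨G', hG'⟩).2 G' hG'
    have h2 : max 10 b * (G n).indepNum ≤ n := (Nat.mul_le_mul_left _ h1).trans hle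
    have h3 : (b : ℝ) * ((G n).indepNum : ℝ) ≤ n := by
      have h4 : b * (G n).indepNum ≤ n := (Nat.mul_le_mul_right _ (le_max_right 10 b)).trans h2
      exact_mod_cast h4
    have hnr : (0 : ℝ) < n := by exact_mod_cast hn1
    have hbpos : (0 : ℝ) < b := lt_trans (by positivity) hb
    rw [Real.dist_eq, sub_zero, abs_of_nonneg (by positivity), div_lt_iff₀ hnr]
    have h5 : 1 < ε * b := by
      rw [div_lt_iff₀ hε] at hb
      linarith
    have h6 : ((G n).indepNum : ℝ) ≤ n / b := by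
      rw [le_div_iff₀ hbpos]; linarith
    have h7 : (n : ℝ) / b < ε * n := by
      rw [div_lt_iff₀ hbpos]
      nlinarith
    linarith

end Pool.Agent.S10933
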