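import Pool.Statements.S11238
-- import your own Pool.Agent.* helpers here

set_option autoImplicit false
open Pool Pool.MP_c1e4cd_co

namespace Pool.Agent.S11238

/-- The permutations sending `i0` to `j` and `i1` to `j'`. -/
def fib2 {n : ℕ} (i0 i1 j j' : Fin n) : Finset (Equiv.Perm (Fin n)) :=
  Finset.univ.filter (fun σ => σ i0 = j ∧ σ i1 = j')

theorem card_fib2_eq {n : ℕ} (i0 i1 j j' k k' : Fin n) (hj : j ≠ j') (hk : k ≠ k') :
    (fib2 i0 i1 j j').card = (fib2 i0 i1 k k').card := by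
  classical
  obtain ⟨τ, h1, h2⟩ : ∃ τ : Equiv.Perm (Fin n), τ j = k ∧ τ j' = k' := by
    refine ⟨Equiv.swap (Equiv.swap j k j') k' * Equiv.swap j k, ?_, ?_⟩
    · rw [Equiv.Perm.mul_apply, Equiv.swap_apply_left]
      apply Equiv.swap_apply_of_ne_of_ne
      · intro h
        have h3 : Equiv.swap j k j' = Equiv.swap j k j := by
          rw [Equiv.swap_apply_left]; exact h.symm
        exact hj ((Equiv.swap j k).injective h3).symm
      · exact hk
    · rw [Equiv.Perm.mul_apply, Equiv.swap_apply_left]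
  refine Finset.card_bij' (fun σ _ => τ * σ) (fun σ _ => τ⁻¹ * σ) ?_ ?_ ?_ ?_
  · intro σ hσ
    simp only [fib2, Finset.mem_filter, Finset.mem_univ, true_and] at hσ ⊢
    rw [Equiv.Perm.mul_apply, Equiv.Perm.mul_apply, hσ.1, hσ.2]
    exact ⟨h1, h2⟩
  · intro σ hσ
    simp only [fib2, Finset.mem_filter, Finset.mem_univ, true_and] at hσ ⊢
    rw [Equiv.Perm.mul_apply, Equiv.Perm.mul_apply, hσ.1, hσ.2, ← h1, ← h2]
    simp
  · intro σ _
    simp
  · intro σ _
    simp

theorem fib2_diag {n : ℕ} (i0 i1 j : Fin n) (h : i0 ≠ i1) : (fib2 i0 i1 j j).card = 0 := by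
  rw [Finset.card_eq_zero]
  ext σ
  simp only [fib2, Finset.mem_filter, Finset.mem_univ, true_and, Finset.notMem_empty, iff_false]
  rintro ⟨h1, h2⟩
  exact h (σ.injective (h1.trans h2.symm))

theorem sum_fib2 {n : ℕ} (i0 i1 : Fin n) (S : Finset (Fin n × Fin n)) :
    (Finset.univ.filter (fun σ : Equiv.Perm (Fin n) => (σ i0, σ i1) ∈ S)).card
      = ∑ p ∈ S, (fib2 i0 i1 p.1 p.2).card := by
  classical
  rw [Finset.card_eq_sum_card_fiberwise (f := fun σ : Equiv.Perm (Fin n) => (σ i0, σ i1)) (t := S)]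
  · apply Finset.sum_congr rfl
    intro p hp
    congr 1
    ext σ
    simp only [fib2, Finset.mem_filter, Finset.mem_univ, true_and]
    constructor
    · rintro ⟨_, h⟩
      exact ⟨congrArg Prod.fst h, congrArg Prod.snd h⟩
    · rintro ⟨h1, h2⟩
      have : (σ i0, σ i1) = p := by rw [h1, h2]
      exact ⟨by rw [this]; exact hp, this⟩
  · intro σ hσ
    simpa using hσ

theorem card_fib2 {m : ℕ} (i0 i1 j j' : Fin (m + 2)) (h : i0 ≠ i1) (hj : j ≠ j') :
    (fib2 i0 i1 j j').card = m.factorial := by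
  classical
  have h1 := sum_fib2 i0 i1 (Finset.univ : Finset (Fin (m + 2) × Fin (m + 2)))
  have h2 : (Finset.univ.filter (fun σ : Equiv.Perm (Fin (m + 2)) =>
      (σ i0, σ i1) ∈ (Finset.univ : Finset (Fin (m + 2) × Fin (m + 2))))).card
      = (m + 2).factorial := by
    simp [Fintype.card_perm]
  rw [h2] at h1
  have h3 : ∑ p : Fin (m + 2) × Fin (m + 2), (fib2 i0 i1 p.1 p.2).card
      = ∑ p ∈ (Finset.univ : Finset (Fin (m + 2))).offDiag, (fib2 i0 i1 j j').card := by
    have h4 : ∑ p : Fin (m + 2) × Fin (m + 2), (fib2 i0 i1 p.1 p.2).card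
        = ∑ p : Fin (m + 2) × Fin (m + 2), (if p.1 ≠ p.2 then (fib2 i0 i1 j j').card else 0) := by
      apply Finset.sum_congr rfl
      intro p _
      by_cases hp : p.1 = p.2
      · rw [if_neg (by simpa using hp), hp]
        exact fib2_diag i0 i1 p.2 h
      · rw [if_pos hp]
        exact card_fib2_eq i0 i1 p.1 p.2 j j' hp hj
    rw [h4, ← Finset.sum_filter]
    apply Finset.sum_congr
    · ext p
      simp
    · intro _ _; rfl
  rw [h3, Finset.sum_const, Finset.offDiag_card] at h1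
  simp only [Finset.card_univ, Fintype.card_fin, smul_eq_mul] at h1
  have h5 : (m + 2) * (m + 2) - (m + 2) = (m + 2) * (m + 1) := by
    rw [Nat.sub_eq_iff_eq_add (by nlinarith)]
    ring
  rw [h5, Nat.factorial_succ, Nat.factorial_succ] at h1
  have h6 : (m + 2) * (m + 1) * m.factorial = (m + 2) * (m + 1) * (fib2 i0 i1 j j').card := by
    rw [← h1]; ring
  exact (Nat.eq_of_mul_eq_mul_left (by positivity) h6).symm

theorem card_two {m : ℕ} (i0 i1 : Fin (m + 2)) (h : i0 ≠ i1) (J J' : Finset (Fin (m + 2)))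
    (hJ : Disjoint J J') :
    (Finset.univ.filter (fun σ : Equiv.Perm (Fin (m + 2)) => σ i0 ∈ J ∧ σ i1 ∈ J')).card
      = J.card * J'.card * m.factorial := by
  classical
  have h1 := sum_fib2 i0 i1 (J ×ˢ J')
  have h2 : (Finset.univ.filter (fun σ : Equiv.Perm (Fin (m + 2)) => σ i0 ∈ J ∧ σ i1 ∈ J'))
      = (Finset.univ.filter (fun σ : Equiv.Perm (Fin (m + 2)) => (σ i0, σ i1) ∈ J ×ˢ J')) := by
    ext σ
    simp
  rw [h2, h1, Finset.sum_congr rfl (g := fun _ => m.factorial)]
  · rw [Finset.sum_const, Finset.card_product, smul_eq_mul]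
  · intro p hp
    rw [Finset.mem_product] at hp
    apply card_fib2 i0 i1 _ _ h
    intro he
    rw [he] at hp
    exact Finset.disjoint_left.mp hJ hp.1 hp.2

theorem card_one {m : ℕ} (i0 i1 : Fin (m + 2)) (h : i0 ≠ i1) (J : Finset (Fin (m + 2))) :
    (Finset.univ.filter (fun σ : Equiv.Perm (Fin (m + 2)) => σ i0 ∈ J)).card
      = J.card * (m + 1).factorial := by
  classical
  have h1 := sum_fib2 i0 i1 (J ×ˢ Finset.univ)
  have h2 : (Finset.univ.filter (fun σ : Equiv.Perm (Fin (m + 2)) => σ i0 ∈ J))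
      = (Finset.univ.filter (fun σ : Equiv.Perm (Fin (m + 2)) =>
        (σ i0, σ i1) ∈ J ×ˢ (Finset.univ : Finset (Fin (m + 2))))) := by
    ext σ
    simp
  rw [h2, h1, Finset.sum_product]
  rw [Finset.sum_congr rfl (g := fun _ => (m + 1).factorial)]
  · rw [Finset.sum_const, smul_eq_mul]
  · intro j _
    have h3 : ∑ y : Fin (m + 2), (fib2 i0 i1 (j, y).1 (j, y).2).card
        = ∑ y : Fin (m + 2), (if y ≠ j then m.factorial else 0) := by
      apply Finset.sum_congr rfl
      intro y _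
      by_cases hy : y = j
      · rw [if_neg (by simpa using hy), hy]
        exact fib2_diag i0 i1 j h
      · rw [if_pos hy]
        exact card_fib2 i0 i1 j y h (Ne.symm hy)
    rw [h3, ← Finset.sum_filter, Finset.sum_const, Finset.filter_ne', smul_eq_mul,
      Finset.card_erase_of_mem (Finset.mem_univ _), Finset.card_univ, Fintype.card_fin,
      Nat.factorial_succ]
    congr 1

/-- The negation of the preceding statement: Some C₀>0 works for all n≥1: if A⊆S_n, c=∣A∣/(n-1)!, and 1_A is within mean-square εc/n of the span of 1-coset indicators, then 1_A is within C₀εc/n of a union of round(c) distinct 1-cosets, and ∣c−round(c)∣≤C₀ε. -/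
theorem result :
    ¬ (∃ C₀ : ℝ, 0 < C₀ ∧ ∀ n : ℕ, 1 ≤ n → ∀ A : Finset (Equiv.Perm (Fin n)), ∀ ε : ℝ, 0 ≤ ε →
    (∃ a : Fin n → Fin n → ℝ,
      (1 / (n.factorial : ℝ)) * ∑ σ : Equiv.Perm (Fin n),
          ((if σ ∈ A then (1:ℝ) else 0) - ∑ i : Fin n, a i (σ i)) ^ 2
        ≤ ε * ((A.card : ℝ) / ((n - 1).factorial : ℝ)) / n) →
    ∃ S : Finset (Fin n × Fin n),
      (S.card : ℤ) = round ((A.card : ℝ) / ((n - 1).factorial : ℝ)) ∧
      (1 / (n.factorial : ℝ)) * ∑ σ : Equiv.Perm (Fin n),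
          ((if σ ∈ A then (1:ℝ) else 0) - (if ∃ p ∈ S, σ p.1 = p.2 then (1:ℝ) else 0)) ^ 2
        ≤ C₀ * ε * ((A.card : ℝ) / ((n - 1).factorial : ℝ)) / n ∧
      |(A.card : ℝ) / ((n - 1).factorial : ℝ)
          - ((round ((A.card : ℝ) / ((n - 1).factorial : ℝ)) : ℤ) : ℝ)| ≤ C₀ * ε) := by
  classical
  rintro ⟨C₀, hC₀, H⟩
  -- choose `b` with `a = b + 2 > C₀`, and `n = 2 a ^ 2 + 1 = m + 2`
  obtain ⟨b, hb⟩ := exists_nat_gt C₀
  obtain ⟨a, ha⟩ : ∃ a : ℕ, a = b + 2 := ⟨_, rfl⟩
  obtain ⟨m, hm⟩ : ∃ m : ℕ, m + 1 = 2 * a ^ 2 :=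
    ⟨2 * a ^ 2 - 1, Nat.sub_add_cancel (by rw [ha]; nlinarith)⟩
  have ha2 : 2 ≤ a := by omega
  have haR : C₀ < (a : ℝ) := by
    rw [ha]; push_cast; linarith
  have haR2 : (2 : ℝ) ≤ (a : ℝ) := by exact_mod_cast ha2
  have hmR : (m : ℝ) + 1 = 2 * (a : ℝ) ^ 2 := by exact_mod_cast hm
  have h2a : 2 * a ≤ m + 2 := by nlinarith
  -- the two points and the two target sets
  let i0 : Fin (m + 2) := ⟨0, by omega⟩
  let i1 : Fin (m + 2) := ⟨1, by omega⟩
  have hi : i0 ≠ i1 := by
    intro h
    have := congrArg Fin.val h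
    simp [i0, i1] at this
  let J : Finset (Fin (m + 2)) := Finset.univ.filter (fun x => x.val < a)
  let J' : Finset (Fin (m + 2)) := Finset.univ.filter (fun x => a ≤ x.val ∧ x.val < 2 * a)
  have hJJ' : Disjoint J J' := by
    rw [Finset.disjoint_left]
    intro x hx hx'
    simp only [J, J', Finset.mem_filter, Finset.mem_univ, true_and] at hx hx'
    omega
  have hJc : J.card = a := by
    have : J = (Finset.univ : Finset (Fin a)).map
        (Fin.castLEEmb (show a ≤ m + 2 by omega)) := by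
      ext x
      simp only [J, Finset.mem_filter, Finset.mem_univ, true_and, Finset.mem_map]
      constructor
      · intro hx
        exact ⟨⟨x.val, hx⟩, by ext; simp⟩
      · rintro ⟨y, rfl⟩
        simp
    rw [this, Finset.card_map, Finset.card_univ, Fintype.card_fin]
  have hJc' : J'.card = a := by
    have h1 : (Finset.univ.filter (fun x : Fin (m + 2) => x.val < 2 * a)).card = 2 * a := by
      have : (Finset.univ.filter (fun x : Fin (m + 2) => x.val < 2 * a))
          = (Finset.univ : Finset (Fin (2 * a))).map (Fin.castLEEmb h2a) := by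
        ext x
        simp only [Finset.mem_filter, Finset.mem_univ, true_and, Finset.mem_map]
        constructor
        · intro hx
          exact ⟨⟨x.val, hx⟩, by ext; simp⟩
        · rintro ⟨y, rfl⟩
          simp
      rw [this, Finset.card_map, Finset.card_univ, Fintype.card_fin]
    have h2 : J ∪ J' = Finset.univ.filter (fun x : Fin (m + 2) => x.val < 2 * a) := by
      ext x
      simp only [J, J', Finset.mem_union, Finset.mem_filter, Finset.mem_univ, true_and]
      omega
    have h3 := Finset.card_union_of_disjoint hJJ'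
    rw [h2, h1, hJc] at h3
    omega
  -- the set
  let A : Finset (Equiv.Perm (Fin (m + 2))) :=
    Finset.univ.filter (fun σ => σ i0 ∈ J ∨ σ i1 ∈ J')
  let B : Finset (Equiv.Perm (Fin (m + 2))) :=
    Finset.univ.filter (fun σ => σ i0 ∈ J ∧ σ i1 ∈ J')
  have hB : B.card = a * a * m.factorial := by
    have := card_two i0 i1 hi J J' hJJ'
    rw [hJc, hJc'] at this
    exact this
  have hA : (A.card : ℝ) = (2 * (a : ℝ) - 1 / 2) * ((m + 1).factorial : ℝ) := by
    have h1 : A.card + B.card = a * (m + 1).factorial + a * (m + 1).factorial := by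
      have e1 := card_one i0 i1 hi J
      have e2 := card_one i1 i0 hi.symm J'
      rw [hJc] at e1
      rw [hJc'] at e2
      have e3 : A = (Finset.univ.filter (fun σ : Equiv.Perm (Fin (m + 2)) => σ i0 ∈ J)) ∪
          (Finset.univ.filter (fun σ : Equiv.Perm (Fin (m + 2)) => σ i1 ∈ J')) := by
        ext σ; simp [A]
      have e4 : B = (Finset.univ.filter (fun σ : Equiv.Perm (Fin (m + 2)) => σ i0 ∈ J)) ∩
          (Finset.univ.filter (fun σ : Equiv.Perm (Fin (m + 2)) => σ i1 ∈ J')) := by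
        ext σ; simp [B]
      rw [e3, e4, Finset.card_union_add_card_inter, e1, e2]
    have h2 : (A.card : ℝ) + (B.card : ℝ)
        = a * ((m + 1).factorial : ℝ) + a * ((m + 1).factorial : ℝ) := by
      exact_mod_cast h1
    have h3 : (B.card : ℝ) = a * a * (m.factorial : ℝ) := by
      exact_mod_cast hB
    have h4 : ((m + 1).factorial : ℝ) = 2 * (a : ℝ) ^ 2 * (m.factorial : ℝ) := by
      rw [Nat.factorial_succ]; push_cast; rw [hmR]
    rw [h3] at h2
    rw [h4] at h2 ⊢
    linarith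
  have hfpos : (0 : ℝ) < ((m + 1).factorial : ℝ) := by exact_mod_cast (m + 1).factorial_pos
  have hc : (A.card : ℝ) / (((m + 2) - 1).factorial : ℝ) = 2 * (a : ℝ) - 1 / 2 := by
    have : (m + 2) - 1 = m + 1 := by omega
    rw [this, hA]
    field_simp
  have hround : round (2 * (a : ℝ) - 1 / 2) = 2 * (a : ℤ) := by
    rw [round_eq]
    have : 2 * (a : ℝ) - 1 / 2 + 1 / 2 = ((2 * (a : ℤ) : ℤ) : ℝ) := by push_cast; ring
    rw [this, Int.floor_intCast]
  obtain ⟨S, _, _, hS⟩ := H (m + 2) (by omega) A (1 / (4 * (a : ℝ) - 1))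
    (by
      apply div_nonneg zero_le_one
      linarith)
    (by
      refine ⟨fun i j => (if i = i0 ∧ j ∈ J then (1 : ℝ) else 0)
        + (if i = i1 ∧ j ∈ J' then (1 : ℝ) else 0), ?_⟩
      rw [hc]
      have hsum : ∀ σ : Equiv.Perm (Fin (m + 2)),
          ((if σ ∈ A then (1:ℝ) else 0) - ∑ i : Fin (m + 2),
            ((if i = i0 ∧ σ i ∈ J then (1 : ℝ) else 0)
              + (if i = i1 ∧ σ i ∈ J' then (1 : ℝ) else 0))) ^ 2
          = if σ ∈ B then (1 : ℝ) else 0 := by
        intro σ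
        have e1 : ∑ i : Fin (m + 2), (if i = i0 ∧ σ i ∈ J then (1 : ℝ) else 0)
            = if σ i0 ∈ J then (1 : ℝ) else 0 := by
          rw [Finset.sum_eq_single i0]
          · simp
          · intro i _ hne
            simp [hne]
          · intro h; exact absurd (Finset.mem_univ _) h
        have e2 : ∑ i : Fin (m + 2), (if i = i1 ∧ σ i ∈ J' then (1 : ℝ) else 0)
            = if σ i1 ∈ J' then (1 : ℝ) else 0 := by
          rw [Finset.sum_eq_single i1]
          · simp
          · intro i _ hne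
            simp [hne]
          · intro h; exact absurd (Finset.mem_univ _) h
        rw [Finset.sum_add_distrib, e1, e2]
        by_cases p : σ i0 ∈ J <;> by_cases q : σ i1 ∈ J' <;>
          simp [A, B, p, q]
      rw [Finset.sum_congr rfl (fun σ _ => hsum σ)]
      rw [Finset.sum_ite_mem, Finset.univ_inter, Finset.sum_const, hB]
      have hf : ((m + 2).factorial : ℝ) = ((m : ℝ) + 2) * (2 * (a : ℝ) ^ 2) * (m.factorial : ℝ) := by
        rw [Nat.factorial_succ, Nat.factorial_succ]; push_cast; rw [← hmR]; ring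
      rw [hf]
      have hmf : (0 : ℝ) < (m.factorial : ℝ) := by exact_mod_cast m.factorial_pos
      have ha0 : (0 : ℝ) < (a : ℝ) := by linarith
      have h4a : (0 : ℝ) < 4 * (a : ℝ) - 1 := by linarith
      have hm2 : (0 : ℝ) < (m : ℝ) + 2 := by positivity
      have h4n : 4 * (a : ℝ) - 1 ≠ 0 := h4a.ne'
      have hcc : 2 * (a : ℝ) - 1 / 2 = (4 * (a : ℝ) - 1) / 2 := by ring
      rw [hcc]
      push_cast
      apply le_of_eq
      rw [nsmul_eq_mul]
      push_cast
      generalize 4 * (a : ℝ) - 1 = D at h4n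
      field_simp)
  rw [hc, hround] at hS
  push_cast at hS
  have h4a : (0 : ℝ) < 4 * (a : ℝ) - 1 := by linarith
  have habs : |2 * (a : ℝ) - 1 / 2 - 2 * (a : ℝ)| = 1 / 2 := by
    have : 2 * (a : ℝ) - 1 / 2 - 2 * (a : ℝ) = -(1 / 2) := by ring
    rw [this, abs_neg]
    norm_num
  rw [habs, mul_one_div, le_div_iff₀ h4a] at hS
  linarith

end Pool.Agent.S11238
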