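import Pool.Statements.S11323
import Pool.Agent.NC.K44S
import Pool.Agent.NC.K44All

set_option autoImplicit false
open Classical
open Pool Pool.MP_c59e09_co

namespace Pool.Agent.S11323

/-- There is a finite matroid such that, for all distinct e, f and positive weights, the weighted independent-set sums satisfy i_ef·i ≤ i_e·i_f, yet the same inequality fails for spanning-set sums for some e, f and positive weights. -/
theorem result :
    ∃ (n : ℕ) (M : Matroid (Fin n)), M.E = Set.univ ∧
      (∀ e f : Fin n, e ≠ f → ∀ z : Fin n → ℝ, (∀ x, 0 < z x) →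
        (∑ A : Finset (Fin n),
            if M.Indep (A : Set (Fin n)) ∧ e ∈ A ∧ f ∈ A then ∏ a ∈ A, z a else 0) *
          (∑ A : Finset (Fin n),
            if M.Indep (A : Set (Fin n)) then ∏ a ∈ A, z a else 0) ≤
        (∑ A : Finset (Fin n),
            if M.Indep (A : Set (Fin n)) ∧ e ∈ A then ∏ a ∈ A, z a else 0) *
          (∑ A : Finset (Fin n),
            if M.Indep (A : Set (Fin n)) ∧ f ∈ A then ∏ a ∈ A, z a else 0)) ∧
      ¬ (∀ e f : Fin n, e ≠ f → ∀ z : Fin n → ℝ, (∀ x, 0 < z x) →
        (∑ A : Finset (Fin n),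
            if M.Spanning (A : Set (Fin n)) ∧ e ∈ A ∧ f ∈ A then ∏ a ∈ A, z a else 0) *
          (∑ A : Finset (Fin n),
            if M.Spanning (A : Set (Fin n)) then ∏ a ∈ A, z a else 0) ≤
        (∑ A : Finset (Fin n),
            if M.Spanning (A : Set (Fin n)) ∧ e ∈ A then ∏ a ∈ A, z a else 0) *
          (∑ A : Finset (Fin n),
            if M.Spanning (A : Set (Fin n)) ∧ f ∈ A then ∏ a ∈ A, z a else 0)) := by
  exact ⟨17, Pool.NC.K44.M, Pool.NC.K44.M_E, fun e f hef => Pool.NC.K44.cor_all e f hef,
    Pool.NC.K44.not_spanning_correlated⟩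

end Pool.Agent.S11323
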