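import Pool.Statements.S11557
import Pool.Agent.Helper12.ES.Final

set_option autoImplicit false
open Pool Pool.MP_cfd6ce_co

namespace Pool.Agent.S11557

/-- For every r ≥ 4 there is c < 2 such that, for all large n, any family of subsets of an n-set with no r distinct members where each point lies in 0, 1 or all r of them has at most c^n sets. -/
theorem result :
    ∀ r : ℕ, 4 ≤ r → ∃ c : ℝ, c < 2 ∧ ∃ N : ℕ, ∀ n : ℕ, N ≤ n →
      ∀ F : Finset (Finset (Fin n)),
        (¬ ∃ S : Fin r → Finset (Fin n), Function.Injective S ∧ (∀ i, S i ∈ F) ∧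
            ∀ x : Fin n, (Finset.univ.filter (fun i => x ∈ S i)).card ≤ 1 ∨
              (Finset.univ.filter (fun i => x ∈ S i)).card = r) →
        (F.card : ℝ) ≤ c ^ n := by
  intro r hr
  exact Pool.Agent.Helper12.ES.sunflower r (by omega)

end Pool.Agent.S11557
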