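import Pool.Statements.S11853
import Pool.Agent.Helper65.HC.Assembly10
import Pool.Agent.Helper48.HC.J5

set_option autoImplicit false
open Classical
open Pool Pool.MP_dc9350_co

namespace Pool.Agent.S11853

/-- For every finite simple graph and every t>0, the sum over vertices v of t/(1+(deg v+1)t) is at most the mean size of a random independent set drawn with weight t^∣I∣ (hard-core model). -/
theorem result :
    ∀ (V : Type) [Fintype V] (G : SimpleGraph V) (t : ℝ), 0 < t →
      (∑ v : V, t / (1 + ((G.degree v : ℝ) + 1) * t)) ≤
        (∑ I ∈ (Finset.univ : Finset (Finset V)).filter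
              (fun I : Finset V => G.IsIndepSet (↑I : Set V)),
            ((Finset.card I : ℕ) : ℝ) * t ^ (Finset.card I)) /
        (∑ I ∈ (Finset.univ : Finset (Finset V)).filter
              (fun I : Finset V => G.IsIndepSet (↑I : Set V)),
            t ^ (Finset.card I)) := by
  exact Pool.Agent.Helper65.HC.frozen_of_base10 (fun T hT => Pool.Agent.Helper48.HC.j53 hT.le)

end Pool.Agent.S11853
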