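import Pool.Statements.S11905
import Pool.Agent.Helper32.Tile.Assemble

set_option autoImplicit false
open Pool Pool.MP_ddef6b_co

namespace Pool.Agent.S11905

/-- For every t there is d such that every nonempty finite set T of integers with at most t elements partitions Z^d into isometric copies: sets v + s·T·e_i along a coordinate axis, with s = ±1. -/
theorem result :
    ∀ t : ℕ, ∃ d : ℕ, ∀ T : Finset ℤ, T.Nonempty → T.card ≤ t →
      ∃ C : Set (Set (Fin d → ℤ)),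
        (∀ S ∈ C, ∃ v : Fin d → ℤ, ∃ i : Fin d, ∃ s : ℤ, (s = 1 ∨ s = -1) ∧
          S = (fun a : ℤ => v + (s * a) • Pi.single i (1 : ℤ)) '' (T : Set ℤ)) ∧
        ∀ x : Fin d → ℤ, ∃! S : Set (Fin d → ℤ), S ∈ C ∧ x ∈ S := by
  intro t
  obtain ⟨d, hd⟩ := Pool.Agent.Helper32.Tile.main_fin t
  refine ⟨d, fun T hne hT => ?_⟩
  obtain ⟨τ, hτ⟩ := hd T hne hT
  refine ⟨Set.range τ, ?_, ?_⟩
  · rintro S ⟨x, rfl⟩
    obtain ⟨⟨v, i, hS⟩, -, -, -⟩ := hτ x (Set.mem_univ x)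
    refine ⟨v, i, 1, Or.inl rfl, ?_⟩
    rw [hS]
    ext z
    simp only [Set.mem_image, Finset.mem_coe, Set.mem_ofPred_eq, one_mul]
    constructor
    · rintro ⟨h1, h2⟩
      refine ⟨z i - v i, h1, ?_⟩
      funext j
      by_cases hj : j = i
      · subst hj
        simp
      · simp [hj, h2 j hj]
    · rintro ⟨a, ha, rfl⟩
      refine ⟨by simpa using ha, fun j hj => ?_⟩
      simp [hj]
  · intro x
    obtain ⟨-, h2, -, h4⟩ := hτ x (Set.mem_univ x)
    refine ⟨τ x, ⟨⟨x, rfl⟩, h2⟩, ?_⟩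
    rintro S ⟨⟨y, rfl⟩, hy⟩
    obtain ⟨-, -, -, h5⟩ := hτ y (Set.mem_univ y)
    exact (h5 x hy).symm

end Pool.Agent.S11905
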