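import Pool.Statements.S13197
import Pool.Agent.CPY.Final

set_option autoImplicit false
open Pool Pool.MP_57c611_gt

namespace Pool.Agent.S13197

/-- The space of continuous real functions on the Stone–Čech compactification of the naturals, with the pointwise topology, is homeomorphic to its product with the countable power of the reals. -/
theorem result :
    Nonempty ({f : StoneCech ℕ → ℝ // Continuous f} ≃ₜ
      ({f : StoneCech ℕ → ℝ // Continuous f} × (ℕ → ℝ))) := by
  exact Pool.Agent.CPY.main

end Pool.Agent.S13197
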