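import Pool.Statements.S13850
import Pool.Agent.Helper74.Foam.Final

set_option autoImplicit false
open Metric
open Pool Pool.MP_bed495_gt

namespace Pool.Agent.S13850

/-- The negation of the preceding statement: The 24-cell honeycomb (scaled D4 Voronoi cells, unit volume) is least-area: any unit-volume a.e. partition agreeing with it outside a ball has at least as much 3-dim boundary measure in that ball. -/
theorem result :
    ¬ (∀ p : {v : Fin 4 → ℤ // Even (∑ i, v i)} → EuclideanSpace ℝ (Fin 4),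
      (∀ v, p v = (EuclideanSpace.equiv (Fin 4) ℝ).symm
          (fun i => (2 : ℝ) ^ (-(1 / 4 : ℝ)) * ((v.1 i : ℤ) : ℝ))) →
    ∀ C : {v : Fin 4 → ℤ // Even (∑ i, v i)} → Set (EuclideanSpace ℝ (Fin 4)),
      (∀ v, C v = {x | ∀ w, dist x (p v) ≤ dist x (p w)}) →
    ∀ Q : {v : Fin 4 → ℤ // Even (∑ i, v i)} → Set (EuclideanSpace ℝ (Fin 4)),
      (∀ v, MeasurableSet (Q v)) →
      (∀ v, MeasureTheory.volume (Q v) = 1) →
      (∀ v w, v ≠ w → MeasureTheory.volume (Q v ∩ Q w) = 0) →
      MeasureTheory.volume (⋃ v, Q v)ᶜ = 0 →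
    ∀ R : ℝ,
      (∀ v, Q v \ closedBall (0 : EuclideanSpace ℝ (Fin 4)) R
          = C v \ closedBall (0 : EuclideanSpace ℝ (Fin 4)) R) →
      MeasureTheory.Measure.hausdorffMeasure 3
          (closedBall (0 : EuclideanSpace ℝ (Fin 4)) (R + 1) ∩ ⋃ v, frontier (C v))
        ≤ MeasureTheory.Measure.hausdorffMeasure 3
          (closedBall (0 : EuclideanSpace ℝ (Fin 4)) (R + 1) ∩ ⋃ v, frontier (Q v))) := by
  exact Pool.Agent.Helper74.Foam.final

end Pool.Agent.S13850
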