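import Pool.Statements.S14102
import Pool.Agent.MkC.CertA.AllF

set_option autoImplicit false
open Pool Pool.MP_df2bd8_gt

namespace Pool.Agent.S14102

/-- The negation of the preceding statement: If a compact Hausdorff manifold has an atlas whose chart changes are locally affine with determinant-one linear part, then every geodesic (locally straight line in charts), for any start point and velocity, extends to all real times. -/
theorem result :
    ¬ (∀ (n : ℕ) (M : Type) [TopologicalSpace M] [T2Space M] [CompactSpace M]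
      [ChartedSpace (EuclideanSpace ℝ (Fin n)) M],
      (∀ e ∈ atlas (EuclideanSpace ℝ (Fin n)) M, ∀ e' ∈ atlas (EuclideanSpace ℝ (Fin n)) M,
        ∀ y ∈ (e.symm.trans e').source,
          ∃ A : EuclideanSpace ℝ (Fin n) ≃ᵃ[ℝ] EuclideanSpace ℝ (Fin n),
            LinearMap.det (A.linear : EuclideanSpace ℝ (Fin n) →ₗ[ℝ] EuclideanSpace ℝ (Fin n)) = 1 ∧
            ∀ᶠ z in nhds y, (e.symm.trans e') z = A z) →
      ∀ (x : M) (v : EuclideanSpace ℝ (Fin n)),
        ∃ γ : ℝ → M, Continuous γ ∧ γ 0 = x ∧
          (∀ᶠ s in nhds (0 : ℝ),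
            γ s ∈ (chartAt (EuclideanSpace ℝ (Fin n)) x).source ∧
            chartAt (EuclideanSpace ℝ (Fin n)) x (γ s)
              = chartAt (EuclideanSpace ℝ (Fin n)) x x + s • v) ∧
          ∀ t : ℝ, ∃ p w : EuclideanSpace ℝ (Fin n),
            ∀ᶠ s in nhds t,
              γ s ∈ (chartAt (EuclideanSpace ℝ (Fin n)) (γ t)).source ∧
              chartAt (EuclideanSpace ℝ (Fin n)) (γ t) (γ s) = p + s • w) :=
  Pool.Agent.MkC.not_complete_of_fast (D := 1024) (by norm_num) Pool.Agent.MkC.CertA.all_fast
    Pool.Agent.MkC.CertA.loop_fast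

end Pool.Agent.S14102
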