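import Pool.Statements.S15622
import Pool.Agent.Helper49.Pi01.L2c

set_option autoImplicit false
open Pool Pool.MP_f548aa_lc

namespace Pool.Agent.S15622

/-- The negation of the preceding statement: For any two Π^0_1 classes P, Q of infinite binary sequences, neither the whole space, the posets under inclusion of Π^0_1 classes containing P and of those containing Q are order-isomorphic. -/
theorem result :
    ¬ (∀ P Q : Set (ℕ → Bool),
      (∃ T : List Bool → Bool, Computable T ∧
          P = {x : ℕ → Bool | ∀ n : ℕ, T ((List.range n).map x) = true}) →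
      (∃ T : List Bool → Bool, Computable T ∧
          Q = {x : ℕ → Bool | ∀ n : ℕ, T ((List.range n).map x) = true}) →
      P ≠ Set.univ → Q ≠ Set.univ →
      Nonempty
        ({S : Set (ℕ → Bool) //
            (∃ T : List Bool → Bool, Computable T ∧
              S = {x : ℕ → Bool | ∀ n : ℕ, T ((List.range n).map x) = true}) ∧ P ⊆ S} ≃o
         {S : Set (ℕ → Bool) //
            (∃ T : List Bool → Bool, Computable T ∧
              S = {x : ℕ → Bool | ∀ n : ℕ, T ((List.range n).map x) = true}) ∧ Q ⊆ S})) := by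
  intro h
  have h1 : Helper49.Pi01.IsPi (∅ : Set (ℕ → Bool)) := by
    have := Helper49.Pi01.IsO.univ.toPi
    rwa [Set.compl_univ] at this
  have h2 : Helper49.Pi01.IsPi ({Helper49.Pi01.oo} : Set (ℕ → Bool)) := by
    have := Helper49.Pi01.IsO_compl_oo.toPi
    have e : {x : ℕ → Bool | x ≠ Helper49.Pi01.oo}ᶜ = {Helper49.Pi01.oo} := by
      ext x
      simp
    rwa [e] at this
  have h3 : (∅ : Set (ℕ → Bool)) ≠ Set.univ := by
    intro h
    have : (fun _ => true : ℕ → Bool) ∈ (∅ : Set (ℕ → Bool)) := h ▸ Set.mem_univ _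
    exact this
  have h4 : ({Helper49.Pi01.oo} : Set (ℕ → Bool)) ≠ Set.univ := by
    intro h
    have h5 : (fun _ => true : ℕ → Bool) ∈ ({Helper49.Pi01.oo} : Set (ℕ → Bool)) := h ▸ Set.mem_univ _
    rw [Set.mem_singleton_iff] at h5
    have h6 := congrFun h5 0
    simp [Helper49.Pi01.oo] at h6
  obtain ⟨Φ⟩ := h ∅ {Helper49.Pi01.oo} h1 h2 h3 h4
  exact Helper49.Pi01.no_iso (Helper49.Pi01.e1.trans (Φ.dual.trans Helper49.Pi01.e2.symm))

end Pool.Agent.S15622
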