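import Pool.Statements.S15847

set_option autoImplicit false
open Pool Pool.MP_01cdf7_nt

namespace Pool.Agent.S15847

open Filter Topology

/-- The sum `1 + p + ... + p ^ a`. -/
def gs (p a : ℕ) : ℕ := ∑ k ∈ Finset.range (a + 1), p ^ k

/-- The ratio `(1 + p + ... + p ^ a) / p ^ a`. -/
noncomputable def hr (p a : ℕ) : ℝ := (gs p a : ℝ) / (p : ℝ) ^ a

lemma sum_div_eq {n : ℕ} (hn : n ≠ 0) :
    ∑ d ∈ n.divisors, d = ∏ p ∈ n.primeFactors, gs p (n.factorization p) := by
  rw [← ArithmeticFunction.sigma_one_apply,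
    ArithmeticFunction.isMultiplicative_sigma.multiplicative_factorization _ hn, Finsupp.prod]
  refine Finset.prod_congr rfl ?_
  intro p hp
  have hp' : p.Prime := Nat.prime_of_mem_primeFactors hp
  rw [ArithmeticFunction.sigma_one_apply_prime_pow hp']
  rfl

lemma gs_real (p a : ℕ) : (gs p a : ℝ) * ((p : ℝ) - 1) = (p : ℝ) ^ (a + 1) - 1 := by
  unfold gs
  push_cast
  exact geom_sum_mul (p : ℝ) (a + 1)

lemma gs_nat {p : ℕ} (hp : 1 ≤ p) (a : ℕ) : gs p a * (p - 1) = p ^ (a + 1) - 1 := by
  have h := gs_real p a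
  have h1 : 1 ≤ p ^ (a + 1) := Nat.one_le_pow _ _ hp
  have : ((gs p a * (p - 1) : ℕ) : ℝ) = ((p ^ (a + 1) - 1 : ℕ) : ℝ) := by
    push_cast [Nat.cast_sub hp, Nat.cast_sub h1]
    exact h
  exact_mod_cast this

lemma hr_eq {p : ℕ} (hp : 2 ≤ p) (a : ℕ) :
    hr p a = ((p : ℝ) / ((p : ℝ) - 1)) * (1 - ((1 : ℝ) / p) ^ (a + 1)) := by
  have hp0 : (0 : ℝ) < p := by positivity
  have hp1 : (0 : ℝ) < (p : ℝ) - 1 := by
    have : (2 : ℝ) ≤ p := by exact_mod_cast hp
    linarith
  have h := gs_real p a
  have hg : (gs p a : ℝ) = ((p : ℝ) ^ (a + 1) - 1) / ((p : ℝ) - 1) := by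
    rw [eq_div_iff hp1.ne']; exact h
  unfold hr
  rw [hg, one_div, inv_pow]
  field_simp
  ring

lemma one_le_hr {p : ℕ} (hp : 2 ≤ p) (a : ℕ) : 1 ≤ hr p a := by
  unfold hr
  have hp0 : (0 : ℝ) < (p : ℝ) ^ a := by positivity
  rw [le_div_iff₀ hp0, one_mul]
  have : p ^ a ≤ gs p a := by
    unfold gs
    exact Finset.single_le_sum (f := fun k => p ^ k) (fun _ _ => Nat.zero_le _)
      (Finset.mem_range.2 (Nat.lt_succ_self a))
  exact_mod_cast this

lemma one_lt_hr {p : ℕ} (hp : 2 ≤ p) {a : ℕ} (ha : a ≠ 0) : 1 < hr p a := by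
  unfold hr
  have hp0 : (0 : ℝ) < (p : ℝ) ^ a := by positivity
  rw [lt_div_iff₀ hp0, one_mul]
  have : p ^ a < gs p a := by
    unfold gs
    rw [Finset.sum_range_succ]
    have : 0 < ∑ k ∈ Finset.range a, p ^ k := by
      apply Finset.sum_pos
      · intro i _; positivity
      · exact Finset.nonempty_range_iff.2 ha
    omega
  exact_mod_cast this

lemma one_le_prod_real {s : Finset ℕ} {f : ℕ → ℝ} (h : ∀ p ∈ s, 1 ≤ f p) :
    1 ≤ ∏ p ∈ s, f p :=
  Finset.prod_induction f (fun x => 1 ≤ x) (fun _ _ ha hb => one_le_mul_of_one_le_of_one_le ha hb)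
    le_rfl h

lemma hr_le {p : ℕ} (hp : 2 ≤ p) (a : ℕ) : hr p a ≤ (p : ℝ) / ((p : ℝ) - 1) := by
  rw [hr_eq hp]
  have hp1 : (0 : ℝ) < (p : ℝ) - 1 := by
    have : (2 : ℝ) ≤ p := by exact_mod_cast hp
    linarith
  have h1 : 0 ≤ (p : ℝ) / ((p : ℝ) - 1) := by positivity
  have h2 : (0 : ℝ) ≤ ((1 : ℝ) / p) ^ (a + 1) := by positivity
  nlinarith [mul_nonneg h1 h2]

lemma hr_le_of_le {M p : ℕ} (hM : 2 ≤ M) (hp : M ≤ p) (a : ℕ) :
    hr p a ≤ (M : ℝ) / ((M : ℝ) - 1) := by
  refine (hr_le (hM.trans hp) a).trans ?_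
  have h2 : (2 : ℝ) ≤ M := by exact_mod_cast hM
  have h3 : (M : ℝ) ≤ p := by exact_mod_cast hp
  rw [div_le_div_iff₀ (by linarith) (by linarith)]
  nlinarith

lemma hr_tendsto {p : ℕ} (hp : 2 ≤ p) {ι : Type} {l : Filter ι} {v : ι → ℕ}
    (hv : Tendsto v l atTop) :
    Tendsto (fun n => hr p (v n)) l (𝓝 ((p : ℝ) / ((p : ℝ) - 1))) := by
  have h1 : Tendsto (fun a : ℕ => ((1 : ℝ) / p) ^ (a + 1)) atTop (𝓝 0) := by
    have : Tendsto (fun a : ℕ => ((1 : ℝ) / p) ^ a) atTop (𝓝 0) := by
      apply tendsto_pow_atTop_nhds_zero_of_lt_one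
      · positivity
      · have : (2 : ℝ) ≤ p := by exact_mod_cast hp
        rw [div_lt_one (by linarith)]
        linarith
    exact this.comp (tendsto_add_atTop_nat 1)
  have h2 : Tendsto (fun a : ℕ => ((p : ℝ) / ((p : ℝ) - 1)) * (1 - ((1 : ℝ) / p) ^ (a + 1)))
      atTop (𝓝 (((p : ℝ) / ((p : ℝ) - 1)) * (1 - 0))) :=
    (h1.const_sub 1).const_mul _
  simp only [sub_zero, mul_one] at h2
  have h3 := h2.comp hv
  refine h3.congr ?_
  intro n
  simp only [Function.comp]
  rw [hr_eq hp]

lemma const_or_top (U : Ultrafilter ℕ) (g : ℕ → ℕ) :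
    (∃ c, ∀ᶠ n in (U : Filter ℕ), g n = c) ∨ Tendsto g (U : Filter ℕ) atTop := by
  by_cases h : Tendsto g (U : Filter ℕ) atTop
  · exact Or.inr h
  · left
    rw [tendsto_atTop, not_forall] at h
    obtain ⟨b, hb⟩ := h
    have hb' : ∀ᶠ n in (U : Filter ℕ), ¬ (b ≤ g n) := by
      rw [Ultrafilter.eventually_not]; exact hb
    have : ∀ᶠ n in (U : Filter ℕ), ∃ c ∈ (Finset.range b : Set ℕ), g n = c := by
      filter_upwards [hb'] with n hn
      exact ⟨g n, by simpa using hn, rfl⟩
    rw [Ultrafilter.eventually_exists_mem_iff (Finset.finite_toSet _)] at this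
    obtain ⟨c, _, hc⟩ := this
    exact ⟨c, hc⟩

/-- For every k ≥ 3, only finitely many odd n have exactly k distinct prime factors and a divisor d < n with sum of divisors of n equal to 2n − d. -/
theorem result :
    ∀ k : ℕ, 3 ≤ k →
      Set.Finite {n : ℕ | Odd n ∧ n.primeFactors.card = k ∧
        ∃ d : ℕ, d ∣ n ∧ d < n ∧ (∑ i ∈ n.divisors, i) + d = 2 * n} := by
  intro k _
  by_contra hinf
  set S : Set ℕ := {n : ℕ | Odd n ∧ n.primeFactors.card = k ∧
        ∃ d : ℕ, d ∣ n ∧ d < n ∧ (∑ i ∈ n.divisors, i) + d = 2 * n} with hSdef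
  have hinf' : S.Infinite := hinf
  have hNB : (cofinite ⊓ 𝓟 S).NeBot := hinf'.cofinite_inf_principal_neBot
  set U : Ultrafilter ℕ := Ultrafilter.of (cofinite ⊓ 𝓟 S) with hUdef
  have hU : (U : Filter ℕ) ≤ cofinite ⊓ 𝓟 S := Ultrafilter.of_le _
  have hS : ∀ᶠ n in (U : Filter ℕ), n ∈ S := by
    have : S ∈ (cofinite ⊓ 𝓟 S : Filter ℕ) := mem_inf_of_right (mem_principal_self S)
    exact hU this
  have hne : ∀ N : ℕ, ∀ᶠ n in (U : Filter ℕ), n ≠ N := by
    intro N
    have : {n : ℕ | n ≠ N} ∈ (cofinite ⊓ 𝓟 S : Filter ℕ) := by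
      apply mem_inf_of_left
      rw [mem_cofinite]
      have : {n : ℕ | n ≠ N}ᶜ = {N} := by ext; simp
      rw [this]; exact Set.finite_singleton N
    exact hU this
  -- the set of primes dividing almost all `n`
  have hF : {p : ℕ | p.Prime ∧ ∀ᶠ n in (U : Filter ℕ), p ∣ n}.Finite := by
    by_contra hF
    obtain ⟨T, hT, hcard⟩ := Set.Infinite.exists_subset_card_eq hF (k + 1)
    have h1 : ∀ᶠ n in (U : Filter ℕ), ∀ p ∈ T, p ∣ n := by
      rw [Filter.eventually_all_finset]
      intro p hp
      exact (hT hp).2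
    obtain ⟨n, hn1, hn2⟩ := (h1.and hS).exists
    have hn0 : n ≠ 0 := by
      rintro rfl
      exact absurd hn2.1 (by decide)
    have : T ⊆ n.primeFactors := by
      intro p hp
      rw [Nat.mem_primeFactors]
      exact ⟨(hT hp).1, hn1 p hp, hn0⟩
    have := Finset.card_le_card this
    have h3 := hn2.2.1
    omega
  set Fs : Finset ℕ := hF.toFinset with hFs
  have memFs : ∀ p, p ∈ Fs ↔ p.Prime ∧ ∀ᶠ n in (U : Filter ℕ), p ∣ n := by
    intro p; rw [hFs]; simp
  have hsub : ∀ᶠ n in (U : Filter ℕ), Fs ⊆ n.primeFactors := by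
    have h1 : ∀ᶠ n in (U : Filter ℕ), ∀ p ∈ Fs, p ∣ n := by
      rw [Filter.eventually_all_finset]
      intro p hp
      exact ((memFs p).1 hp).2
    filter_upwards [h1, hS] with n hn1 hn2
    have hn0 : n ≠ 0 := by
      rintro rfl
      exact absurd hn2.1 (by decide)
    intro p hp
    rw [Nat.mem_primeFactors]
    exact ⟨((memFs p).1 hp).1, hn1 p hp, hn0⟩
  classical
  set B : Finset ℕ := Fs.filter
    (fun p => Tendsto (fun n : ℕ => n.factorization p) (U : Filter ℕ) atTop) with hB
  set A : Finset ℕ := Fs.filter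
    (fun p => ¬ Tendsto (fun n : ℕ => n.factorization p) (U : Filter ℕ) atTop) with hA
  have hAconst : ∀ p ∈ A, ∃ c, ∀ᶠ n in (U : Filter ℕ), n.factorization p = c := by
    intro p hp
    rcases const_or_top U (fun n : ℕ => n.factorization p) with h | h
    · exact h
    · exact absurd h (Finset.mem_filter.1 hp).2
  choose! a ha using hAconst
  have haall : ∀ᶠ n in (U : Filter ℕ), ∀ p ∈ A, n.factorization p = a p := by
    rw [Filter.eventually_all_finset]
    exact ha
  have hABdisj : Disjoint A B := by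
    rw [Finset.disjoint_left]
    intro p hpA hpB
    exact (Finset.mem_filter.1 hpA).2 (Finset.mem_filter.1 hpB).2
  have hABunion : A ∪ B = Fs := by
    ext p
    simp only [hA, hB, Finset.mem_union, Finset.mem_filter]
    tauto
  have hpr2 : ∀ p ∈ Fs, 2 ≤ p := fun p hp => ((memFs p).1 hp).1.two_le
  have hAF : ∀ p ∈ A, p ∈ Fs := fun p hp => (Finset.mem_filter.1 hp).1
  have hBF : ∀ p ∈ B, p ∈ Fs := fun p hp => (Finset.mem_filter.1 hp).1
  have hodd : ∀ p ∈ Fs, Odd p := by
    intro p hp
    obtain ⟨n, hn1, hn2⟩ := (((memFs p).1 hp).2.and hS).exists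
    exact Odd.of_dvd_nat hn2.1 hn1
  -- splitting products over the prime factors
  have hsplitN : ∀ᶠ n in (U : Filter ℕ), ∀ f : ℕ → ℕ,
      ∏ p ∈ n.primeFactors, f p
        = ((∏ p ∈ A, f p) * (∏ p ∈ B, f p)) * ∏ p ∈ n.primeFactors \ Fs, f p := by
    filter_upwards [hsub] with n hn f
    rw [← Finset.prod_union hABdisj, hABunion, mul_comm, Finset.prod_sdiff hn]
  have hsplitR : ∀ᶠ n in (U : Filter ℕ), ∀ f : ℕ → ℝ,
      ∏ p ∈ n.primeFactors, f p
        = ((∏ p ∈ A, f p) * (∏ p ∈ B, f p)) * ∏ p ∈ n.primeFactors \ Fs, f p := by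
    filter_upwards [hsub] with n hn f
    rw [← Finset.prod_union hABdisj, hABunion, mul_comm, Finset.prod_sdiff hn]
  -- the abundancy index as a product
  have hratio : ∀ n : ℕ, n ≠ 0 →
      ((∑ i ∈ n.divisors, i : ℕ) : ℝ) / n = ∏ p ∈ n.primeFactors, hr p (n.factorization p) := by
    intro n hn
    rw [sum_div_eq hn]
    have h2 : (n : ℝ) = ∏ p ∈ n.primeFactors, (p : ℝ) ^ (n.factorization p) := by
      have := Nat.prod_factorization_pow_eq_self hn
      conv_lhs => rw [← this]
      rw [Finsupp.prod]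
      push_cast
      rfl
    conv_lhs => rw [h2]
    push_cast
    rw [← Finset.prod_div_distrib]
    rfl
  -- the part of the product from large primes tends to one
  set hC : ℕ → ℝ := fun n => ∏ p ∈ n.primeFactors \ Fs, hr p (n.factorization p) with hCdef
  have hCge : ∀ n, 1 ≤ hC n := by
    intro n
    rw [hCdef]
    apply one_le_prod_real
    intro p hp
    exact one_le_hr (Nat.prime_of_mem_primeFactors (Finset.mem_sdiff.1 hp).1).two_le _
  have hCle : ∀ M : ℕ, 2 ≤ M → ∀ᶠ n in (U : Filter ℕ), hC n ≤ ((M : ℝ) / ((M : ℝ) - 1)) ^ k := by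
    intro M hM
    have h1 : ∀ᶠ n in (U : Filter ℕ), ∀ p ∈ Finset.range M, p.Prime → p ∉ Fs → ¬ p ∣ n := by
      rw [Filter.eventually_all_finset]
      intro p _
      by_cases hp : p.Prime ∧ p ∉ Fs
      · have : ¬ ∀ᶠ n in (U : Filter ℕ), p ∣ n := by
          intro h
          exact hp.2 ((memFs p).2 ⟨hp.1, h⟩)
        rw [← Ultrafilter.eventually_not] at this
        filter_upwards [this] with n hn _ _
        exact hn
      · refine Filter.Eventually.of_forall ?_
        intro n h1 h2
        exact absurd ⟨h1, h2⟩ hp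
    filter_upwards [h1, hS] with n hn1 hn2
    have hM1 : (1 : ℝ) ≤ (M : ℝ) / ((M : ℝ) - 1) := by
      have h2 : (2 : ℝ) ≤ M := by exact_mod_cast hM
      rw [le_div_iff₀ (by linarith)]
      linarith
    calc hC n ≤ ∏ _p ∈ n.primeFactors \ Fs, (M : ℝ) / ((M : ℝ) - 1) := by
          rw [hCdef]
          apply Finset.prod_le_prod
          · intro p hp
            exact zero_le_one.trans
              (one_le_hr (Nat.prime_of_mem_primeFactors (Finset.mem_sdiff.1 hp).1).two_le _)
          · intro p hp
            obtain ⟨hp1, hp2⟩ := Finset.mem_sdiff.1 hp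
            apply hr_le_of_le hM
            by_contra hlt
            push Not at hlt
            exact hn1 p (Finset.mem_range.2 hlt) (Nat.prime_of_mem_primeFactors hp1) hp2
              (Nat.dvd_of_mem_primeFactors hp1)
      _ = ((M : ℝ) / ((M : ℝ) - 1)) ^ (n.primeFactors \ Fs).card := by
          rw [Finset.prod_const]
      _ ≤ ((M : ℝ) / ((M : ℝ) - 1)) ^ k := by
          apply pow_le_pow_right₀ hM1
          have := Finset.card_le_card (Finset.sdiff_subset (s := n.primeFactors) (t := Fs))
          have h3 := hn2.2.1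
          omega
  have hClim : Tendsto hC (U : Filter ℕ) (𝓝 1) := by
    have hlim : Tendsto (fun M : ℕ => ((M : ℝ) / ((M : ℝ) - 1)) ^ k) atTop (𝓝 1) := by
      have h1 : Tendsto (fun M : ℕ => ((M : ℝ) / ((M : ℝ) - 1))) atTop (𝓝 1) := by
        have h2 : Tendsto (fun M : ℕ => 1 + 1 / ((M : ℝ) - 1)) atTop (𝓝 (1 + 0)) := by
          apply Tendsto.const_add
          have h3 : Tendsto (fun M : ℕ => (M : ℝ) - 1) atTop atTop :=
            tendsto_atTop_add_const_right _ _ tendsto_natCast_atTop_atTop
          simpa [one_div, Function.comp_def] using tendsto_inv_atTop_zero.comp h3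
        rw [add_zero] at h2
        refine h2.congr' ?_
        filter_upwards [eventually_ge_atTop 2] with M hM
        have : (2 : ℝ) ≤ M := by exact_mod_cast hM
        have h4 : (M : ℝ) - 1 ≠ 0 := by linarith
        field_simp
        ring
      simpa using h1.pow k
    rw [tendsto_order]
    constructor
    · intro b hb
      exact Filter.Eventually.of_forall (fun n => lt_of_lt_of_le hb (hCge n))
    · intro b hb
      have h1 := (hlim.eventually_lt_const hb).and (eventually_ge_atTop 2)
      obtain ⟨M, hM1, hM2⟩ := h1.exists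
      filter_upwards [hCle M hM2] with n hn
      exact lt_of_le_of_lt hn hM1
  -- limit of the ratio
  set LA : ℝ := ∏ p ∈ A, hr p (a p) with hLA
  set LB : ℝ := ∏ p ∈ B, (p : ℝ) / ((p : ℝ) - 1) with hLB
  have hLApos : 0 < LA := by
    apply Finset.prod_pos
    intro p hp
    exact lt_of_lt_of_le zero_lt_one (one_le_hr (hpr2 p (hAF p hp)) _)
  have hBlim : Tendsto (fun n : ℕ => ∏ p ∈ B, hr p (n.factorization p)) (U : Filter ℕ) (𝓝 LB) := by
    apply tendsto_finsetProd
    intro p hp
    exact hr_tendsto (hpr2 p (hBF p hp)) (Finset.mem_filter.1 hp).2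
  have hRform : ∀ᶠ n in (U : Filter ℕ), ((∑ i ∈ n.divisors, i : ℕ) : ℝ) / n
      = (LA * ∏ p ∈ B, hr p (n.factorization p)) * hC n := by
    filter_upwards [hsplitR, haall, hS] with n h1 h2 h3
    have hn0 : n ≠ 0 := by
      rintro rfl
      exact absurd h3.1 (by decide)
    rw [hratio n hn0, h1]
    congr 2
    apply Finset.prod_congr rfl
    intro p hp
    rw [h2 p hp]
  have hRlim : Tendsto (fun n : ℕ => ((∑ i ∈ n.divisors, i : ℕ) : ℝ) / n) (U : Filter ℕ)
      (𝓝 (LA * LB)) := by
    have h1 : Tendsto (fun n : ℕ => (LA * ∏ p ∈ B, hr p (n.factorization p)) * hC n)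
        (U : Filter ℕ) (𝓝 ((LA * LB) * 1)) := (hBlim.const_mul LA).mul hClim
    rw [mul_one] at h1
    refine h1.congr' ?_
    filter_upwards [hRform] with n hn
    exact hn.symm
  -- the cofactor of the deficient divisor
  set m : ℕ → ℕ := fun n => n / (2 * n - ∑ i ∈ n.divisors, i) with hm
  have hmS : ∀ n ∈ S, 0 < m n ∧ ((∑ i ∈ n.divisors, i : ℕ) : ℝ) / n = 2 - 1 / (m n : ℝ) := by
    intro n hn
    obtain ⟨hn1, hn2, d, hd1, hd2, hd3⟩ := hn
    have hn0 : 0 < n := by
      rcases Nat.eq_zero_or_pos n with h | h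
      · subst h; exact absurd hn1 (by decide)
      · exact h
    have hd : 2 * n - ∑ i ∈ n.divisors, i = d := by omega
    have hd0 : 0 < d := Nat.pos_of_dvd_of_pos hd1 hn0
    have hmn : m n = n / d := by rw [hm]; simp only [hd]
    have hmd : m n * d = n := by rw [hmn]; exact Nat.div_mul_cancel hd1
    have hmpos : 0 < m n := by
      rcases Nat.eq_zero_or_pos (m n) with h | h
      · rw [h, zero_mul] at hmd; omega
      · exact h
    refine ⟨hmpos, ?_⟩
    have h1 : ((∑ i ∈ n.divisors, i : ℕ) : ℝ) = 2 * n - d := by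
      have : (((∑ i ∈ n.divisors, i) + d : ℕ) : ℝ) = ((2 * n : ℕ) : ℝ) := by rw [hd3]
      push_cast at this
      push_cast
      linarith
    have h2 : (n : ℝ) = (m n : ℝ) * d := by exact_mod_cast hmd.symm
    have hd0' : (0 : ℝ) < d := by exact_mod_cast hd0
    have hm0' : (0 : ℝ) < m n := by exact_mod_cast hmpos
    rw [h1, h2]
    field_simp
  rcases const_or_top U m with ⟨c, hc⟩ | hmtop
  · -- the cofactor is constant
    have hc0 : 0 < c := by
      obtain ⟨n, h1, h2⟩ := (hc.and hS).exists
      rw [← h1]; exact (hmS n h2).1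
    have hconst : ∀ᶠ n : ℕ in (U : Filter ℕ),
        ((∑ i ∈ n.divisors, i : ℕ) : ℝ) / n = 2 - 1 / (c : ℝ) := by
      filter_upwards [hc, hS] with n h1 h2
      rw [(hmS n h2).2, h1]
    have hLeq : LA * LB = 2 - 1 / (c : ℝ) := by
      have h1 : Tendsto (fun n : ℕ => ((∑ i ∈ n.divisors, i : ℕ) : ℝ) / n) (U : Filter ℕ)
          (𝓝 (2 - 1 / (c : ℝ))) := by
        refine tendsto_const_nhds.congr' ?_
        filter_upwards [hconst] with n hn
        exact hn.symm
      exact tendsto_nhds_unique hRlim h1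
    have hkey : ∀ᶠ n in (U : Filter ℕ),
        (∏ p ∈ B, hr p (n.factorization p)) * hC n = LB := by
      filter_upwards [hconst, hRform] with n h1 h2
      rw [h1, ← hLeq, mul_assoc] at h2
      exact (mul_left_cancel₀ hLApos.ne' h2).symm
    by_cases hBne : B.Nonempty
    · -- parity contradiction
      obtain ⟨n, h1, h2, h3⟩ := (hkey.and (hS.and hsub)).exists
      have hn0 : n ≠ 0 := by
        rintro rfl
        exact absurd h2.1 (by decide)
      set C : Finset ℕ := n.primeFactors \ Fs with hCs
      have hCn : hC n = ∏ p ∈ C, hr p (n.factorization p) := rfl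
      have hnat : (∏ p ∈ B, (p ^ (n.factorization p + 1) - 1)) * (∏ p ∈ C, gs p (n.factorization p))
          = (∏ p ∈ B, p ^ (n.factorization p + 1)) * (∏ p ∈ C, p ^ (n.factorization p)) := by
        have hreal : (∏ p ∈ B, ((p : ℝ) ^ (n.factorization p + 1) - 1))
              * (∏ p ∈ C, (gs p (n.factorization p) : ℝ))
            = (∏ p ∈ B, (p : ℝ) ^ (n.factorization p + 1))
              * (∏ p ∈ C, (p : ℝ) ^ (n.factorization p)) := by
          rw [hCn, hLB] at h1
          have e1 : (∏ p ∈ B, ((p : ℝ) ^ (n.factorization p + 1) - 1))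
              = (∏ p ∈ B, hr p (n.factorization p)) *
                ((∏ p ∈ B, (p : ℝ) ^ (n.factorization p)) * ∏ p ∈ B, ((p : ℝ) - 1)) := by
            rw [← Finset.prod_mul_distrib, ← Finset.prod_mul_distrib]
            apply Finset.prod_congr rfl
            intro p hp
            have hp0 : (0 : ℝ) < p := by
              have := hpr2 p (hBF p hp)
              positivity
            rw [← gs_real]
            unfold hr
            field_simp
          have e2 : (∏ p ∈ C, (gs p (n.factorization p) : ℝ))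
              = (∏ p ∈ C, hr p (n.factorization p)) * ∏ p ∈ C, (p : ℝ) ^ (n.factorization p) := by
            rw [← Finset.prod_mul_distrib]
            apply Finset.prod_congr rfl
            intro p hp
            have hp0 : (0 : ℝ) < p := by
              have := (Nat.prime_of_mem_primeFactors (Finset.mem_sdiff.1 hp).1).pos
              positivity
            unfold hr
            field_simp
          have e3 : (∏ p ∈ B, (p : ℝ) ^ (n.factorization p + 1))
              = (∏ p ∈ B, (p : ℝ) / ((p : ℝ) - 1)) *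
                ((∏ p ∈ B, (p : ℝ) ^ (n.factorization p)) * ∏ p ∈ B, ((p : ℝ) - 1)) := by
            rw [← Finset.prod_mul_distrib, ← Finset.prod_mul_distrib]
            apply Finset.prod_congr rfl
            intro p hp
            have hp1 : (0 : ℝ) < (p : ℝ) - 1 := by
              have := hpr2 p (hBF p hp)
              have : (2 : ℝ) ≤ p := by exact_mod_cast this
              linarith
            rw [pow_succ]
            field_simp
          rw [e1, e2, e3, ← h1]
          ring
        have e4 : ((∏ p ∈ B, (p ^ (n.factorization p + 1) - 1) : ℕ) : ℝ)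
            = ∏ p ∈ B, ((p : ℝ) ^ (n.factorization p + 1) - 1) := by
          rw [Nat.cast_prod]
          apply Finset.prod_congr rfl
          intro p hp
          have : 1 ≤ p ^ (n.factorization p + 1) :=
            Nat.one_le_pow _ _ (by have := hpr2 p (hBF p hp); omega)
          push_cast [Nat.cast_sub this]
          rfl
        have e5 : (((∏ p ∈ B, (p ^ (n.factorization p + 1) - 1))
              * (∏ p ∈ C, gs p (n.factorization p)) : ℕ) : ℝ)
            = (((∏ p ∈ B, p ^ (n.factorization p + 1))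
              * (∏ p ∈ C, p ^ (n.factorization p)) : ℕ) : ℝ) := by
          rw [Nat.cast_mul, e4]
          push_cast
          exact hreal
        exact_mod_cast e5
      have hoddR : Odd ((∏ p ∈ B, p ^ (n.factorization p + 1)) *
          (∏ p ∈ C, p ^ (n.factorization p))) := by
        apply Odd.mul
        · apply Finset.prod_induction _ Odd (fun _ _ => Odd.mul) odd_one
          intro p hp
          exact (hodd p (hBF p hp)).pow
        · apply Finset.prod_induction _ Odd (fun _ _ => Odd.mul) odd_one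
          intro p hp
          have : p ∣ n := Nat.dvd_of_mem_primeFactors (Finset.mem_sdiff.1 hp).1
          exact (Odd.of_dvd_nat h2.1 this).pow
      obtain ⟨P, hP⟩ := hBne
      have hevenL : Even ((∏ p ∈ B, (p ^ (n.factorization p + 1) - 1)) *
          (∏ p ∈ C, gs p (n.factorization p))) := by
        apply Even.mul_right
        rw [← Finset.mul_prod_erase B _ hP]
        apply Even.mul_right
        have : Odd (P ^ (n.factorization P + 1)) := (hodd P (hBF P hP)).pow
        exact this.tsub_odd odd_one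
      rw [hnat] at hevenL
      exact (Nat.not_even_iff_odd.2 hoddR) hevenL
    · -- no primes with unbounded exponents
      rw [Finset.not_nonempty_iff_eq_empty] at hBne
      obtain ⟨n, h1, h2, h3, h4, h5, h6⟩ :=
        (hkey.and (hS.and (hsplitN.and (haall.and ((hne (∏ p ∈ A, p ^ a p)).and hsub))))).exists
      have hn0 : n ≠ 0 := by
        rintro rfl
        exact absurd h2.1 (by decide)
      rw [hLB, hBne] at h1
      simp only [Finset.prod_empty, one_mul] at h1
      have hCempty : n.primeFactors \ Fs = ∅ := by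
        by_contra hne'
        obtain ⟨q, hq⟩ := Finset.nonempty_iff_ne_empty.2 hne'
        have hlt : 1 < hC n := by
          have e1 : hC n = hr q (n.factorization q) *
              ∏ p ∈ (n.primeFactors \ Fs).erase q, hr p (n.factorization p) := by
            rw [hCdef]
            exact (Finset.mul_prod_erase _ _ hq).symm
          have e2 : 1 ≤ ∏ p ∈ (n.primeFactors \ Fs).erase q, hr p (n.factorization p) := by
            apply one_le_prod_real
            intro p hp
            exact one_le_hr (Nat.prime_of_mem_primeFactors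
              (Finset.mem_sdiff.1 (Finset.mem_of_mem_erase hp)).1).two_le _
          have hq' : q ∈ n.primeFactors := (Finset.mem_sdiff.1 hq).1
          have e3 : 1 < hr q (n.factorization q) := by
            apply one_lt_hr (Nat.prime_of_mem_primeFactors hq').two_le
            have := (Nat.prime_of_mem_primeFactors hq').factorization_pos_of_dvd hn0
              (Nat.dvd_of_mem_primeFactors hq')
            omega
          rw [e1]
          nlinarith
        linarith
      apply h5
      have e0 : n = ∏ p ∈ n.primeFactors, p ^ (n.factorization p) := by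
        conv_lhs => rw [← Nat.prod_factorization_pow_eq_self hn0]
        rfl
      have e1 := h3 (fun p => p ^ (n.factorization p))
      simp only [hBne, hCempty, Finset.prod_empty, mul_one] at e1
      rw [e1] at e0
      conv_lhs => rw [e0]
      apply Finset.prod_congr rfl
      intro p hp
      rw [h4 p hp]
  · -- the cofactor tends to infinity
    have hLeq : LA * LB = 2 := by
      have h0 : Tendsto (fun n : ℕ => 2 - 1 / (m n : ℝ)) (U : Filter ℕ) (𝓝 (2 - 0)) := by
        apply Tendsto.const_sub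
        have h3 : Tendsto (fun n : ℕ => (m n : ℝ)) (U : Filter ℕ) atTop :=
          tendsto_natCast_atTop_atTop.comp hmtop
        simpa [one_div, Function.comp_def] using tendsto_inv_atTop_zero.comp h3
      rw [sub_zero] at h0
      have h1 : Tendsto (fun n : ℕ => ((∑ i ∈ n.divisors, i : ℕ) : ℝ) / n) (U : Filter ℕ)
          (𝓝 2) := by
        refine h0.congr' ?_
        filter_upwards [hS] with n hn
        exact ((hmS n hn).2).symm
      exact tendsto_nhds_unique hRlim h1
    by_cases hBne : B.Nonempty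
    · set P : ℕ := B.max' hBne with hPdef
      have hPB : P ∈ B := Finset.max'_mem _ _
      have hPprime : P.Prime := ((memFs P).1 (hBF P hPB)).1
      have hnat : (∏ p ∈ A, gs p (a p)) * (∏ p ∈ B, p)
          = 2 * ((∏ p ∈ A, p ^ (a p)) * ∏ p ∈ B, (p - 1)) := by
        have hreal : (∏ p ∈ A, (gs p (a p) : ℝ)) * (∏ p ∈ B, (p : ℝ))
            = 2 * ((∏ p ∈ A, (p : ℝ) ^ (a p)) * ∏ p ∈ B, ((p : ℝ) - 1)) := by
          have e1 : (∏ p ∈ A, (gs p (a p) : ℝ)) = LA * ∏ p ∈ A, (p : ℝ) ^ (a p) := by
            rw [hLA, ← Finset.prod_mul_distrib]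
            apply Finset.prod_congr rfl
            intro p hp
            have hp0 : (0 : ℝ) < p := by
              have := hpr2 p (hAF p hp)
              positivity
            unfold hr
            field_simp
          have e2 : (∏ p ∈ B, (p : ℝ)) = LB * ∏ p ∈ B, ((p : ℝ) - 1) := by
            rw [hLB, ← Finset.prod_mul_distrib]
            apply Finset.prod_congr rfl
            intro p hp
            have hp1 : (0 : ℝ) < (p : ℝ) - 1 := by
              have := hpr2 p (hBF p hp)
              have : (2 : ℝ) ≤ p := by exact_mod_cast this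
              linarith
            field_simp
          rw [e1, e2, ← hLeq]
          ring
        have e4 : ((∏ p ∈ B, (p - 1) : ℕ) : ℝ) = ∏ p ∈ B, ((p : ℝ) - 1) := by
          rw [Nat.cast_prod]
          apply Finset.prod_congr rfl
          intro p hp
          have : 1 ≤ p := by have := hpr2 p (hBF p hp); omega
          push_cast [Nat.cast_sub this]
          rfl
        have e5 : (((∏ p ∈ A, gs p (a p)) * (∏ p ∈ B, p) : ℕ) : ℝ)
            = ((2 * ((∏ p ∈ A, p ^ (a p)) * ∏ p ∈ B, (p - 1)) : ℕ) : ℝ) := by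
          rw [Nat.cast_mul, Nat.cast_mul, Nat.cast_mul, e4]
          push_cast
          exact hreal
        exact_mod_cast e5
      have hdvd : P ∣ 2 * ((∏ p ∈ A, p ^ (a p)) * ∏ p ∈ B, (p - 1)) := by
        rw [← hnat]
        exact Dvd.dvd.mul_left (Finset.dvd_prod_of_mem _ hPB) _
      rcases (hPprime.dvd_mul).1 hdvd with h | h
      · have hP2 : P = 2 := (Nat.prime_dvd_prime_iff_eq hPprime Nat.prime_two).1 h
        have := hodd P (hBF P hPB)
        rw [hP2] at this
        exact absurd this (by decide)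
      · rcases (hPprime.dvd_mul).1 h with h | h
        · rw [Prime.dvd_finsetProd_iff hPprime.prime] at h
          obtain ⟨p, hp, hpd⟩ := h
          have h1 := hPprime.dvd_of_dvd_pow hpd
          have h2 : P = p := (Nat.prime_dvd_prime_iff_eq hPprime ((memFs p).1 (hAF p hp)).1).1 h1
          rw [h2] at hPB
          exact (Finset.disjoint_left.1 hABdisj hp) hPB
        · rw [Prime.dvd_finsetProd_iff hPprime.prime] at h
          obtain ⟨p, hp, hpd⟩ := h
          have h1 : p ≤ P := Finset.le_max' _ _ hp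
          have h2 := hpr2 p (hBF p hp)
          have h3 := Nat.le_of_dvd (by omega) hpd
          omega
    · rw [Finset.not_nonempty_iff_eq_empty] at hBne
      obtain ⟨n, h1, h2⟩ := (hRform.and hS).exists
      rw [hLB, hBne, Finset.prod_empty, mul_one] at hLeq
      rw [hLeq, hBne, Finset.prod_empty, mul_one, (hmS n h2).2] at h1
      have h3 := hCge n
      have h4 : (0 : ℝ) < m n := by exact_mod_cast (hmS n h2).1
      have h5 : (0 : ℝ) < 1 / (m n : ℝ) := by positivity
      linarith

end Pool.Agent.S15847
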