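import Pool.Statements.S17095
import Pool.Agent.Helper1.Niho4.Transfer
import Pool.Agent.Helper36.Niho.Reduction
import Pool.Agent.Helper36.Niho.Arith

set_option autoImplicit false
open scoped Classical
open Pool Pool.MP_5c9cd2_nt

namespace Pool.Agent.S17095

open Finset Pool.Agent.Helper36.Niho Pool.Agent.Helper1.Niho4 in
/-- the conclusion, from the values of the exponential sum -/
lemma main_aux (k s : ℕ) (hk : 1 ≤ k)
    (hs : Nat.Coprime (s * (2 ^ k - 1) + 1) (2 ^ (2 * k) - 1))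
    (F : Type) [Field F] [Fintype F] (hF : Fintype.card F = 2 ^ (2 * k))
    (h4 : (((Finset.univ : Finset F).erase 0).image
          (fun a : F =>
            ∑ x : F,
              (if (∑ i ∈ Finset.range (2 * k), (a * x + x ^ (s * (2 ^ k - 1) + 1)) ^ (2 ^ i)) = 0
                then (1 : ℤ) else -1))).card = 4) :
    ∃ r : ℕ, 0 < r ∧ padicValNat 2 r < padicValNat 2 k ∧
        ((s : ℤ) * (2 ^ r + 1) ≡ 2 ^ r [ZMOD (2 ^ k + 1 : ℤ)] ∨
         (s : ℤ) * (2 ^ r - 1) ≡ 2 ^ r [ZMOD (2 ^ k + 1 : ℤ)]) := by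
  set q := 2 ^ k with hq
  have hS : Setup F k q := ⟨hk, hq, by rw [hF, hq, ← pow_mul, mul_comm]⟩
  set e := s * (q - 1) + 1 with he
  have hq2 := hS.q_ge
  have he1 : 1 ≤ e := by omega
  have hfac : 2 ^ (2 * k) - 1 = (q + 1) * (q - 1) := by
    rw [mul_comm 2 k, pow_mul, ← hq]
    obtain ⟨t, ht⟩ : ∃ t, q = t + 1 := ⟨q - 1, by omega⟩
    rw [ht]
    simp only [Nat.add_sub_cancel]
    have : (t + 1) ^ 2 = (t + 1 + 1) * t + 1 := by ring
    omega
  have hce : Nat.Coprime (q + 1) e := by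
    rw [hfac] at hs
    exact (Nat.Coprime.coprime_mul_right_right hs).symm
  -- values
  have hval : ∀ a : F, (∑ x : F,
      (if (∑ i ∈ Finset.range (2 * k), (a * x + x ^ (s * (q - 1) + 1)) ^ (2 ^ i)) = 0
        then (1 : ℤ) else -1)) = q * ((NN q e a : ℤ) - 1) := by
    intro a
    exact hS.niho s a
  let G : ℕ → ℤ := fun m => q * ((m : ℤ) - 1)
  have hGinj : Function.Injective G := by
    intro m m' h
    simp only [G] at h
    have h2 : (q : ℤ) ≠ 0 := by exact_mod_cast (by omega : q ≠ 0)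
    have h3 := mul_left_cancel₀ h2 h
    omega
  have himg : (((Finset.univ : Finset F).erase 0).image
          (fun a : F =>
            ∑ x : F,
              (if (∑ i ∈ Finset.range (2 * k), (a * x + x ^ (s * (q - 1) + 1)) ^ (2 ^ i)) = 0
                then (1 : ℤ) else -1))) = (VV F q e).image G := by
    have h0 : (univ : Finset F).erase 0 = univ.filter (fun a : F => a ≠ 0) := by
      ext x; simp
    unfold VV
    rw [Finset.image_image, h0]
    apply Finset.image_congr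
    intro a _
    exact hval a
  have hV : (VV F q e).card = 4 := by
    rw [himg, Finset.card_image_of_injective _ hGinj] at h4
    exact h4
  obtain ⟨g, hg1, hgk, hVeq, -, hNN⟩ := hS.thmB he1 hce hV
  obtain ⟨hA1, hA2⟩ := hS.thmA he1 hce hV
  have hq4 := hS.q_ge_four hV
  -- integer congruences
  have hqZ : (q : ℤ) = 2 ^ k := by rw [hq]; push_cast; rfl
  have heZ : (e : ℤ) = s * ((q : ℤ) - 1) + 1 := by
    rw [he]; push_cast [Nat.cast_sub (by omega : 1 ≤ q)]; ring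
  have hcop2 : IsCoprime (2 : ℤ) (2 ^ k + 1) := by
    refine ⟨-2 ^ (k - 1), 1, ?_⟩
    have : (2 : ℤ) ^ k = 2 ^ (k - 1) * 2 := by rw [← pow_succ]; congr 1; omega
    rw [this]; ring
  have hs2 : IsCoprime (2 * (s : ℤ) - 1) (2 ^ k + 1) := by
    have h1 : IsCoprime ((e : ℤ)) ((q + 1 : ℕ) : ℤ) := (Nat.isCoprime_iff_coprime.2 hce).symm
    obtain ⟨a, b, hab⟩ := h1
    refine ⟨-a, b + a * s, ?_⟩
    rw [heZ] at hab
    push_cast at hab
    rw [hqZ] at hab
    linear_combination hab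
  obtain ⟨ψ, hψ0, hψlt, hψe, i, hi⟩ := exponent_all hS he1 hce hA1 hA2 hq4 hNN hg1 hgk
  apply conclusion hk (ψ := (ψ : ℤ)) (i := i) _ hs2
  · rcases hi with hi | hi
    · left
      rw [hi]
      push_cast
      rfl
    · right
      have h1 : (ψ : ℤ) = (2 ^ k + 1) - 2 ^ i := by
        have h2 : ψ + 2 ^ i = q + 1 := by omega
        have h3 : ((ψ + 2 ^ i : ℕ) : ℤ) = ((q + 1 : ℕ) : ℤ) := by rw [h2]
        push_cast at h3
        rw [hqZ] at h3
        linarith
      rw [h1, Int.modEq_iff_dvd]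
      exact ⟨-1, by ring⟩
  · -- ψ (e + 1) = e - 1 gives ψ (s - 1) = s
    have h1 : ((ψ * (e + 1) : ℕ) : ℤ) ≡ ((e - 1 : ℕ) : ℤ) [ZMOD ((q + 1 : ℕ) : ℤ)] :=
      Int.natCast_modEq_iff.2 hψe
    rw [Nat.cast_sub he1] at h1
    push_cast at h1
    rw [heZ, hqZ] at h1
    rw [Int.modEq_iff_dvd] at h1 ⊢
    obtain ⟨t, ht⟩ := h1
    have h2 : ((2 : ℤ) ^ k + 1) ∣ 2 * ((s : ℤ) - ψ * (s - 1)) := by
      refine ⟨(s : ℤ) - ψ * s - t, ?_⟩
      linear_combination -ht
    exact hcop2.symm.dvd_of_dvd_mul_left h2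

/-- For n=2k and Niho exponent d=s(2^k-1)+1 coprime to 2^n-1: if the m-sequence/d-decimation cross-correlation takes exactly 4 values, then s(2^r±1)≡2^r mod 2^k+1 for some r≥1 with v2(r)<v2(k). -/
theorem result :
    ∀ k s : ℕ, 1 ≤ k →
      Nat.Coprime (s * (2 ^ k - 1) + 1) (2 ^ (2 * k) - 1) →
      ∀ (F : Type) [Field F] [Fintype F], Fintype.card F = 2 ^ (2 * k) →
      ((Finset.univ.filter (fun a : F => a ≠ 0)).image
          (fun a : F =>
            ∑ x : F,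
              (if (∑ i ∈ Finset.range (2 * k), (a * x + x ^ (s * (2 ^ k - 1) + 1)) ^ (2 ^ i)) = 0
                then (1 : ℤ) else -1))).card = 4 →
      ∃ r : ℕ, 0 < r ∧ padicValNat 2 r < padicValNat 2 k ∧
        ((s : ℤ) * (2 ^ r + 1) ≡ 2 ^ r [ZMOD (2 ^ k + 1 : ℤ)] ∨
         (s : ℤ) * (2 ^ r - 1) ≡ 2 ^ r [ZMOD (2 ^ k + 1 : ℤ)]) := by
  intro k s hk hs F _ _ hF h4
  apply main_aux k s hk hs F hF
  rw [← h4]
  congr 2
  ext x
  simp

end Pool.Agent.S17095
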