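-- Proof of the frozen statement S17892 (the negation): generators of bounded height exist.
import Pool.Statements.S17892
import Pool.Agent.Helper43.Final

set_option autoImplicit false
open Pool Pool.MP_9cc257_nt

namespace Pool.Agent.S17892

/-- The negation of the preceding statement: For every B there is N such that if n ≥ N and α is algebraic with Q(α) Galois over Q with group S_n, then the Weil height of α, log Mahler measure of its primitive integer minimal polynomial divided by its degree, exceeds B. -/
theorem result :
    ¬ (∀ B : ℝ, ∃ N : ℕ, ∀ n : ℕ, N ≤ n → ∀ α : ℂ, ∀ p : Polynomial ℤ,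
      Irreducible p → Polynomial.aeval α p = 0 →
      IsGalois ℚ (IntermediateField.adjoin ℚ ({α} : Set ℂ)) →
      Nonempty (((IntermediateField.adjoin ℚ ({α} : Set ℂ)) ≃ₐ[ℚ]
          (IntermediateField.adjoin ℚ ({α} : Set ℂ))) ≃* Equiv.Perm (Fin n)) →
      B < Real.log (Polynomial.mahlerMeasure (p.map (Int.castRingHom ℂ))) / (p.natDegree : ℝ)) := by
  intro h
  obtain ⟨N, hN⟩ := h 200
  obtain ⟨n, hn, hp⟩ := Nat.exists_infinite_primes (max N 3)
  obtain ⟨α, p, h1, h2, h3, h4, h5⟩ :=
    Pool.Agent.Helper43.Final.exists_small n hp (le_trans (le_max_right _ _) hn)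
  exact absurd (hN n (le_trans (le_max_left _ _) hn) α p h1 h2 h3 h4) (not_lt.mpr h5)

end Pool.Agent.S17892
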