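import Pool.Statements.S19299
import Pool.Agent.Helper42.Boot.Final

set_option autoImplicit false
open scoped Classical
open Pool Pool.MP_4d46d2_pr

namespace Pool.Agent.S19299

/-- The modified bootstrap percolation critical probability on the n-by-n grid equals π²/(6 log n) − 1/(log n)^(3/2+ε(n)) for all large n, for some sequence ε(n) tending to 0. -/
theorem result :
    ∃ ε : ℕ → ℝ, Filter.Tendsto ε Filter.atTop (nhds 0) ∧
      ∀ᶠ n : ℕ in Filter.atTop,
        sInf {p : ℝ | 0 ≤ p ∧ p ≤ 1 ∧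
          (1 : ℝ) / 2 ≤ ∑ A : Finset (Fin n × Fin n),
            (if (∀ S : Finset (Fin n × Fin n), A ⊆ S →
                  (∀ v : Fin n × Fin n,
                    ((∃ u ∈ S, u.2 = v.2 ∧ ((u.1 : ℕ) + 1 = v.1 ∨ (v.1 : ℕ) + 1 = u.1)) ∧
                     (∃ u ∈ S, u.1 = v.1 ∧ ((u.2 : ℕ) + 1 = v.2 ∨ (v.2 : ℕ) + 1 = u.2))) →
                    v ∈ S) →
                  S = Finset.univ)
              then p ^ A.card * (1 - p) ^ (n ^ 2 - A.card) else 0)}
        = Real.pi ^ 2 / (6 * Real.log n) - 1 / Real.log n ^ ((3 : ℝ) / 2 + ε n) := by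
  have h := Pool.Agent.Helper42.Boot.main
  obtain ⟨ε, hε, hev⟩ := h
  refine ⟨ε, hε, ?_⟩
  filter_upwards [hev] with n hn
  rw [← hn]
  unfold Pool.Agent.Helper42.Boot.pcrit Pool.Agent.Helper42.Boot.PP
  congr 1
  ext p
  rw [Set.mem_ofPred_eq, Set.mem_ofPred_eq, ← Pool.Agent.Helper42.Boot.bridge n p]

end Pool.Agent.S19299
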