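import Pool.Statements.S19537
import Pool.Agent.A2F.Main

set_option autoImplicit false
open MeasureTheory ProbabilityTheory Filter Topology
open Pool Pool.MP_a2fcbf_pr

namespace Pool.Agent.S19537

/-- For the 2d SRW directed polymer with i.i.d. mean-0 variance-1 environment having exponential moments, tuned in the critical window with any θ, E log Z_N / log log N tends to −1/2 and Var log Z_N lies between constant multiples of log log N. -/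
theorem result :
  ∀ (μ : Measure ℝ) [IsProbabilityMeasure μ],
    (∃ b : ℝ, 0 < b ∧ ∀ t : ℝ, |t| ≤ b → Integrable (fun x : ℝ => Real.exp (t * x)) μ) →
    ∫ x, x ∂μ = 0 → ∫ x, x ^ 2 ∂μ = 1 →
    ∀ (Λ : ℝ → ℝ), (∀ t : ℝ, Λ t = Real.log (∫ x, Real.exp (t * x) ∂μ)) →
    ∀ (R : ℕ → ℝ), (∀ N : ℕ, R N = ∑ n ∈ Finset.Icc 1 N,
        ((Finset.univ.filter (fun p : (Fin n → Fin 4) × (Fin n → Fin 4) =>
            ∑ i, (![((1 : ℤ), (0 : ℤ)), (-1, 0), (0, 1), (0, -1)] : Fin 4 → ℤ × ℤ) (p.1 i)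
              = ∑ i, (![((1 : ℤ), (0 : ℤ)), (-1, 0), (0, 1), (0, -1)] : Fin 4 → ℤ × ℤ) (p.2 i))).card : ℝ)
          / (16 : ℝ) ^ n) →
    ∀ (θ : ℝ) (β : ℕ → ℝ), (∀ N : ℕ, 0 < β N) → Tendsto β atTop (𝓝 0) →
    Tendsto (fun N : ℕ => ((Real.exp (Λ (2 * β N) - 2 * Λ (β N)) - 1) * R N - 1) * Real.log (N : ℝ))
      atTop (𝓝 θ) →
    ∀ (Ω : Type) [MeasureSpace Ω] [IsProbabilityMeasure (volume : Measure Ω)]
      (ω : ℕ × (ℤ × ℤ) → Ω → ℝ),
      (∀ p, Measurable (ω p)) → iIndepFun ω (volume : Measure Ω) →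
      (∀ p, Measure.map (ω p) (volume : Measure Ω) = μ) →
    ∀ (L : ℕ → Ω → ℝ), (∀ (N : ℕ) (a : Ω), L N a = Real.log ((1 / (4 : ℝ) ^ N) *
        ∑ s : Fin N → Fin 4, Real.exp (∑ n : Fin N,
          (β N * ω ((n : ℕ) + 1, ∑ i ∈ Finset.univ.filter (fun i : Fin N => i ≤ n),
              (![((1 : ℤ), (0 : ℤ)), (-1, 0), (0, 1), (0, -1)] : Fin 4 → ℤ × ℤ) (s i)) a
            - Λ (β N))))) →
    Tendsto (fun N : ℕ => (∫ a, L N a ∂(volume : Measure Ω)) / Real.log (Real.log (N : ℝ)))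
        atTop (𝓝 (-1 / 2)) ∧
      ∃ c C : ℝ, 0 < c ∧ 0 < C ∧ ∀ᶠ N : ℕ in atTop,
        c * Real.log (Real.log (N : ℝ)) ≤ variance (L N) (volume : Measure Ω) ∧
        variance (L N) (volume : Measure Ω) ≤ C * Real.log (Real.log (N : ℝ)) := by
  intro μ _ hexp h1 h2 Λ hΛ R hR θ β hβ hβ0 hwin Ω _ _ ω hmeas hind hlaw L hL
  exact Pool.A2F.main_thm μ hexp h1 h2 Λ hΛ R hR θ β hβ hβ0 hwin Ω ω hmeas hind hlaw L hL

end Pool.Agent.S19537
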